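import Pool.Agent.Lib.MP_b07157_agR.Fin1
import Pool.Agent.Lib.MP_b07157_agL3.Glob

/-!
# Two special lines: the structure of the solution, if `3 ∑ m_i = d`
-/

noncomputable section

namespace MPb07157.TR

open TL TLL Finaux

variable {ι : Type} [Fintype ι] [DecidableEq ι]

/-- If `b ≠ 0`, then all differences `c_i - c_j` satisfy the same differential equation of the
first order, and `A_0` is a unit. -/
theorem fin1 {c : ι → L0} (hc : Function.Injective c) {A0 : L0} (hA0 : A0 ≠ 0) {t3 : ℂ}
    {m : ι → ℕ} {s b g : ℂ} {α : ι → L0} {γ y κ κ' : L0} {z : ι → ι → ℂ} {i0 j0 : ι}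
    (h0 : i0 ≠ j0) (hz0 : z i0 j0 = 0) (hs : s * ((∑ i, m i : ℕ) : ℂ) = -1)
    (hγ : γ = HahnSeries.C g * (HahnSeries.C t3 + tau))
    (hx : ∀ i j, i ≠ j →
      α i - α j = (y + HahnSeries.C (z i j) * (HahnSeries.C t3 + tau)) * (c i - c j))
    (hE1 : dtau γ + HahnSeries.C s * (dtau A0 / A0) * γ = HahnSeries.C b)
    (hE2 : ∀ i, eps dtau c (fun i => algebraMap ℂ L0 (s * (m i : ℂ))) α
      (HahnSeries.C s * (dtau A0 / A0)) i - γ * dtau (c i) = κ + κ' * c i) (hb : b ≠ 0) :
    g ≠ 0 ∧ (t3 ≠ 0 → A0.order = 0) ∧ ∃ κ₀ : L0, ∀ i k,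
      HahnSeries.C g * ((HahnSeries.C t3 + tau) * (dtau (c i) - dtau (c k))) =
        -(κ₀ * (c i - c k)) := by
  have hsub : ∀ {i j : ι}, i ≠ j → c i - c j ≠ 0 := fun hab =>
    sub_ne_zero.mpr (fun he => hab (hc he))
  have hT0 := C_add_tau_ne t3
  set T : L0 := HahnSeries.C t3 + tau with hT
  set A : L0 := HahnSeries.C s * (dtau A0 / A0) with hA
  have hCd : ∀ x : ℂ, dtau (HahnSeries.C x : L0) = 0 := fun x => by
    rw [← algebraMap_L0]
    exact Derivation.map_algebraMap _ _
  have hdT : dtau T = 1 := dtau_t t3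
  have hdγ : dtau γ = HahnSeries.C g := by
    rw [hγ, Derivation.leibniz, hdT, hCd, smul_zero, add_zero, smul_eq_mul, mul_one]
  have hg : g ≠ 0 := by
    intro h1
    rw [hdγ, hγ, h1, map_zero, zero_mul, mul_zero, add_zero] at hE1
    exact hb ((map_eq_zero_iff _ HahnSeries.C_injective).1 hE1.symm)
  have hCg : (HahnSeries.C g : L0) ≠ 0 := by
    rwa [Ne, map_eq_zero_iff _ HahnSeries.C_injective]
  have hp : A * T = HahnSeries.C ((b - g) / g) := by
    apply mul_left_cancel₀ hCg
    rw [← map_mul, mul_div_cancel₀ _ hg, map_sub, ← hE1, hdγ, hγ]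
    ring
  have hs0 : s ≠ 0 := by
    rintro rfl
    rw [zero_mul] at hs
    norm_num at hs
  have hx' : ∀ i j, α i - α j = (y + HahnSeries.C (z i j) * T) * (c i - c j) := by
    intro i j
    by_cases hij : i = j
    · rw [hij, sub_self, sub_self, mul_zero]
    · exact hx i j hij
  refine ⟨hg, fun ht3 => ?_, ?_⟩
  · obtain ⟨hπ, hπ0⟩ := LLaux.logd hA0 s
    have h1 := hπ.coeff_mul (lo_t t3)
    rw [hπ0, coeff_t] at h1
    have h2 : (A * T).coeff (-1 + 0) = 0 := by
      rw [hp]
      change (HahnSeries.single 0 ((b - g) / g) : L0).coeff (-1 + 0) = 0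
      rw [HahnSeries.coeff_single_of_ne (by norm_num)]
    rw [h2] at h1
    have h3 := (mul_eq_zero.1 ((mul_eq_zero.1 h1.symm).resolve_right ht3)).resolve_left hs0
    exact_mod_cast h3
  · have hσ : ∑ i, s * (m i : ℂ) = -1 := by
      rw [← Finset.mul_sum, ← hs]
      push_cast
      rfl
    have hZ : Zq dtau T c (fun i => s * (m i : ℂ)) z ((b - g) / g) g (κ' - dtau y - A * y) := by
      refine ⟨hc, hσ, fun i j k => ?_, fun i k => ?_⟩
      · have h1 := hx' i j
        have h2 := hx' j k
        have h3 := hx' i k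
        apply mul_left_cancel₀ hT0
        rw [algebraMap_L0, algebraMap_L0, algebraMap_L0]
        linear_combination h3 - h1 - h2
      · have hsum : ∀ i, ∑ l ∈ Finset.univ.erase i, algebraMap ℂ L0 (s * (m l : ℂ)) *
            (α i - α l) * (dtau (c i - c l) / (c i - c l)) =
            ∑ l, algebraMap ℂ L0 (s * (m l : ℂ)) * ((y + HahnSeries.C (z i l) * T) *
              (dtau (c i) - dtau (c l))) := by
          intro i
          rw [← Finset.add_sum_erase Finset.univ _ (Finset.mem_univ i), sub_self, mul_zero,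
            mul_zero, zero_add]
          refine Finset.sum_congr rfl fun l hl => ?_
          have hil : i ≠ l := (Finset.ne_of_mem_erase hl).symm
          have h4 := hsub hil
          rw [hx' i l, map_sub]
          field_simp
        have h1 := hE2 i
        have h2 := hE2 k
        rw [eps, hsum] at h1 h2
        have h3 : dtau (α i) - dtau (α k) = (dtau y + HahnSeries.C (z i k)) * (c i - c k) +
            (y + HahnSeries.C (z i k) * T) * (dtau (c i) - dtau (c k)) := by
          rw [← map_sub, hx' i k, Derivation.leibniz, map_add, Derivation.leibniz, hdT, hCd,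
            smul_zero, add_zero, map_sub, smul_eq_mul, smul_eq_mul, smul_eq_mul, mul_one]
          ring
        have h4 : ∑ l, algebraMap ℂ L0 (s * (m l : ℂ)) * ((y + HahnSeries.C (z i l) * T) *
              (dtau (c i) - dtau (c l))) - ∑ l, algebraMap ℂ L0 (s * (m l : ℂ)) *
              ((y + HahnSeries.C (z k l) * T) * (dtau (c k) - dtau (c l))) =
            -(y * (dtau (c i) - dtau (c k))) + T * ∑ l, algebraMap ℂ L0 (s * (m l : ℂ)) *
              (algebraMap ℂ L0 (z i l) * (dtau (c i) - dtau (c l)) -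
                algebraMap ℂ L0 (z k l) * (dtau (c k) - dtau (c l))) := by
          have h5 : ∑ l, algebraMap ℂ L0 (s * (m l : ℂ)) = -1 := by
            rw [← map_sum, hσ, map_neg, map_one]
          have h6 : -(y * (dtau (c i) - dtau (c k))) = ∑ l, algebraMap ℂ L0 (s * (m l : ℂ)) *
              (y * (dtau (c i) - dtau (c k))) := by
            rw [← Finset.sum_mul, h5]
            ring
          rw [h6, Finset.mul_sum, ← Finset.sum_add_distrib, ← Finset.sum_sub_distrib]
          refine Finset.sum_congr rfl fun l _ => ?_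
          rw [algebraMap_L0 (z i l), algebraMap_L0 (z k l)]
          ring
        have h7 := hx' i k
        have h8 : algebraMap ℂ L0 (z i k * (1 + (b - g) / g)) =
            HahnSeries.C (z i k) * (1 + A * T) := by
          rw [algebraMap_L0, map_mul, map_add, map_one, hp]
        rw [h8, algebraMap_L0 (z i k), algebraMap_L0 g]
        rw [hγ] at h1 h2
        linear_combination h1 - h2 - h3 - h4 - A * h7
    have hode := hZ.ode (by
      rw [sub_div, div_self hg, add_sub_cancel]
      exact div_ne_zero hb hg) h0 hz0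
    refine ⟨κ' - dtau y - A * y, fun i k => ?_⟩
    have h1 := hode i k
    rwa [algebraMap_L0] at h1

/-- Two solutions of the same equation are proportional. -/
theorem prop_of_ode {g : ℂ} (hg : g ≠ 0) {T κ u v : L0} (hT : T ≠ 0) (hv : v ≠ 0)
    (h1 : HahnSeries.C g * (T * dtau u) = -(κ * u)) (h2 : HahnSeries.C g * (T * dtau v) = -(κ * v)) :
    ∃ z : ℂ, u = HahnSeries.C z * v := by
  have hCg : (HahnSeries.C g : L0) ≠ 0 := by
    rwa [Ne, map_eq_zero_iff _ HahnSeries.C_injective]
  have h3 : dtau (u * v⁻¹) = 0 := by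
    rw [Derivation.leibniz, Derivation.leibniz_inv, smul_eq_mul, smul_eq_mul, smul_eq_mul]
    have h4 : HahnSeries.C g * T * (dtau u * v - u * dtau v) = 0 := by
      linear_combination v * h1 - u * h2
    have h5 := (mul_eq_zero.1 h4).resolve_left (mul_ne_zero hCg hT)
    field_simp
    linear_combination h5
  refine ⟨(u * v⁻¹).coeff 0, ?_⟩
  have h4 : u * v⁻¹ = HahnSeries.C ((u * v⁻¹).coeff 0) := by
    ext q
    rw [HahnSeries.C_apply]
    by_cases hq : q = 0
    · rw [hq, HahnSeries.coeff_single_same]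
    · rw [HahnSeries.coeff_single_of_ne hq]
      have h5 := congrArg (fun x : L0 => x.coeff (q - 1)) h3
      simp only [coeff_dtau, HahnSeries.coeff_zero, sub_add_cancel] at h5
      exact (mul_eq_zero.1 h5).resolve_left (by exact_mod_cast hq)
  rw [← h4, mul_assoc, inv_mul_cancel₀ hv, mul_one]

/-- The roots of a monomial. -/
theorem pow_single {x : L0} {N : ℕ} (hN : 0 < N) {k : ℚ} {z : ℂ} (hz : z ≠ 0)
    (h : x ^ N = HahnSeries.single k z) : ∃ w : ℂ, x = HahnSeries.single (k / N) w := by
  obtain ⟨w, hw⟩ := IsAlgClosed.exists_pow_nat_eq z hN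
  have hw0 : w ≠ 0 := by
    rintro rfl
    rw [zero_pow hN.ne'] at hw
    exact hz hw.symm
  set v : L0 := HahnSeries.single (k / N) w with hv
  have hv0 : v ≠ 0 := HahnSeries.single_ne_zero hw0
  have hN' : (N : ℚ) ≠ 0 := by exact_mod_cast hN.ne'
  have h1 : v ^ N = x ^ N := by
    rw [h, hv, HahnSeries.single_pow, hw]
    congr 1
    rw [nsmul_eq_mul]
    field_simp
  have h2 : (x * v⁻¹) ^ N = 1 := by
    rw [mul_pow, inv_pow, h1, mul_inv_cancel₀]
    rw [← h1]
    exact pow_ne_zero _ hv0
  -- roots of unity are constants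
  have h3 : ∃ u : ℂ, x * v⁻¹ = HahnSeries.C u := by
    have h4 : (Polynomial.X ^ N - 1 : Polynomial ℂ).Splits := IsAlgClosed.splits _
    have h5 := h4.eq_prod_roots
    have h6 : (Polynomial.eval₂ (HahnSeries.C : ℂ →+* L0) (x * v⁻¹)
        (Polynomial.X ^ N - 1 : Polynomial ℂ)) = 0 := by
      rw [Polynomial.eval₂_sub, Polynomial.eval₂_X_pow, Polynomial.eval₂_one, h2, sub_self]
    rw [h5, Polynomial.eval₂_mul, Polynomial.eval₂_C] at h6
    have h7 : (HahnSeries.C (Polynomial.X ^ N - 1 : Polynomial ℂ).leadingCoeff : L0) ≠ 0 := by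
      rw [Ne, map_eq_zero_iff _ HahnSeries.C_injective, Polynomial.leadingCoeff_eq_zero]
      intro h8
      have h9 := Polynomial.X_pow_sub_C_ne_zero hN (1 : ℂ)
      rw [map_one] at h9
      exact h9 h8
    have h8 := (mul_eq_zero.1 h6).resolve_left h7
    rw [Polynomial.eval₂_multiset_prod, Multiset.prod_eq_zero_iff, Multiset.map_map,
      Multiset.mem_map] at h8
    obtain ⟨u, -, hu⟩ := h8
    refine ⟨u, ?_⟩
    simp only [Function.comp_apply, Polynomial.eval₂_sub, Polynomial.eval₂_X,
      Polynomial.eval₂_C] at hu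
    exact sub_eq_zero.1 hu
  obtain ⟨u, hu⟩ := h3
  refine ⟨u * w, ?_⟩
  have h4 : x = HahnSeries.C u * v := by
    rw [← hu, mul_assoc, inv_mul_cancel₀ hv0, mul_one]
  rw [h4, hv, HahnSeries.C_apply, HahnSeries.single_mul_single, zero_add]

end MPb07157.TR
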