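import Pool.Agent.Lib.MP_b07157_agR.Gl
import Pool.Agent.Lib.MP_b07157_agR.Fin2
import Mathlib.RingTheory.Norm.Basic

/-!
# Two special lines through a point of multiplicity `2d/3`
-/

noncomputable section

namespace MPb07157.TR

open MvPolynomial TL

variable {f : MvPolynomial (Fin 3) ℂ} {d n : ℕ}

section

variable {c : Fin n → KK f} {m : Fin n → ℕ} {A0 : KK f}

/-- The Galois group permutes the roots. -/
theorem gal_root (hF : Fac f (tK f) c m A0) (σ : KK f ≃ₐ[RatFunc ℂ] KK f) (i : Fin n) :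
    ∃ j, σ (c i) = c j := by
  have hσt : (σ : KK f →+* KK f) (tK f) = tK f := σ.commutes _
  have hF' := hF.map (σ : KK f →+* KK f) (fun z => by
    rw [algC]
    exact σ.commutes _)
  rw [hσt] at hF'
  have h1 : (PL f (tK f)).eval (σ (c i)) = 0 := by
    rw [hF'.eq, Polynomial.eval_mul, Polynomial.eval_prod]
    rw [Finset.prod_eq_zero (Finset.mem_univ i), mul_zero]
    rw [Polynomial.eval_pow, Polynomial.eval_sub, Polynomial.eval_X, Polynomial.eval_C]
    change (σ (c i) - σ (c i)) ^ m i = 0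
    rw [sub_self, zero_pow (hF.pos i).ne']
  rw [hF.eq, Polynomial.eval_mul, Polynomial.eval_C, Polynomial.eval_prod] at h1
  have h2 := (mul_eq_zero.1 h1).resolve_left hF.ne
  obtain ⟨j, -, hj⟩ := Finset.prod_eq_zero_iff.1 h2
  refine ⟨j, ?_⟩
  rw [Polynomial.eval_pow, Polynomial.eval_sub, Polynomial.eval_X, Polynomial.eval_C] at hj
  exact sub_eq_zero.1 (pow_eq_zero_iff (hF.pos j).ne' |>.1 hj)

theorem order_C_mul {w : ℂ} (hw : w ≠ 0) {x : L0} (hx : x ≠ 0) :
    (HahnSeries.C w * x : L0).order = x.order := by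
  have h1 : (HahnSeries.C w : L0) ≠ 0 := by
    rwa [Ne, map_eq_zero_iff _ HahnSeries.C_injective]
  have h2 : (HahnSeries.C w : L0).order = 0 := by
    rw [HahnSeries.C_apply, HahnSeries.order_single hw]
  rw [HahnSeries.order_mul h1 hx, h2, zero_add]

/-- If all differences of the roots are proportional and without zeros and poles outside
`0` and `∞`, they are monomials. -/
theorem norm_mono (hF : Fac f (tK f) c m A0) {u : KK f} (hu : u ≠ 0) {i0 j0 : Fin n}
    (hu' : u = c i0 - c j0) (hw : ∀ i j, ∃ w : ℂ, c i - c j = algebraMap ℂ (KK f) w * u)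
    (ho : ∀ (t0 : ℂ) (φ : KK f →+* L0), t0 ≠ 0 → IsPl t0 φ → (φ u).order = 0) :
    ∃ l : ℚ, ∀ φ : KK f →+* L0, IsPl 0 φ → ∃ w : ℂ, φ u = HahnSeries.single l w := by
  classical
  have h1 : ∀ σ : KK f ≃ₐ[RatFunc ℂ] KK f, ∃ w : ℂ, w ≠ 0 ∧
      σ u = algebraMap ℂ (KK f) w * u := by
    intro σ
    obtain ⟨i, hi⟩ := gal_root hF σ i0
    obtain ⟨j, hj⟩ := gal_root hF σ j0
    obtain ⟨w, hw⟩ := hw i j
    have h2 : σ u = algebraMap ℂ (KK f) w * u := by
      rw [← hw, ← hi, ← hj, ← map_sub, ← hu']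
    refine ⟨w, ?_, h2⟩
    rintro rfl
    rw [map_zero, zero_mul] at h2
    exact hu ((map_eq_zero_iff σ σ.injective).1 h2)
  choose w hw0 hw1 using h1
  set N := Fintype.card (KK f ≃ₐ[RatFunc ℂ] KK f) with hN
  have hNpos : 0 < N := Fintype.card_pos
  set w0 : ℂ := ∏ σ, w σ with hw00
  have hw0' : w0 ≠ 0 := Finset.prod_ne_zero_iff.2 fun σ _ => hw0 σ
  have hq : algebraMap (RatFunc ℂ) (KK f) (Algebra.norm (RatFunc ℂ) u) =
      algebraMap ℂ (KK f) w0 * u ^ N := by
    rw [Algebra.norm_eq_prod_automorphisms, Finset.prod_congr rfl fun σ _ => hw1 σ,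
      Finset.prod_mul_distrib, Finset.prod_const, Finset.card_univ, hw00, map_prod]
  have hq0 : Algebra.norm (RatFunc ℂ) u ≠ 0 := by
    rw [Ne, Algebra.norm_eq_zero_iff]
    exact hu
  have hφ' : ∀ {t0 : ℂ} {φ : KK f →+* L0}, IsPl t0 φ →
      φ (algebraMap (RatFunc ℂ) (KK f) (Algebra.norm (RatFunc ℂ) u)) =
        HahnSeries.C w0 * (φ u) ^ N := by
    intro t0 φ hφ
    rw [hq, map_mul, map_pow, hφ.alg, algebraMap_L0]
  obtain ⟨z, k, hz, hk⟩ := mono_of_order (K' := KK f) _ hq0 (fun t0 φ ht hφ => by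
    have h2 : φ u ≠ 0 := (map_ne_zero φ).2 hu
    rw [hφ' hφ, order_C_mul hw0' (pow_ne_zero _ h2), Zaaux.order_pow' h2, ho t0 φ ht hφ,
      mul_zero]) (exists_pl f)
  refine ⟨(k : ℚ) / N, fun φ hφ => ?_⟩
  have h2 := hk φ hφ
  rw [hφ' hφ] at h2
  have h3 : (φ u) ^ N = HahnSeries.single (k : ℚ) (w0⁻¹ * z) := by
    have h4 : (HahnSeries.single (k : ℚ) (w0⁻¹ * z) : L0) = HahnSeries.C w0⁻¹ *
        HahnSeries.single (k : ℚ) z := by
      rw [HahnSeries.C_apply, HahnSeries.single_mul_single, zero_add]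
    rw [h4, ← h2, ← mul_assoc, ← map_mul, inv_mul_cancel₀ hw0', map_one, one_mul]
  exact pow_single hNpos (mul_ne_zero (inv_ne_zero hw0') hz) h3

end

/-- **Two special lines** through a point of multiplicity `2d/3`: if `-3/d` is not a root, the
form is exceptional. -/
theorem shr_of_special1 (hf : f.IsHomogeneous d) (h0 : f ≠ 0) (hd : 0 < d)
    (h1 : 3 * f.degreeOf 0 = d) (hs1 : SpecL f 0 1) (hs2 : SpecL f 1 0) {B : Polynomial ℂ}
    (hB : IsBernsteinSato f B) (hb : B.eval (s0 d) ≠ 0) : Shr f ∨ Mon f := by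
  obtain ⟨K, θ, n, c, m, A0, α, γ, W, G, hC1, hC2⟩ := exists_glob1 hf h0 hd h1 hB
  rcases Nat.lt_or_ge 1 n with hn | hn
  swap
  · exact Or.inr (mon_of_le G.hF G.sum hn)
  left
  obtain ⟨i0, j0, h01⟩ : ∃ i0 j0 : Fin n, i0 ≠ j0 := by
    refine ⟨⟨0, by omega⟩, ⟨1, hn⟩, fun h6 => ?_⟩
    have := congrArg Fin.val h6
    simp at this
  obtain ⟨g, hg⟩ := G.constG hC1 hC2 hs1 hs2 h01
  choose! z hz using fun (i j : Fin n) (hij : i ≠ j) =>
    G.constX hC1 hC2 hs1 hs2 (i := i) (j := j) (k := i0) (l := j0) hij h01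
  have hz0 : z i0 j0 = 0 := by
    have h2 := hz i0 j0 h01
    rw [sub_self] at h2
    have h3 := (mul_eq_zero.1 h2.symm).resolve_right tK_ne
    exact (map_eq_zero_iff _ (algebraMap ℂ (KK f)).injective).1 h3
  have hdC : (d : ℂ) ≠ 0 := by exact_mod_cast hd.ne'
  have hs : s0 d * ((∑ i, m i : ℕ) : ℂ) = -1 := by
    have h2 : (3 : ℂ) * ((∑ i, m i : ℕ) : ℂ) = d := by exact_mod_cast G.h1
    unfold s0
    field_simp
    linear_combination -h2
  have hfin : ∀ {t3 : ℂ} {φ : KK f →+* L0}, IsPl t3 φ → g ≠ 0 ∧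
      (t3 ≠ 0 → (φ A0).order = 0) ∧ ∃ κ₀ : L0, ∀ i k, HahnSeries.C g *
        ((HahnSeries.C t3 + tau) * (dtau (φ (c i)) - dtau (φ (c k)))) =
        -(κ₀ * (φ (c i) - φ (c k))) := by
    intro t3 φ hφ
    have hF := G.fac hφ
    obtain ⟨hE1, κ, κ', hE2⟩ := G.eq hφ
    have ht : φ (tK f) = HahnSeries.C t3 + tau := hφ.2
    have hx : ∀ i j, i ≠ j → φ (α i) - φ (α j) =
        (φ (xx c α i0 j0) + HahnSeries.C (z i j) * (HahnSeries.C t3 + tau)) *
          (φ (c i) - φ (c j)) := by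
      intro i j hij
      have h2 := hz i j hij
      have h3 : c i - c j ≠ 0 := sub_ne_zero.2 fun h => hij (G.hF.inj h)
      have h4 : α i - α j = (xx c α i0 j0 + algebraMap ℂ (KK f) (z i j) * tK f) *
          (c i - c j) := by
        rw [← h2]
        unfold xx
        field_simp
        ring
      rw [← map_sub, h4, map_mul, map_add, map_mul, map_sub, hφ.alg, algebraMap_L0, ht]
    have hγ : φ γ = HahnSeries.C g * (HahnSeries.C t3 + tau) := by
      rw [hg, map_mul, hφ.alg, algebraMap_L0, ht]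
    exact fin1 hF.inj hF.ne h01 hz0 hs hγ hx hE1 hE2 hb
  obtain ⟨φ0, hφ0⟩ := exists_pl f 0
  have hg0 := (hfin hφ0).1
  set u : KK f := c i0 - c j0 with hu
  have hu0 : u ≠ 0 := sub_ne_zero.2 fun h => h01 (G.hF.inj h)
  -- the differences are proportional
  have hw : ∀ i j, ∃ w : ℂ, c i - c j = algebraMap ℂ (KK f) w * u := by
    intro i j
    obtain ⟨-, -, κ₀, hκ⟩ := hfin hφ0
    have h2 := hκ i j
    have h3 := hκ i0 j0
    rw [← map_sub, ← map_sub] at h2 h3
    obtain ⟨w, hw⟩ := prop_of_ode hg0 (C_add_tau_ne 0) ((map_ne_zero φ0).2 hu0) h2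
      (by rw [hu]; exact h3)
    refine ⟨w, ?_⟩
    apply φ0.injective
    rw [hw, map_mul, hφ0.alg, algebraMap_L0]
  -- the other places
  have ho : ∀ (t0 : ℂ) (φ : KK f →+* L0), t0 ≠ 0 → IsPl t0 φ → (φ u).order = 0 := by
    intro t0 φ ht hφ
    have hA := (hfin hφ).2.1 ht
    have hF := G.fac hφ
    have hdeg := natDegree_of_order hF G.sum hA
    have hcard : (Uf f 1 t0).roots.toFinset.card ≠ 1 := by
      intro h2
      have h3 := (G.regularL hC1 hφ (Or.inr ⟨hdeg, h2⟩) h01).1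
      have h4 : (φ γ).orderTop = 0 := by
        rw [hg, map_mul, hφ.alg, algebraMap_L0]
        have ht' : φ (tK f) = HahnSeries.C t0 + tau := hφ.2
        rw [ht', HahnSeries.orderTop_mul, orderTop_C_add_tau ht, HahnSeries.C_apply,
          HahnSeries.orderTop_single hg0, add_zero]
        rfl
      rw [h4] at h3
      have h9 : (1 : ℚ) ≤ 0 := by exact_mod_cast h3
      linarith
    have hpos : 0 < (Uf f 1 t0).roots.toFinset.card := by
      rw [Finset.card_pos, Multiset.toFinset_nonempty, Ne, ← Multiset.card_eq_zero,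
        (IsAlgClosed.splits (Uf f 1 t0)).natDegree_eq_card_roots.symm, hdeg]
      omega
    obtain ⟨i, j, hij, h2⟩ := exists_pair hF (by omega)
    obtain ⟨w, hw'⟩ := hw i j
    have hw0 : w ≠ 0 := by
      rintro rfl
      rw [map_zero, zero_mul] at hw'
      exact hij (G.hF.inj (sub_eq_zero.1 hw'))
    rw [← map_sub, hw', map_mul, hφ.alg, algebraMap_L0,
      order_C_mul hw0 ((map_ne_zero φ).2 hu0)] at h2
    exact h2
  obtain ⟨κ, a, hκ, ha⟩ := G.hF.lead0 (fun t0 φ ht hφ => (hfin hφ).2.1 ht)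
  obtain ⟨l, hl⟩ := norm_mono G.hF hu0 hu hw ho
  obtain ⟨w, hw2⟩ := hl φ0 hφ0
  choose v hv using hw
  have hF0 := G.fac hφ0
  rw [map_zero, zero_add, ha φ0 hφ0] at hF0
  refine ⟨n, fun i => φ0 (c i), m, κ, a, l, fun i j => v i j * w, hF0, G.sum, fun i j => ?_⟩
  rw [← map_sub, hv, map_mul, hφ0.alg, algebraMap_L0, hw2, HahnSeries.C_apply,
    HahnSeries.single_mul_single, zero_add]

end MPb07157.TR
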