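import Pool.Agent.Lib.MP_b07157_agR.Defs
import Pool.Agent.Lib.MP_b07157_agL3.H

/-!
# Hermite reduction, the function `1` is not reduced
-/

noncomputable section

set_option linter.unusedSectionVars false

namespace MPb07157.TR

open MvPolynomial TL

variable {L F : Type} [Field L] [Field F] [Algebra L F] {ι : Type} [Fintype ι] [DecidableEq ι]

namespace H1aux

open Haux

variable [Algebra ℂ L]

/-- The conclusion of the theorem. -/
def Red1 (W : WF L F) (c : ι → L) (σ : ι → Polynomial ℂ) (A : Polynomial F) : Prop :=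
  ∃ (D : Polynomial ℂ) (g : Polynomial L) (a : ι → Polynomial L),
      (∀ s : ℂ, WRes (fun i => algebraMap ℂ L ((σ i).eval s)) → D.eval s ≠ 0) ∧
      ∀ s : ℂ, ∃ r ∈ SS W c,
        algebraMap L F (algebraMap ℂ L (D.eval s)) *
            A.eval (algebraMap L F (algebraMap ℂ L s)) =
          algebraMap L F (g.eval (algebraMap ℂ L s)) +
            lg W c (fun i => (a i).eval (algebraMap ℂ L s)) +
            nb W.dw (lg W c fun i => algebraMap ℂ L ((σ i).eval s)) r

variable {W : WF L F} {c : ι → L} {σ : ι → Polynomial ℂ}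

omit [DecidableEq ι] in
theorem Red1.zero : Red1 W c σ 0 := by
  refine ⟨1, 0, fun _ => 0, fun s _ => by simp, fun s => ⟨0, Subalgebra.zero_mem _, ?_⟩⟩
  rw [nb_zero, Polynomial.eval_zero, mul_zero]
  simp only [Polynomial.eval_zero]
  rw [lg_zero, map_zero, add_zero, add_zero]

omit [DecidableEq ι] in
theorem Red1.add {A B : Polynomial F} (hA : Red1 W c σ A) (hB : Red1 W c σ B) :
    Red1 W c σ (A + B) := by
  obtain ⟨D1, g1, a1, h1, k1⟩ := hA
  obtain ⟨D2, g2, a2, h2, k2⟩ := hB
  refine ⟨D1 * D2, D2.map (algebraMap ℂ L) * g1 + D1.map (algebraMap ℂ L) * g2,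
    fun i => D2.map (algebraMap ℂ L) * a1 i + D1.map (algebraMap ℂ L) * a2 i,
    fun s hs => ?_, fun s => ?_⟩
  · rw [Polynomial.eval_mul]
    exact mul_ne_zero (h1 s hs) (h2 s hs)
  · obtain ⟨r1, m1, e1⟩ := k1 s
    obtain ⟨r2, m2, e2⟩ := k2 s
    refine ⟨algebraMap L F (algebraMap ℂ L (D2.eval s)) * r1 +
      algebraMap L F (algebraMap ℂ L (D1.eval s)) * r2,
      Subalgebra.add_mem _ (Subalgebra.mul_mem _ (alg_mem W c _) m1)
        (Subalgebra.mul_mem _ (alg_mem W c _) m2), ?_⟩
    rw [nb_add, nb_smul, nb_smul]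
    simp only [Polynomial.eval_add, Polynomial.eval_mul, eval_mapC]
    rw [lg_add, lg_smul, lg_smul, map_mul, map_mul, map_add, map_mul, map_mul]
    linear_combination (algebraMap L F (algebraMap ℂ L (D2.eval s))) * e1 +
      (algebraMap L F (algebraMap ℂ L (D1.eval s))) * e2

omit [DecidableEq ι] in
theorem Red1.polyMul {A : Polynomial F} (hA : Red1 W c σ A) (P : Polynomial L) :
    Red1 W c σ (P.map (algebraMap L F) * A) := by
  obtain ⟨D1, g1, a1, h1, k1⟩ := hA
  refine ⟨D1, P * g1, fun i => P * a1 i, h1, fun s => ?_⟩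
  obtain ⟨r1, m1, e1⟩ := k1 s
  refine ⟨algebraMap L F (P.eval (algebraMap ℂ L s)) * r1,
    Subalgebra.mul_mem _ (alg_mem W c _) m1, ?_⟩
  rw [nb_smul]
  simp only [Polynomial.eval_mul, eval_mapL]
  rw [lg_smul, map_mul]
  linear_combination (algebraMap L F (P.eval (algebraMap ℂ L s))) * e1

omit [DecidableEq ι] in
theorem Red1.sum {κ : Type} (S : Finset κ) (A : κ → Polynomial F)
    (h : ∀ j ∈ S, Red1 W c σ (A j)) : Red1 W c σ (∑ j ∈ S, A j) := by
  classical
  induction S using Finset.induction_on with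
  | empty => rw [Finset.sum_empty]; exact Red1.zero
  | insert j S hj ih =>
    rw [Finset.sum_insert hj]
    exact (h j (Finset.mem_insert_self _ _)).add
      (ih fun i hi => h i (Finset.mem_insert_of_mem hi))

omit [DecidableEq ι] in
/-- Division by a polynomial in `s` which does not vanish at the exponents with `WRes`. -/
theorem Red1.div {x y : F} {E : Polynomial ℂ} {B : Polynomial F} (hy : y ∈ SS W c)
    (hE : ∀ s : ℂ, WRes (fun i => algebraMap ℂ L ((σ i).eval s)) → E.eval s ≠ 0)
    (hB : Red1 W c σ B)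
    (h : ∀ s : ℂ, algebraMap L F (algebraMap ℂ L (E.eval s)) * x =
      nb W.dw (lg W c fun i => algebraMap ℂ L ((σ i).eval s)) y +
        B.eval (algebraMap L F (algebraMap ℂ L s))) :
    Red1 W c σ (Polynomial.C x) := by
  obtain ⟨D1, g1, a1, h1, k1⟩ := hB
  refine ⟨D1 * E, g1, a1, fun s hs => ?_, fun s => ?_⟩
  · rw [Polynomial.eval_mul]
    exact mul_ne_zero (h1 s hs) (hE s hs)
  · obtain ⟨r1, m1, e1⟩ := k1 s
    refine ⟨r1 + algebraMap L F (algebraMap ℂ L (D1.eval s)) * y,
      Subalgebra.add_mem _ m1 (Subalgebra.mul_mem _ (alg_mem W c _) hy), ?_⟩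
    rw [nb_add, nb_smul, Polynomial.eval_C, Polynomial.eval_mul, map_mul, map_mul]
    linear_combination (algebraMap L F (algebraMap ℂ L (D1.eval s))) * h s + e1

/-- The reducible elements. -/
def RedS1 (W : WF L F) (c : ι → L) (σ : ι → Polynomial ℂ) : Submodule L F where
  carrier := {x | Red1 W c σ (Polynomial.C x)}
  zero_mem' := by
    show Red1 W c σ (Polynomial.C 0)
    rw [Polynomial.C_0]
    exact Red1.zero
  add_mem' := by
    intro x y hx hy
    show Red1 W c σ (Polynomial.C (x + y))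
    rw [Polynomial.C_add]
    exact Red1.add hx hy
  smul_mem' := by
    intro l x hx
    show Red1 W c σ (Polynomial.C (l • x))
    have h := Red1.polyMul hx (Polynomial.C l)
    rw [Polynomial.map_C, ← Polynomial.C_mul] at h
    rw [Algebra.smul_def]
    exact h

omit [DecidableEq ι] in
theorem mem_RedS1 {x : F} : x ∈ RedS1 W c σ ↔ Red1 W c σ (Polynomial.C x) := Iff.rfl

theorem u_mem_RedS1 (W : WF L F) (c : ι → L) (σ : ι → Polynomial ℂ) (i : ι) :
    u W c i ∈ RedS1 W c σ := by
  show Red1 W c σ (Polynomial.C (u W c i))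
  refine ⟨1, 0, fun l => if l = i then 1 else 0, fun s _ => by simp,
    fun s => ⟨0, Subalgebra.zero_mem _, ?_⟩⟩
  rw [nb_zero, Polynomial.eval_one, map_one, map_one, one_mul, Polynomial.eval_C, add_zero,
    Polynomial.eval_zero, map_zero, zero_add]
  rw [lg, Finset.sum_eq_single i]
  · have h1 : (fun l => if l = i then (1 : Polynomial L) else 0) i = 1 := if_pos rfl
    rw [h1, Polynomial.eval_one, map_one, one_mul]
    rfl
  · intro l _ hl
    have h1 : (fun l => if l = i then (1 : Polynomial L) else 0) l = 0 := if_neg hl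
    rw [h1, Polynomial.eval_zero, map_zero, zero_mul]
  · intro h
    exact (h (Finset.mem_univ i)).elim

omit [DecidableEq ι] in
theorem one_mem_RedS1 (W : WF L F) (c : ι → L) (σ : ι → Polynomial ℂ) :
    (1 : F) ∈ RedS1 W c σ := by
  show Red1 W c σ (Polynomial.C 1)
  refine ⟨1, 1, fun _ => 0, fun s _ => by simp, fun s => ⟨0, Subalgebra.zero_mem _, ?_⟩⟩
  rw [nb_zero, Polynomial.eval_one, map_one, map_one, one_mul, Polynomial.eval_C, add_zero,
    Polynomial.eval_one, map_one]
  simp only [Polynomial.eval_zero]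
  rw [lg_zero, add_zero]

omit [DecidableEq ι] in
/-- The sum `∑ p_l(s) x_l` is reducible. -/
theorem red1_sum (p : ι → Polynomial L) (x : ι → F) (S : Finset ι)
    (hx : ∀ i ∈ S, x i ∈ RedS1 W c σ) :
    Red1 W c σ (∑ i ∈ S, (p i).map (algebraMap L F) * Polynomial.C (x i)) :=
  Red1.sum S _ fun i hi => Red1.polyMul (mem_RedS1.1 (hx i hi)) (p i)

theorem w_pow_mem_RedS1 (W : WF L F) (c : ι → L) (σ : ι → Polynomial ℂ) :
    ∀ k : ℕ, W.w ^ k ∈ RedS1 W c σ := by
  intro k
  induction k using Nat.strong_induction_on with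
  | _ k ih =>
    rcases Nat.eq_zero_or_pos k with hk0 | hk0
    · rw [hk0, pow_zero]
      exact one_mem_RedS1 W c σ
    show Red1 W c σ (Polynomial.C (W.w ^ k))
    refine Red1.div (y := W.w ^ (k + 1)) (E := ((k + 1 : ℕ) : Polynomial ℂ) + ∑ i, σ i)
      (B := ∑ l, (-((σ l).map (algebraMap ℂ L) * Polynomial.C (c l))).map (algebraMap L F) *
        Polynomial.C (W.w ^ k * u W c l))
      (Subalgebra.pow_mem _ (w_mem W c) _) ?_ ?_ ?_
    · intro s hs h0
      apply hs.2 (k + 1) (by omega)
      have h1 := congrArg (algebraMap ℂ L) h0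
      rw [Polynomial.eval_add, Polynomial.eval_natCast, Polynomial.eval_finsetSum, map_add,
        map_natCast, map_sum, map_zero] at h1
      rw [add_comm]
      exact h1
    · exact red1_sum _ _ _ fun l _ => w_pow_mul_mem W c _ (u_mem_RedS1 W c σ l) k fun j hj => ih j hj
    · intro s
      rw [Haux.eval_sum, nb, lg_eq_u, Derivation.leibniz_pow, W.dw_w]
      have h2 : ∀ l, algebraMap L F ((-((σ l).map (algebraMap ℂ L) * Polynomial.C (c l))).eval
          (algebraMap ℂ L s)) * (W.w ^ k * u W c l) =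
          -(algebraMap L F (algebraMap ℂ L ((σ l).eval s)) * (W.w ^ (k + 1) * u W c l)) +
            algebraMap L F (algebraMap ℂ L ((σ l).eval s)) * W.w ^ k := by
        intro l
        rw [Polynomial.eval_neg, Polynomial.eval_mul, eval_mapC, Polynomial.eval_C, map_neg,
          map_mul]
        linear_combination (algebraMap L F (algebraMap ℂ L ((σ l).eval s)) * W.w ^ k) *
          w_mul_u W c l
      rw [Finset.sum_congr rfl fun l _ => h2 l, Finset.sum_add_distrib, Finset.sum_neg_distrib,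
        ← Finset.sum_mul, Finset.sum_mul]
      have h3 : ∑ l, algebraMap L F (algebraMap ℂ L ((σ l).eval s)) * (W.w ^ (k + 1) * u W c l) =
          ∑ l, algebraMap L F (algebraMap ℂ L ((σ l).eval s)) * u W c l * W.w ^ (k + 1) :=
        Finset.sum_congr rfl fun l _ => by ring
      rw [h3, Polynomial.eval_add, Polynomial.eval_natCast, Polynomial.eval_finsetSum, map_add,
        map_add, map_natCast, map_natCast, map_sum, map_sum, nsmul_eq_mul, Nat.add_sub_cancel,
        smul_eq_mul, mul_one]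
      ring

theorem u_pow_mem_RedS1 (W : WF L F) (c : ι → L) (hc : Function.Injective c)
    (σ : ι → Polynomial ℂ) (i : ι) : ∀ k : ℕ, 1 ≤ k → u W c i ^ k ∈ RedS1 W c σ := by
  intro k
  induction k using Nat.strong_induction_on with
  | _ k ih =>
    intro hk
    rcases Nat.lt_or_ge 1 k with h1 | h1
    swap
    · have : k = 1 := by omega
      rw [this, pow_one]
      exact u_mem_RedS1 W c σ i
    obtain ⟨k, rfl⟩ : ∃ k', k = k' + 1 := ⟨k - 1, by omega⟩
    show Red1 W c σ (Polynomial.C (u W c i ^ (k + 1)))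
    refine Red1.div (y := u W c i ^ k) (E := σ i - (k : Polynomial ℂ))
      (B := ∑ l ∈ Finset.univ.erase i, (-((σ l).map (algebraMap ℂ L))).map (algebraMap L F) *
        Polynomial.C (u W c l * u W c i ^ k))
      (Subalgebra.pow_mem _ (u_mem W c i) _) ?_ ?_ ?_
    · intro s hs h0
      apply hs.1 i k (by omega)
      have h1 := congrArg (algebraMap ℂ L) h0
      rw [Polynomial.eval_sub, Polynomial.eval_natCast, map_sub, map_natCast, map_zero] at h1
      exact sub_eq_zero.1 h1
    · refine red1_sum _ _ _ fun l hl => ?_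
      refine u_mul_pow_mem W c hc _ (Finset.ne_of_mem_erase hl) (u_mem_RedS1 W c σ l) k
        fun j hj1 hj2 => ih j (by omega) hj1
    · intro s
      rw [Haux.eval_sum, nb, lg_eq_u, Derivation.leibniz_pow, dw_u]
      have h2 : ∀ l, algebraMap L F ((-((σ l).map (algebraMap ℂ L))).eval
          (algebraMap ℂ L s)) * (u W c l * u W c i ^ k) =
          -(algebraMap L F (algebraMap ℂ L ((σ l).eval s)) * u W c l * u W c i ^ k) := by
        intro l
        rw [Polynomial.eval_neg, eval_mapC, map_neg]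
        ring
      rw [Finset.sum_congr rfl fun l _ => h2 l, Finset.sum_neg_distrib, ← Finset.sum_mul]
      rw [← Finset.add_sum_erase Finset.univ _ (Finset.mem_univ i)]
      obtain ⟨m, rfl⟩ : ∃ m, k = m + 1 := ⟨k - 1, by omega⟩
      rw [Polynomial.eval_sub, Polynomial.eval_natCast, map_sub, map_sub, map_natCast,
        map_natCast, nsmul_eq_mul, Nat.add_sub_cancel, smul_eq_mul]
      ring

end H1aux

/-- Hermite reduction: `D(s) A(s) = g(s) + ∑ a_i(s) / (w - c_i) + ∇ r`, where `D(s) ≠ 0` if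
`WRes`. -/
theorem hermite1 [Algebra ℂ L] (W : WF L F) {c : ι → L} (hc : Function.Injective c)
    (σ : ι → Polynomial ℂ) (A : Polynomial F) (hA : ∀ k, A.coeff k ∈ SS W c) :
    ∃ (D : Polynomial ℂ) (g : Polynomial L) (a : ι → Polynomial L),
      (∀ s : ℂ, WRes (fun i => algebraMap ℂ L ((σ i).eval s)) → D.eval s ≠ 0) ∧
      ∀ s : ℂ, ∃ r ∈ SS W c,
        algebraMap L F (algebraMap ℂ L (D.eval s)) *
            A.eval (algebraMap L F (algebraMap ℂ L s)) =
          algebraMap L F (g.eval (algebraMap ℂ L s)) +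
            lg W c (fun i => (a i).eval (algebraMap ℂ L s)) +
            nb W.dw (lg W c fun i => algebraMap ℂ L ((σ i).eval s)) r := by
  have h1 : ∀ k, A.coeff k ∈ H1aux.RedS1 W c σ := fun k =>
    Haux.SS_le W c hc _ (H1aux.w_pow_mem_RedS1 W c σ) (H1aux.u_pow_mem_RedS1 W c hc σ) (hA k)
  have h2 : H1aux.Red1 W c σ (∑ k ∈ Finset.range (A.natDegree + 1),
      (Polynomial.X ^ k : Polynomial L).map (algebraMap L F) * Polynomial.C (A.coeff k)) :=
    H1aux.Red1.sum _ _ fun k _ => H1aux.Red1.polyMul (H1aux.mem_RedS1.1 (h1 k)) _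
  have h3 : (∑ k ∈ Finset.range (A.natDegree + 1),
      (Polynomial.X ^ k : Polynomial L).map (algebraMap L F) * Polynomial.C (A.coeff k)) = A := by
    conv_rhs => rw [A.as_sum_range]
    refine Finset.sum_congr rfl fun k _ => ?_
    rw [Polynomial.map_pow, Polynomial.map_X, mul_comm, Polynomial.C_mul_X_pow_eq_monomial]
  rw [h3] at h2
  exact h2

end MPb07157.TR
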