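import Pool.Agent.Lib.MP_b07157_agR.U1
import Pool.Agent.Lib.MP_b07157_agR.H1
import Pool.Agent.Lib.MP_b07157_agL3.EQ0

/-!
# The differential equations, if the sum of the exponents is `-1`
-/

noncomputable section

namespace MPb07157.TR

open MvPolynomial TL

section

variable {L F : Type} [Field L] [Field F] [Algebra L F] [Algebra ℂ L] [Algebra ℂ F]
  [IsScalarTower ℂ L F] {ι : Type} [Fintype ι] [DecidableEq ι]

open TL.Eaux in
/-- If `b = ∇_t V_1 + ∇_w V_2` and `V_1 = γ + ∑ σ_i α_i / (w - c_i) + ∇_w r`, then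
`γ' + A γ = b` and `ε_i - γ c_i' = κ + κ' c_i`. -/
theorem eqE1 {W : WF L F} (T : TF W) {c : ι → L} (hc : Function.Injective c) {σ : ι → L}
    (hσ : WRes σ) (h1 : (∑ i, σ i) + 1 = 0) (hσ' : ∀ i, T.δ (σ i) = 0) {A : L} {α : ι → L}
    {γ b0 : L} {V₁ V₂ r : F} (hV₂ : V₂ ∈ SS W c) (hr : r ∈ SS W c)
    (hV : V₁ = algebraMap L F γ + lg W c (fun i => σ i * α i) + nb W.dw (lg W c σ) r)
    (h3 : algebraMap L F b0 = nb T.dt (wt T c σ A) V₁ + nb W.dw (lg W c σ) V₂) :
    T.δ γ + A * γ = b0 ∧ ∃ κ κ' : L, ∀ i,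
      σ i * (eps T.δ c σ α A i - γ * T.δ (c i) - (κ + κ' * c i)) = 0 := by
  have : CharZero L := charZero_of_injective_algebraMap (algebraMap ℂ L).injective
  have hC := conn T hc hσ' A
  -- the class
  have h4 := hC.nt_class (α := fun i => algebraMap L F (α i))
    (fun i => W.dw.map_algebraMap (α i))
  have h5 := hC.nt_nw r
  simp only [nt_eq, nw_eq] at h4 h5
  have e1 : ∑ i, algebraMap L F (σ i) * algebraMap L F (α i) /
      (W.w - algebraMap L F (c i)) = lg W c (fun i => σ i * α i) := by
    rw [lg_eq]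
    simp only [map_mul]
  have e2 : ∑ i, algebraMap L F (σ i) * algebraMap L F (α i) *
      (toZ T.dt) (algebraMap L F (c i)) / (W.w - algebraMap L F (c i)) =
      lg W c (fun i => σ i * α i * T.δ (c i)) := by
    rw [lg_eq]
    simp only [map_mul, toZ_apply, T.dt_alg]
  have e3 : ∑ i, algebraMap L F (σ i) / (W.w - algebraMap L F (c i)) *
      ((toZ T.dt) (algebraMap L F (α i)) + algebraMap L F A * algebraMap L F (α i) +
      ∑ j, algebraMap L F (σ j) * ((algebraMap L F (α i) - algebraMap L F (α j)) /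
        (algebraMap L F (c i) - algebraMap L F (c j)) *
        ((toZ T.dt) (algebraMap L F (c i)) - (toZ T.dt) (algebraMap L F (c j))))) =
      lg W c (fun i => σ i * eps T.δ c σ α A i) := by
    rw [lg_eq]
    refine Finset.sum_congr rfl fun i _ => ?_
    rw [← Finset.add_sum_erase _ _ (Finset.mem_univ i)]
    simp only [eps, map_mul, map_add, map_sum, map_sub, map_div₀, toZ_apply, T.dt_alg, sub_self,
      zero_div, zero_mul, mul_zero, zero_add, mul_div_assoc]
    have e4 : ∀ j, algebraMap L F (σ j) * ((algebraMap L F (α i) - algebraMap L F (α j)) /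
        (algebraMap L F (c i) - algebraMap L F (c j)) *
        (algebraMap L F (T.δ (c i)) - algebraMap L F (T.δ (c j)))) =
        algebraMap L F (σ j) * (algebraMap L F (α i) - algebraMap L F (α j)) *
        ((algebraMap L F (T.δ (c i)) - algebraMap L F (T.δ (c j))) /
        (algebraMap L F (c i) - algebraMap L F (c j))) := fun j => by ring
    simp only [e4]
    ring
  rw [e1, e2, e3] at h4
  -- the difference
  have h6 : algebraMap L F (b0 - (T.δ γ + A * γ)) +
      lg W c (fun i => -(σ i * (eps T.δ c σ α A i - γ * T.δ (c i)))) =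
      nb W.dw (lg W c σ) (nb T.dt (wt T c σ A) r + V₂ -
        lg W c (fun i => σ i * α i * T.δ (c i))) := by
    have e5 : lg W c (fun i => -(σ i * (eps T.δ c σ α A i - γ * T.δ (c i)))) =
        algebraMap L F γ * lg W c (fun i => σ i * T.δ (c i)) -
          lg W c (fun i => σ i * eps T.δ c σ α A i) := by
      unfold lg
      rw [Finset.mul_sum, ← Finset.sum_sub_distrib]
      refine Finset.sum_congr rfl fun i _ => ?_
      simp only [mul_sub, map_sub, map_neg, map_mul]
      ring
    have e6 : ∀ x y, nb W.dw (lg W c σ) (x + y) = nb W.dw (lg W c σ) x + nb W.dw (lg W c σ) y := by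
      intro x y
      unfold nb
      rw [map_add]
      ring
    have e7 : ∀ x y, nb W.dw (lg W c σ) (x - y) = nb W.dw (lg W c σ) x - nb W.dw (lg W c σ) y := by
      intro x y
      unfold nb
      rw [map_sub]
      ring
    have e8 : ∀ x y, nb T.dt (wt T c σ A) (x + y) =
        nb T.dt (wt T c σ A) x + nb T.dt (wt T c σ A) y := by
      intro x y
      unfold nb
      rw [map_add]
      ring
    have e9 : nb T.dt (wt T c σ A) (algebraMap L F γ) =
        algebraMap L F (T.δ γ + A * γ) - algebraMap L F γ * lg W c (fun i => σ i * T.δ (c i)) := by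
      unfold nb wt
      rw [T.dt_alg, map_add, map_mul]
      ring
    rw [e7, e6, ← h5, e5, map_sub]
    rw [hV, e8, e8, e9] at h3
    linear_combination h3 + h4
  obtain ⟨h7, κ, κ', h8⟩ := uniq1 W hc hσ h1
    ((SS W c).sub_mem ((SS W c).add_mem (nt_mem T c σ A hr) hV₂) (lg_mem W c _)) h6
  refine ⟨(sub_eq_zero.1 h7).symm, -κ, -κ', fun i => ?_⟩
  linear_combination -(h8 i)

/-- The exponents at `s = -3/d`. -/
theorem wRes_s0 {d : ℕ} {m : ι → ℕ} (hd0 : 0 < d) (hm : ∀ i, 0 < m i)
    (h1 : 3 * ∑ i, m i = d) :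
    WRes (s0m d m : ι → L) ∧ (∑ i, (s0m d m i : L)) + 1 = 0 ∧ ∀ i, (s0m d m i : L) ≠ 0 := by
  have hdC : (d : ℂ) ≠ 0 := Nat.cast_ne_zero.mpr hd0.ne'
  have hs0 : s0 d ≠ 0 := by
    unfold s0
    exact neg_ne_zero.mpr (div_ne_zero three_ne_zero hdC)
  have hinj : Function.Injective (algebraMap ℂ L) := (algebraMap ℂ L).injective
  have hsum : (∑ i, (s0m d m i : L)) = algebraMap ℂ L (-1) := by
    unfold s0m
    rw [← map_sum, ← Finset.mul_sum]
    congr 1
    have h2 : (3 : ℂ) * ∑ i, (m i : ℂ) = d := by exact_mod_cast h1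
    unfold s0
    field_simp
    linear_combination -h2
  refine ⟨⟨fun i k hk h => ?_, fun k hk h => ?_⟩, ?_, fun i h => ?_⟩
  · have h3 : s0 d * (m i : ℂ) = (k : ℂ) := by
      apply hinj
      rw [map_natCast]
      exact h
    unfold s0 at h3
    have h4 : ((3 * m i + k * d : ℕ) : ℂ) = 0 := by
      push_cast
      field_simp at h3
      linear_combination -h3
    have h5 : 3 * m i + k * d = 0 := by exact_mod_cast h4
    have h6 : 0 < k * d := Nat.mul_pos hk hd0
    omega
  · rw [hsum] at h
    have h3 : (-1 : ℂ) + (k : ℂ) = 0 := by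
      apply hinj
      rw [map_add, map_natCast, map_zero]
      exact h
    have h4 : (k : ℂ) = 1 := by linear_combination h3
    have h5 : k = 1 := by exact_mod_cast h4
    omega
  · rw [hsum, map_neg, map_one]
    ring
  · have h3 : s0 d * (m i : ℂ) = 0 := by
      apply hinj
      rw [map_zero]
      exact h
    rcases mul_eq_zero.mp h3 with h4 | h4
    · exact hs0 h4
    · exact (hm i).ne' (by exact_mod_cast h4)

end

end MPb07157.TR
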