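import Pool.Agent.Lib.MP_b07157_agR.Defs
import Pool.Agent.Lib.MP_b07157_agL3.RF

/-!
# The class of the vector field and homomorphisms
-/

noncomputable section

namespace MPb07157.TR

open MvPolynomial TL

/-- The class of the vector field is compatible with homomorphisms. -/
theorem Cl1.map {L F L' F' : Type} [Field L] [Field F] [Algebra L F] [Algebra ℂ L] [Algebra ℂ F]
    [IsScalarTower ℂ L F] [Field L'] [Field F'] [Algebra L' F'] [Algebra ℂ L'] [Algebra ℂ F']
    [IsScalarTower ℂ L' F'] {ι : Type} [Fintype ι] {f : MvPolynomial (Fin 3) ℂ} {d K : ℕ}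
    {θ : Fin 3 → MvPolynomial (Fin 3) (Polynomial ℂ)} {W : WF L F} {t : L} {c : ι → L}
    {m : ι → ℕ} {α : ι → L} {γ : L} (h : Cl1 f d K θ W t c m α γ) (W' : WF L' F')
    (φ : L →+* L') (hφ : ∀ z : ℂ, φ (algebraMap ℂ L z) = algebraMap ℂ L' z) :
    Cl1 f d K θ W' (φ t) (fun i => φ (c i)) m (fun i => φ (α i)) (φ γ) := by
  obtain ⟨Ψ, e1, e2, e3⟩ := exists_map W W' φ
  obtain ⟨r, hr, h⟩ := h
  have eC : ∀ z : ℂ, Ψ (algebraMap ℂ F z) = algebraMap ℂ F' z := by
    intro z
    rw [IsScalarTower.algebraMap_apply ℂ L F, e1, hφ, ← IsScalarTower.algebraMap_apply ℂ L' F']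
  have ept : ∀ i, Ψ (pt W.w (algebraMap L F t) i) = pt W'.w (algebraMap L' F' (φ t)) i := by
    intro i
    fin_cases i
    · exact e2
    · exact map_one Ψ
    · exact e1 t
  have ef : Ψ (aeval (pt W.w (algebraMap L F t)) f) =
      aeval (pt W'.w (algebraMap L' F' (φ t))) f := by
    have h1 : Ψ.comp (algebraMap ℂ F) = algebraMap ℂ F' := RingHom.ext eC
    have h2 : (Ψ : F → F') ∘ pt W.w (algebraMap L F t) = pt W'.w (algebraMap L' F' (φ t)) :=
      funext ept
    rw [aeval_def, aeval_def, eval₂_comp_left Ψ, h1, h2]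
  have eEV : ∀ P : MvPolynomial (Fin 3) (Polynomial ℂ),
      (EV (pt W.w (algebraMap L F t)) P).map Ψ = EV (pt W'.w (algebraMap L' F' (φ t))) P := by
    intro P
    have h1 : Ψ.comp (algebraMap ℂ F) = algebraMap ℂ F' := RingHom.ext eC
    have h2 : (Polynomial.mapRingHom Ψ).comp (EV (pt W.w (algebraMap L F t))) =
        EV (pt W'.w (algebraMap L' F' (φ t))) := by
      refine MvPolynomial.ringHom_ext (fun p => ?_) fun i => ?_
      · change (EV (pt W.w (algebraMap L F t)) (C p)).map Ψ = EV _ (C p)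
        unfold EV
        rw [coe_eval₂Hom, coe_eval₂Hom, eval₂_C, eval₂_C, Polynomial.coe_mapRingHom,
          Polynomial.coe_mapRingHom, Polynomial.map_map, h1]
      · change (EV (pt W.w (algebraMap L F t)) (X i)).map Ψ = EV _ (X i)
        unfold EV
        rw [coe_eval₂Hom, coe_eval₂Hom, eval₂_X, eval₂_X, Polynomial.map_C]
        exact congrArg Polynomial.C (ept i)
    exact congrFun (congrArg DFunLike.coe h2) P
  have eB : Ψ ((B1 f K θ W.w (algebraMap L F t)).eval (algebraMap ℂ F (s0 d))) =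
      (B1 f K θ W'.w (algebraMap L' F' (φ t))).eval (algebraMap ℂ F' (s0 d)) := by
    rw [← Polynomial.eval₂_hom, ← Polynomial.eval_map, eC]
    congr 1
    unfold B1
    rw [Polynomial.map_mul, Polynomial.map_C, Polynomial.map_sub, Polynomial.map_mul,
      Polynomial.map_C, eEV, eEV, map_pow, map_inv₀, ef, e1]
  have es : (fun i => φ (s0m (L := L) d m i)) = s0m (L := L') d m := by
    funext i
    exact hφ _
  refine ⟨Ψ r, RFaux.map_SS e1 e2 c hr, ?_⟩
  rw [← eB, h, map_add, map_add, e1, RFaux.map_lg e1 e2]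
  unfold nb
  rw [map_add, map_mul, e3, RFaux.map_lg e1 e2, es]
  congr 3
  funext i
  rw [map_mul]
  congr 1
  exact hφ _

end MPb07157.TR
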