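import Pool.Agent.Lib.MP_b07157_agR.Glob
import Pool.Agent.Lib.MP_b07157_agR.Map1
import Pool.Agent.Lib.MP_b07157_agR.E1
import Pool.Agent.Lib.MP_b07157_agL3.Inv2

/-!
# Two points: `γ` is a rational function
-/

noncomputable section

namespace MPb07157.TR

open MvPolynomial TL

variable {f : MvPolynomial (Fin 3) ℂ} {d : ℕ} {b : Polynomial ℂ} {K : ℕ}
  {θ : Fin 3 → MvPolynomial (Fin 3) (Polynomial ℂ)} {m : Fin 2 → ℕ} {A0 : KK f}
  {W : WF (KK f) (RatFunc (KK f))}

namespace Inv1aux

/-- The class of the vector field, reindexed. -/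
theorem cl1_comp {L F : Type} [Field L] [Field F] [Algebra L F] [Algebra ℂ L] [Algebra ℂ F]
    {W : WF L F} {t : L} {c : Fin 2 → L} {α : Fin 2 → L} {γ : L} (h : Cl1 f d K θ W t c m α γ)
    (e : Fin 2 ≃ Fin 2) :
    Cl1 f d K θ W t (fun i => c (e i)) (fun i => m (e i)) (fun i => α (e i)) γ := by
  obtain ⟨r, hr, h1⟩ := h
  have hlg : ∀ a : Fin 2 → L, lg W (fun i => c (e i)) (fun i => a (e i)) = lg W c a := by
    intro a
    unfold lg
    exact e.sum_comp (fun i => algebraMap L F (a i) * (W.w - algebraMap L F (c i))⁻¹)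
  refine ⟨r, ?_, ?_⟩
  · unfold TL.SS at hr ⊢
    have h2 : Set.range (fun i => (W.w - algebraMap L F (c (e i)))⁻¹) =
        Set.range (fun i => (W.w - algebraMap L F (c i))⁻¹) :=
      e.surjective.range_comp (fun i => (W.w - algebraMap L F (c i))⁻¹)
    rw [h2]
    exact hr
  · rw [h1]
    have h3 := hlg (fun i => s0m d m i * α i)
    have h4 := hlg (s0m d m)
    rw [← h3, ← h4]
    rfl

/-- Uniqueness of the constant term. -/
theorem cl1_uniq {L F : Type} [Field L] [Field F] [Algebra L F] [Algebra ℂ L] [Algebra ℂ F]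
    [CharZero L] {W : WF L F} {t : L} {c : Fin 2 → L} {α β : Fin 2 → L} {γ δ : L}
    (hc : Function.Injective c) (hσ : WRes (s0m d m : Fin 2 → L))
    (hs : (∑ i, (s0m d m i : L)) + 1 = 0) (h : Cl1 f d K θ W t c m α γ)
    (h' : Cl1 f d K θ W t c m β δ) : γ = δ := by
  obtain ⟨r, hr, h1⟩ := h
  obtain ⟨r', hr', h1'⟩ := h'
  rw [h1] at h1'
  obtain ⟨h2, -⟩ := uniq1 W hc hσ hs (a := fun i => s0m d m i * α i - s0m d m i * β i)
    (γ := γ - δ) (R := r' - r) (sub_mem hr' hr) (by
      have e1 : lg W c (fun i => s0m d m i * α i - s0m d m i * β i) =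
          lg W c (fun i => s0m d m i * α i) - lg W c (fun i => s0m d m i * β i) := by
        unfold lg
        rw [← Finset.sum_sub_distrib]
        refine Finset.sum_congr rfl fun i _ => ?_
        rw [map_sub, sub_mul]
      have e2 : nb W.dw (lg W c (s0m d m)) (r' - r) =
          nb W.dw (lg W c (s0m d m)) r' - nb W.dw (lg W c (s0m d m)) r := by
        unfold nb
        rw [map_sub]
        ring
      rw [e1, e2, map_sub]
      linear_combination h1')
  exact sub_eq_zero.1 h2

end Inv1aux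

open Inv1aux

theorem Glob1.inv1 {c : Fin 2 → KK f} {α : Fin 2 → KK f} {γ : KK f}
    (G : Glob1 f d b K θ c m A0 α γ W) :
    ∃ q : RatFunc ℂ, γ = algebraMap (RatFunc ℂ) (KK f) q := by
  refine Inv2aux.rational fun σ => ?_
  have hσt : (σ : KK f →+* KK f) (tK f) = tK f := σ.commutes _
  have hcl := G.cl.map W (σ : KK f →+* KK f) (fun z => by
    rw [algC]
    exact σ.commutes _)
  rw [hσt] at hcl
  obtain ⟨hσ, hs, -⟩ := wRes_s0 (L := KK f) G.hd G.hF.pos G.h1
  rcases gal_perm G.hF σ with ⟨h0, h1⟩ | ⟨h0, h1, hm⟩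
  · have hc : (fun i => (σ : KK f →+* KK f) (c i)) = c := by
      funext i
      fin_cases i
      · exact h0
      · exact h1
    rw [hc] at hcl
    exact (cl1_uniq G.hF.inj hσ hs G.cl hcl).symm
  · have h2 := cl1_comp hcl (Equiv.swap 0 1)
    have hc : (fun i => (fun i => (σ : KK f →+* KK f) (c i)) ((Equiv.swap 0 1 : Fin 2 ≃ Fin 2) i)) =
        c := by
      funext i
      fin_cases i
      · exact h1
      · exact h0
    have hmm : (fun i => m ((Equiv.swap 0 1 : Fin 2 ≃ Fin 2) i)) = m := by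
      funext i
      fin_cases i
      · exact hm.symm
      · exact hm
    rw [hc, hmm] at h2
    exact (cl1_uniq G.hF.inj hσ hs G.cl h2).symm

end MPb07157.TR
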