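import Pool.Agent.Lib.MP_b07157_agR.Gl
import Pool.Agent.Lib.MP_b07157_agR.Inv1

/-!
# Lines which meet the curve in at most two points outside a point of multiplicity `2d/3`
-/

noncomputable section

namespace MPb07157.TR

open MvPolynomial TL

variable {f : MvPolynomial (Fin 3) ℂ} {d : ℕ}

/-- If `γ` does not vanish, then the leading coefficient is a unit. -/
theorem order_of_unit {A0 γ : L0} (hA0 : A0 ≠ 0) {s b : ℂ} (hs : s ≠ 0) (hγ : γ.orderTop = 0)
    (h : dtau γ + HahnSeries.C s * (dtau A0 / A0) * γ = HahnSeries.C b) : A0.order = 0 := by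
  have hγ0 : γ ≠ 0 := by
    rintro rfl
    rw [HahnSeries.orderTop_zero] at hγ
    exact absurd hγ (by simp)
  have ho : γ.order = 0 := by
    have h1 := HahnSeries.order_eq_orderTop_of_ne_zero hγ0
    rw [hγ] at h1
    exact_mod_cast h1
  have hlo : TLL.Lo 0 γ := by
    have h1 := TLL.lo_order γ
    rwa [ho] at h1
  have hc : γ.coeff 0 ≠ 0 := by
    have h1 := TLL.coeff_ne (TLL.ord_top hγ0)
    rwa [ho] at h1
  obtain ⟨hπ, hπ0⟩ := TL.LLaux.logd hA0 s
  have h1 := hπ.coeff_mul hlo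
  rw [hπ0] at h1
  have h2 := congrArg (fun x : L0 => x.coeff (-1 + 0)) h
  simp only [HahnSeries.coeff_add] at h2
  have h3 : (dtau γ).coeff (-1 + 0) = 0 := by
    rw [coeff_dtau]
    norm_num
  have h4 : (HahnSeries.C b : L0).coeff (-1 + 0) = 0 := by
    change (HahnSeries.single 0 b : L0).coeff (-1 + 0) = 0
    rw [HahnSeries.coeff_single_of_ne (by norm_num)]
  rw [h3, h4, zero_add, h1] at h2
  have h5 := (mul_eq_zero.1 ((mul_eq_zero.1 h2).resolve_right hc)).resolve_left hs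
  exact_mod_cast h5

/-- All lines through `p` but two are not singular. -/
theorem exists_lines1 (hf : f.IsHomogeneous d) (h0 : f ≠ 0) (hd : 0 < d)
    (h1 : 3 * f.degreeOf 0 = d)
    (hr : ∀ a b, (Uf f a b).roots.toFinset.card ≤ 2) (hN : ∃ t, Ns f 1 t)
    {B : Polynomial ℂ} (hB : IsBernsteinSato f B) (hb : B.eval (s0 d) ≠ 0) :
    ∃ r₁ r₂ : ℂ, r₁ ≠ r₂ ∧ ∀ t0, t0 ≠ r₁ → t0 ≠ r₂ → Ns f 1 t0 := by
  obtain ⟨K, θ, n, c, m, A0, α, γ, W, G, hC1, -⟩ := exists_glob1 hf h0 hd h1 hB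
  obtain rfl := n_eq_two G.hF G.sum hr hN
  have h01 : (0 : Fin 2) ≠ 1 := by decide
  obtain ⟨q, hq⟩ := G.inv1
  obtain ⟨Q, hQ2, hQ⟩ := poly_of_regular (K' := KK f) q (fun t0 φ hφ => by
    rw [← hq]
    exact (G.regular hφ h01).1) (fun φ hφ => by
    rw [← hq]
    exact G.inf0 hφ h01) (exists_pl f) (exists_plInf hf)
  have hs0 := LTaux.s0_ne hd
  have hQ0 : Q ≠ 0 := by
    rintro rfl
    rw [hQ, map_zero, map_zero] at hq
    obtain ⟨φ0, hφ0⟩ := exists_pl f 0
    have h2 := (G.eq hφ0).1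
    rw [hq, map_zero, map_zero, mul_zero, add_zero] at h2
    exact hb ((map_eq_zero_iff _ HahnSeries.C_injective).1 h2.symm)
  obtain ⟨r₁, r₂, hr12, hr'⟩ := exists_two Q.roots.toFinset
    ((Multiset.toFinset_card_le _).trans ((Polynomial.card_roots' Q).trans hQ2))
  refine ⟨r₁, r₂, hr12, fun t0 ht1 ht2 => ?_⟩
  have hQt : Q.eval t0 ≠ 0 := by
    intro h3
    rcases hr' t0 (by
      rw [Multiset.mem_toFinset, Polynomial.mem_roots hQ0]
      exact h3) with h4 | h4
    · exact ht1 h4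
    · exact ht2 h4
  obtain ⟨φ, hφ⟩ := exists_pl f t0
  have hF := G.fac hφ
  have hx : (φ γ).orderTop = 0 := by
    rw [hq, hQ]
    have h3 := Gaux.hom_poly (φ.comp (algebraMap (RatFunc ℂ) (KK f))) (fun z => hφ.1 z) Q
    rw [RingHom.comp_apply, RingHom.comp_apply, hφ.2] at h3
    rw [h3]
    exact Gaux.orderTop_eval2 hQt Gaux.tau_pos
  have hA := order_of_unit hF.ne hs0 hx (G.eq hφ).1
  have h6 := natDegree_of_order hF G.sum hA
  refine ⟨h6, le_antisymm (hr 1 t0) ?_⟩
  have hcard : (Uf f 1 t0).roots.toFinset.card ≠ 1 := by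
    intro h2
    have h3 := (G.regularL hC1 hφ (Or.inr ⟨h6, h2⟩) h01).1
    rw [hx] at h3
    have h9 : (1 : ℚ) ≤ 0 := by exact_mod_cast h3
    linarith
  have hpos : 0 < (Uf f 1 t0).roots.toFinset.card := by
    rw [Finset.card_pos, Multiset.toFinset_nonempty, Ne, ← Multiset.card_eq_zero,
      (IsAlgClosed.splits (Uf f 1 t0)).natDegree_eq_card_roots.symm, h6]
    omega
  omega

/-- **Lines with at most two points** through a point of multiplicity `2d/3`. -/
theorem shr_of_two1 (hf : f.IsHomogeneous d) (h0 : f ≠ 0) (hd : 0 < d)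
    (h1 : 3 * f.degreeOf 0 = d)
    (hr : ∀ a b, (Uf f a b).roots.toFinset.card ≤ 2) {B : Polynomial ℂ}
    (hB : IsBernsteinSato f B) (hb : B.eval (s0 d) ≠ 0) :
    Mon f ∨ ∃ p q r s : ℂ, p * s - q * r ≠ 0 ∧ Shr (lin p q r s f) := by
  by_cases hN : ∃ t, Ns f 1 t
  swap
  · left
    obtain ⟨n, c, m, A0, hF', hm⟩ := exists_fac hf h0
    have hF : Fac f (tK f) c m A0 := hF'
    refine mon_of_le hF hm ?_
    by_contra h3
    obtain ⟨t0, -, h4, h5⟩ := exists_ns hF hm ∅
    exact hN ⟨t0, h4, le_antisymm (hr 1 t0) (by omega)⟩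
  right
  obtain ⟨tinf, htinf⟩ := hN
  -- a line which is not singular is moved to infinity
  have hΔ : (0 : ℂ) * tinf - 1 * 1 ≠ 0 := by
    rw [zero_mul, one_mul, zero_sub]
    exact neg_ne_zero.2 one_ne_zero
  set g := lin 0 1 1 tinf f with hg
  have hgh : g.IsHomogeneous d := lin_hom hf
  obtain ⟨e, he⟩ := exists_linEquiv hΔ
  have hg0 : g ≠ 0 := by
    rw [hg, ← he]
    exact (map_ne_zero_iff e e.injective).2 h0
  have hgd : g.degreeOf 0 = f.degreeOf 0 := lin_degreeOf hΔ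
  have hrg : ∀ a b, (Uf g a b).roots.toFinset.card ≤ 2 := by
    intro a b
    rw [hg, Uf_lin]
    exact hr _ _
  have hginf : Ns g 0 1 := by
    rw [hg, ns_lin hΔ]
    simpa using htinf
  have hgN : ∃ t, Ns g 1 t := by
    obtain ⟨n, c, m, A0, hF', hm⟩ := exists_fac hf h0
    have hF : Fac f (tK f) c m A0 := hF'
    obtain ⟨t0, h3, h4, h5⟩ := exists_ns hF hm {tinf}
    rw [n_eq_two hF hm hr ⟨tinf, htinf⟩] at h5
    have h6 : t0 - tinf ≠ 0 := sub_ne_zero.2 fun h => h3 (Finset.mem_singleton.2 h)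
    refine ⟨(t0 - tinf)⁻¹, ?_⟩
    rw [hg, ns_lin hΔ, zero_mul, one_mul, zero_add, one_mul, ns_scale hf (inv_ne_zero h6)]
    have h7 : (1 + tinf * (t0 - tinf)⁻¹) / (t0 - tinf)⁻¹ = t0 := by
      field_simp
      ring
    rw [h7]
    exact ⟨h4, le_antisymm (hr 1 t0) h5⟩
  obtain ⟨r₁, r₂, hr12, hlines⟩ := exists_lines1 hgh hg0 hd (by rw [hgd]; exact h1) hrg hgN
    (lin_bernstein hΔ hB) hb
  have hΔ' : (1 : ℂ) * r₂ - 1 * r₁ ≠ 0 := by
    rw [one_mul, one_mul]
    exact sub_ne_zero.2 hr12.symm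
  have hS : Shr (lin 1 1 r₁ r₂ g) := by
    obtain ⟨e', he'⟩ := exists_linEquiv hΔ'
    refine shr_of_ns (lin_hom hgh) ?_ ?_ ?_
    · rw [← he']
      exact (map_ne_zero_iff e' e'.injective).2 hg0
    · intro a b
      rw [Uf_lin]
      exact hrg _ _
    · intro t ht
      rw [ns_lin hΔ', one_mul, one_mul, mul_one]
      by_cases h3 : (1 : ℂ) + t = 0
      · rw [h3]
        have h4 : r₁ + r₂ * t ≠ 0 := by
          have h5 : t = -1 := by linear_combination h3
          rw [h5]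
          intro h6
          exact hr12 (by linear_combination h6)
        exact (ns_scale0 hgh h4).2 hginf
      · rw [ns_scale hgh h3]
        refine hlines _ ?_ ?_
        · intro h4
          rw [div_eq_iff h3] at h4
          have h5 : (r₂ - r₁) * t = 0 := by linear_combination h4
          rcases mul_eq_zero.1 h5 with h6 | h6
          · exact hr12 (sub_eq_zero.1 h6).symm
          · exact ht h6
        · intro h4
          rw [div_eq_iff h3] at h4
          exact hr12 (by linear_combination h4)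
  rw [hg, LinAux.lin_lin] at hS
  refine ⟨_, _, _, _, ?_, hS⟩
  intro h3
  exact hr12 (by linear_combination h3)

end MPb07157.TR
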