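import Pool.Agent.Lib.MP_b07157_agR.ARL

/-!
# Derivations of rings of power series, the chain rule
-/

noncomputable section

namespace MPb07157

namespace ARL

variable {R τ : Type} [CommRing R]

/-- The power series with given coefficients. -/
def mkv (f : (τ →₀ ℕ) → R) : MvPowerSeries τ R := f

theorem coeff_mkv (f : (τ →₀ ℕ) → R) (v : τ →₀ ℕ) : MvPowerSeries.coeff v (mkv f) = f v := rfl

theorem sum_swap' [DecidableEq τ] (v : τ →₀ ℕ) (f : (τ →₀ ℕ) × (τ →₀ ℕ) → R) :
    ∑ p ∈ Finset.HasAntidiagonal.antidiagonal v, f p.swap = ∑ p ∈ Finset.HasAntidiagonal.antidiagonal v, f p := by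
  refine Finset.sum_nbij' Prod.swap Prod.swap ?_ ?_ ?_ ?_ ?_
  · intro p hp
    rw [Finset.HasAntidiagonal.mem_antidiagonal] at hp ⊢
    rw [← hp, Prod.fst_swap, Prod.snd_swap, add_comm]
  · intro p hp
    rw [Finset.HasAntidiagonal.mem_antidiagonal] at hp ⊢
    rw [← hp, Prod.fst_swap, Prod.snd_swap, add_comm]
  · intro p _; exact Prod.swap_swap p
  · intro p _; exact Prod.swap_swap p
  · intro p _; rfl

variable [Algebra ℂ R]

/-- A derivation of the coefficients. -/
def cw (δ : Derivation ℂ R R) : Derivation ℂ (MvPowerSeries τ R) (MvPowerSeries τ R) :=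
  Derivation.mk'
    { toFun := fun h => mkv fun v => δ (MvPowerSeries.coeff v h)
      map_add' := fun a b => by
        ext v
        simp only [coeff_mkv, map_add]
      map_smul' := fun c a => by
        ext v
        change δ (c • MvPowerSeries.coeff v a) = c • δ (MvPowerSeries.coeff v a)
        exact δ.map_smul c _ }
    (by
      classical
      intro a b
      ext v
      simp only [LinearMap.coe_mk, AddHom.coe_mk, coeff_mkv, smul_eq_mul, map_add,
        MvPowerSeries.coeff_mul, map_sum, Derivation.leibniz, Finset.sum_add_distrib]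
      congr 1
      rw [← sum_swap' v]
      rfl)

theorem coeff_cw (δ : Derivation ℂ R R) (h : MvPowerSeries τ R) (v : τ →₀ ℕ) :
    MvPowerSeries.coeff v (cw δ h) = δ (MvPowerSeries.coeff v h) := rfl

/-- The logarithmic derivation `y_j d/dy_j`. -/
def lg (j : τ) : Derivation ℂ (MvPowerSeries τ R) (MvPowerSeries τ R) :=
  Derivation.mk'
    { toFun := fun h => mkv fun v => (v j : R) * MvPowerSeries.coeff v h
      map_add' := fun a b => by
        ext v
        simp only [coeff_mkv, map_add, mul_add]
      map_smul' := fun c a => by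
        ext v
        change (v j : R) * (c • MvPowerSeries.coeff v a) = c • ((v j : R) *
          MvPowerSeries.coeff v a)
        rw [mul_smul_comm] }
    (by
      classical
      intro a b
      ext v
      simp only [LinearMap.coe_mk, AddHom.coe_mk, coeff_mkv, smul_eq_mul, map_add,
        MvPowerSeries.coeff_mul]
      rw [Finset.mul_sum, ← sum_swap' v
        (fun p => MvPowerSeries.coeff p.1 b * ((p.2 j : R) * MvPowerSeries.coeff p.2 a)),
        ← Finset.sum_add_distrib]
      refine Finset.sum_congr rfl fun p hp => ?_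
      have h1 : p.1 + p.2 = v := Finset.HasAntidiagonal.mem_antidiagonal.1 hp
      rw [← h1, Finsupp.add_apply, Prod.fst_swap, Prod.snd_swap]
      push_cast
      ring)

theorem coeff_lg (j : τ) (h : MvPowerSeries τ R) (v : τ →₀ ℕ) :
    MvPowerSeries.coeff v (lg j h) = (v j : R) * MvPowerSeries.coeff v h := rfl

theorem lg_lg (i j : τ) (h : MvPowerSeries τ R) : lg i (lg j h) = lg j (lg i h) := by
  ext v
  rw [coeff_lg, coeff_lg, coeff_lg, coeff_lg]
  ring

theorem lg_cw (j : τ) (δ : Derivation ℂ R R) (h : MvPowerSeries τ R) :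
    lg j (cw δ h) = cw δ (lg j h) := by
  ext v
  rw [coeff_lg, coeff_cw, coeff_cw, coeff_lg, Derivation.leibniz, Derivation.map_natCast,
    smul_zero, add_zero, smul_eq_mul]

theorem cw_cw {δ δ' : Derivation ℂ R R} (hc : ∀ a, δ (δ' a) = δ' (δ a)) (h : MvPowerSeries τ R) :
    cw δ (cw δ' h) = cw δ' (cw δ h) := by
  ext v
  rw [coeff_cw, coeff_cw, coeff_cw, coeff_cw, hc]

theorem lg_monomial (j : τ) (v : τ →₀ ℕ) :
    lg j (MvPowerSeries.monomial v (1 : R)) = (v j : MvPowerSeries τ R) *
      MvPowerSeries.monomial v 1 := by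
  classical
  ext u
  rw [coeff_lg, ← nsmul_eq_mul (v j), map_nsmul, MvPowerSeries.coeff_monomial]
  split_ifs with h
  · rw [h, nsmul_eq_mul]
  · rw [mul_zero, smul_zero]

theorem cw_monomial (δ : Derivation ℂ R R) (v : τ →₀ ℕ) :
    cw δ (MvPowerSeries.monomial v (1 : R)) = 0 := by
  classical
  ext u
  rw [coeff_cw, MvPowerSeries.coeff_monomial, map_zero]
  split_ifs with h
  · exact Derivation.map_one_eq_zero δ
  · exact map_zero δ

theorem cw_C (δ : Derivation ℂ R R) (a : R) :
    cw δ (MvPowerSeries.C a : MvPowerSeries τ R) = MvPowerSeries.C (δ a) := by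
  classical
  ext u
  rw [coeff_cw, MvPowerSeries.coeff_C, MvPowerSeries.coeff_C]
  split_ifs with h
  · rfl
  · exact map_zero δ

theorem lg_C (j : τ) (a : R) : lg j (MvPowerSeries.C a : MvPowerSeries τ R) = 0 := by
  classical
  ext u
  rw [coeff_lg, MvPowerSeries.coeff_C, map_zero]
  split_ifs with h
  · rw [h, Finsupp.zero_apply, Nat.cast_zero, zero_mul]
  · rw [mul_zero]

/-! ### The chain rule -/

/-- **The chain rule** for arbitrary derivations of rings of power series. -/
theorem chain {n : ℕ} {θ : MvPowerSeries (Fin n) ℂ →ₐ[ℂ] MvPowerSeries τ R}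
    (hθ : ∀ i, MvPowerSeries.constantCoeff (θ (MvPowerSeries.X i)) = 0)
    (D : Derivation ℂ (MvPowerSeries τ R) (MvPowerSeries τ R)) (h : MvPowerSeries (Fin n) ℂ) :
    D (θ h) = ∑ i, θ (MvPowerSeries.pderiv ℂ i h) * D (θ (MvPowerSeries.X i)) := by
  set Δ : MvPowerSeries (Fin n) ℂ → MvPowerSeries τ R := fun h =>
    D (θ h) - ∑ i, θ (MvPowerSeries.pderiv ℂ i h) * D (θ (MvPowerSeries.X i)) with hΔ
  have hadd : ∀ a b, Δ (a + b) = Δ a + Δ b := by
    intro a b
    simp only [hΔ, map_add, add_mul, Finset.sum_add_distrib]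
    ring
  have hmul : ∀ a b, Δ (a * b) = θ a * Δ b + θ b * Δ a := by
    intro a b
    simp only [hΔ, map_mul, Derivation.leibniz, smul_eq_mul, map_add]
    rw [mul_sub, mul_sub, Finset.mul_sum, Finset.mul_sum]
    have e : ∑ i, (θ a * θ (MvPowerSeries.pderiv ℂ i b) + θ b * θ (MvPowerSeries.pderiv ℂ i a)) *
        D (θ (MvPowerSeries.X i)) = ∑ i, θ a * (θ (MvPowerSeries.pderiv ℂ i b) *
          D (θ (MvPowerSeries.X i))) + ∑ i, θ b * (θ (MvPowerSeries.pderiv ℂ i a) *
          D (θ (MvPowerSeries.X i))) := by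
      rw [← Finset.sum_add_distrib]
      exact Finset.sum_congr rfl fun i _ => by ring
    rw [e]
    ring
  have hX : ∀ i, Δ (MvPowerSeries.X i) = 0 := by
    intro i
    simp only [hΔ]
    rw [Finset.sum_eq_single i]
    · rw [MvPowerSeries.pderiv_X_self, map_one, one_mul, sub_self]
    · intro j _ hj
      rw [MvPowerSeries.pderiv_X_of_ne hj.symm, map_zero, zero_mul]
    · intro hi
      exact absurd (Finset.mem_univ i) hi
  have hC : ∀ c : ℂ, Δ (MvPowerSeries.C c) = 0 := by
    intro c
    simp only [hΔ]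
    have h1 : θ (MvPowerSeries.C c) = algebraMap ℂ _ c := θ.commutes c
    rw [h1, Derivation.map_algebraMap, Finset.sum_eq_zero, sub_self]
    intro i _
    rw [MvPowerSeries.pderiv_C, map_zero, zero_mul]
  have hsum : ∀ (s : Finset (Fin n)) (a : Fin n → MvPowerSeries (Fin n) ℂ),
      Δ (∑ i ∈ s, a i) = ∑ i ∈ s, Δ (a i) := by
    intro s a
    classical
    induction s using Finset.induction_on with
    | empty =>
      have h0 := hadd 0 0
      rw [add_zero] at h0
      rw [Finset.sum_empty, Finset.sum_empty]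
      exact left_eq_add.1 h0
    | insert i s hi ih => rw [Finset.sum_insert hi, Finset.sum_insert hi, hadd, ih]
  have hord : ∀ (N : ℕ) (h : MvPowerSeries (Fin n) ℂ), (N : ℕ∞) ≤ (Δ h).order := by
    intro N
    induction N with
    | zero => intro h; exact bot_le
    | succ N ih =>
      intro h
      have h1 : LowZ (0 + 1) (h - MvPowerSeries.C (MvPowerSeries.constantCoeff h)) := by
        intro v hv
        have hv0 : v = 0 := by
          ext i
          have := Finset.single_le_sum (f := fun i => v i) (fun _ _ => Nat.zero_le _)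
            (Finset.mem_univ i)
          rw [Finsupp.zero_apply]
          omega
        rw [hv0, map_sub, MvPowerSeries.coeff_zero_C]
        exact sub_self _
      obtain ⟨g, -, hg⟩ := h1.decomp
      have h2 : h = MvPowerSeries.C (MvPowerSeries.constantCoeff h) +
          ∑ i, MvPowerSeries.X i * g i := by
        rw [← hg]; ring
      have h3 : Δ h = ∑ i, θ (MvPowerSeries.X i) * Δ (g i) := by
        conv_lhs => rw [h2]
        rw [hadd, hC, zero_add, hsum]
        refine Finset.sum_congr rfl fun i _ => ?_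
        rw [hmul, hX, mul_zero, add_zero]
      rw [h3]
      refine MvPowerSeries.le_order fun v hv => ?_
      rw [map_sum]
      refine Finset.sum_eq_zero fun i _ => ?_
      refine MvPowerSeries.coeff_of_lt_order (lt_of_lt_of_le hv ?_)
      refine le_trans ?_ MvPowerSeries.le_order_mul
      rw [Nat.cast_succ, add_comm]
      exact add_le_add (MvPowerSeries.one_le_order_iff_constCoeff_eq_zero.2 (hθ i)) (ih _)
  have hfin : Δ h = 0 := by
    rw [← MvPowerSeries.order_eq_top_iff, ENat.eq_top_iff_forall_ge]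
    exact fun N => hord N h
  exact sub_eq_zero.1 hfin

end ARL

end MPb07157
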