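import Pool.Agent.Lib.MP_b07157_agR.Inst
import Mathlib.RingTheory.PowerSeries.Binomial
import Mathlib.RingTheory.PowerSeries.Substitution

/-!
# The residue lemma at a corner
-/

noncomputable section

namespace MPb07157

namespace ARL

variable {R τ : Type} [CommRing R] [Algebra ℂ R]

/-- Roots of power series with constant coefficient one. -/
theorem exists_root {N : ℕ} (hN : 0 < N) {U : MvPowerSeries τ R}
    (hU : MvPowerSeries.constantCoeff U = 1) :
    ∃ H : MvPowerSeries τ R, MvPowerSeries.constantCoeff H = 1 ∧ H ^ N = U := by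
  have hG0 : MvPowerSeries.constantCoeff (U - 1) = 0 := by rw [map_sub, hU, map_one, sub_self]
  have hs : PowerSeries.HasSubst (U - 1) := PowerSeries.HasSubst.of_constantCoeff_zero hG0
  set B : PowerSeries ℂ := PowerSeries.binomialSeries ℂ ((1 : ℚ) / N) with hB
  have hpow : ∀ m : ℕ, B ^ m = PowerSeries.binomialSeries ℂ ((m : ℚ) * (1 / N)) := by
    intro m
    induction m with
    | zero => simp
    | succ m ih =>
      rw [pow_succ, ih, hB, ← PowerSeries.binomialSeries_add]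
      congr 1
      push_cast
      ring
  have hBN : B ^ N = 1 + PowerSeries.X := by
    have hN0 : (N : ℚ) ≠ 0 := by exact_mod_cast hN.ne'
    rw [hpow N, mul_one_div_cancel hN0]
    have := PowerSeries.binomialSeries_nat (R := ℚ) (A := ℂ) 1
    rw [pow_one, Nat.cast_one] at this
    exact this
  have h1' : PowerSeries.subst (U - 1) (1 : PowerSeries ℂ) = (1 : MvPowerSeries τ R) := by
    rw [← PowerSeries.coe_substAlgHom hs, map_one]
  refine ⟨PowerSeries.subst (U - 1) B, ?_, ?_⟩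
  · have h1 : B = 1 + PowerSeries.X * PowerSeries.mk fun p => PowerSeries.coeff (p + 1) B := by
      conv_lhs => rw [PowerSeries.eq_X_mul_shift_add_const B]
      rw [add_comm, ← PowerSeries.coeff_zero_eq_constantCoeff_apply, hB,
        PowerSeries.binomialSeries_coeff]
      simp
    rw [h1, PowerSeries.subst_add hs, PowerSeries.subst_mul hs, PowerSeries.subst_X hs,
      h1', map_add, map_mul, hG0, zero_mul, add_zero, map_one]
  · rw [← PowerSeries.subst_pow hs, hBN, PowerSeries.subst_add hs, PowerSeries.subst_X hs, h1',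
      add_sub_cancel]

/-- The logarithmic derivative of `U^(-ν/N)`. -/
theorem exists_power {ν N : ℕ} (hN : 0 < N) {U : MvPowerSeries τ R}
    (hU : MvPowerSeries.constantCoeff U = 1) {s : ℂ} (hs : s = -((ν : ℂ) / N)) :
    ∃ W : MvPowerSeries τ R, MvPowerSeries.constantCoeff W = 1 ∧
      ∀ D : Derivation ℂ (MvPowerSeries τ R) (MvPowerSeries τ R),
        U * D W = algebraMap ℂ (MvPowerSeries τ R) s * D U * W := by
  obtain ⟨H, hH1, hHN⟩ := exists_root hN hU
  have hu : IsUnit H := by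
    rw [MvPowerSeries.isUnit_iff_constantCoeff, hH1]
    exact isUnit_one
  obtain ⟨H', rfl⟩ := hu
  have hinv : MvPowerSeries.constantCoeff ((H'⁻¹ : (MvPowerSeries τ R)ˣ) : MvPowerSeries τ R) = 1 := by
    have h1 : ((H'⁻¹ : (MvPowerSeries τ R)ˣ) : MvPowerSeries τ R) * (H' : MvPowerSeries τ R) = 1 :=
      Units.inv_mul _
    have h2 := congrArg MvPowerSeries.constantCoeff h1
    rwa [map_mul, hH1, mul_one, map_one] at h2
  refine ⟨((H'⁻¹ : (MvPowerSeries τ R)ˣ) : MvPowerSeries τ R) ^ ν, ?_, fun D => ?_⟩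
  · rw [map_pow, hinv, one_pow]
  · have h1 := deriv_inv_pow D H' ν
    have h2 : (N : MvPowerSeries τ R) * (H' : MvPowerSeries τ R) ^ N * D (H' : MvPowerSeries τ R) =
        (H' : MvPowerSeries τ R) * D U := by
      rw [← hHN, Derivation.leibniz_pow, nsmul_eq_mul, smul_eq_mul]
      obtain ⟨N', rfl⟩ : ∃ N', N = N' + 1 := ⟨N - 1, by omega⟩
      rw [Nat.add_sub_cancel]
      ring
    rw [hHN] at h2
    have hsN : algebraMap ℂ (MvPowerSeries τ R) s * (N : MvPowerSeries τ R) =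
        -(ν : MvPowerSeries τ R) := by
      rw [← map_natCast (algebraMap ℂ (MvPowerSeries τ R)) N, ← map_mul, hs,
        ← map_natCast (algebraMap ℂ (MvPowerSeries τ R)) ν, ← map_neg]
      congr 1
      have hNC : (N : ℂ) ≠ 0 := by exact_mod_cast hN.ne'
      field_simp
    have hNinv : algebraMap ℂ (MvPowerSeries τ R) ((N : ℂ)⁻¹) * (N : MvPowerSeries τ R) = 1 := by
      rw [← map_natCast (algebraMap ℂ (MvPowerSeries τ R)) N, ← map_mul, inv_mul_cancel₀, map_one]
      exact_mod_cast hN.ne'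
    set V := ((H'⁻¹ : (MvPowerSeries τ R)ˣ) : MvPowerSeries τ R) with hV
    have hVH : V * (H' : MvPowerSeries τ R) = 1 := Units.inv_mul _
    -- `N H U DW = - ν H DU W`
    have h3 : (N : MvPowerSeries τ R) * (H' : MvPowerSeries τ R) * (U * D (V ^ ν)) =
        (N : MvPowerSeries τ R) * (H' : MvPowerSeries τ R) *
          (algebraMap ℂ (MvPowerSeries τ R) s * D U * V ^ ν) := by
      linear_combination ((N : MvPowerSeries τ R) * U) * h1 -
        ((ν : MvPowerSeries τ R) * V ^ ν) * h2 -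
        ((H' : MvPowerSeries τ R) * D U * V ^ ν) * hsN
    have h4 : ∀ x : MvPowerSeries τ R, algebraMap ℂ (MvPowerSeries τ R) ((N : ℂ)⁻¹) * V *
        ((N : MvPowerSeries τ R) * (H' : MvPowerSeries τ R) * x) = x := by
      intro x
      linear_combination (V * (H' : MvPowerSeries τ R) * x) * hNinv + x * hVH
    rw [← h4 (U * D (V ^ ν)), h3, h4]

theorem deriv_unit_inv {A : Type} [CommRing A] [Algebra ℂ A] (D : Derivation ℂ A A) (U : Aˣ) :
    D ((U⁻¹ : Aˣ) : A) = -(((U⁻¹ : Aˣ) : A) ^ 2 * D (U : A)) := by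
  have h2 : ((U⁻¹ : Aˣ) : A) * (U : A) = 1 := Units.inv_mul U
  have h3 := Derivation.leibniz_of_mul_eq_one D h2
  rw [h3, neg_smul, smul_eq_mul]

/-- The weight `(F₁/φ)^s`. -/
theorem exists_weight {β : Type} {ν D : ℕ} (hD : 0 < D) {F₁ : MvPowerSeries τ R} {φ : Rˣ}
    (hφ : MvPowerSeries.constantCoeff F₁ = φ) {s : ℂ} (hs : s = -((ν : ℂ) / D))
    (δ : β → Derivation ℂ R R) :
    ∃ H : MvPowerSeries τ R, MvPowerSeries.constantCoeff H = 1 ∧
      (∀ j, F₁ * lg j H = algebraMap ℂ (MvPowerSeries τ R) s * lg j F₁ * H) ∧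
      ∀ b, F₁ * cw (δ b) H = algebraMap ℂ (MvPowerSeries τ R) s *
        (cw (δ b) F₁ - MvPowerSeries.C (((φ⁻¹ : Rˣ) : R) * δ b φ) * F₁) * H := by
  have hφφ : ((φ⁻¹ : Rˣ) : R) * (φ : R) = 1 := Units.inv_mul φ
  have hφC : (MvPowerSeries.C ((φ⁻¹ : Rˣ) : R) : MvPowerSeries τ R) *
      MvPowerSeries.C (φ : R) = 1 := by rw [← map_mul, hφφ, map_one]
  obtain ⟨W, hW1, hW⟩ := exists_power hD (U := MvPowerSeries.C ((φ⁻¹ : Rˣ) : R) * F₁)
    (by rw [map_mul, MvPowerSeries.constantCoeff_C, hφ, hφφ]) hs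
  refine ⟨W, hW1, fun j => ?_, fun b => ?_⟩
  · have h1 := hW (lg j)
    rw [Derivation.leibniz, lg_C, smul_zero, add_zero, smul_eq_mul] at h1
    linear_combination (MvPowerSeries.C (φ : R)) * h1 -
      (F₁ * lg j W - algebraMap ℂ (MvPowerSeries τ R) s * lg j F₁ * W) * hφC
  · have h1 := hW (cw (δ b))
    rw [Derivation.leibniz, cw_C, smul_eq_mul, smul_eq_mul, deriv_unit_inv, map_neg, map_mul,
      map_pow] at h1
    rw [map_mul]
    linear_combination (MvPowerSeries.C (φ : R)) * h1 -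
      (F₁ * cw (δ b) W - algebraMap ℂ (MvPowerSeries τ R) s * cw (δ b) F₁ * W +
        algebraMap ℂ (MvPowerSeries τ R) s * F₁ * MvPowerSeries.C ((φ⁻¹ : Rˣ) : R) *
          MvPowerSeries.C (δ b φ) * W) * hφC

variable {β : Type} [Fintype β]

/-- **The residue lemma at a corner.** If the monomials of `θ(f) = y^N F₁`, of the Jacobian
`y^E J'` and of the twist `x^ℓ` cancel (`E + s N + ℓ = 0`), then the leading coefficient of the
Jacobian is exact in `R`. -/
theorem residue_corner [Finite τ] {n : ℕ} (e : Fin n → τ ⊕ β) {δ : β → Derivation ℂ R R}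
    (hδ : ∀ b b' a, δ b (δ b' a) = δ b' (δ b a))
    {θ : MvPowerSeries (Fin n) ℂ →ₐ[ℂ] MvPowerSeries τ R}
    (hθ : ∀ i, MvPowerSeries.constantCoeff (θ (MvPowerSeries.X i)) = 0)
    {f : MvPowerSeries (Fin n) ℂ} {N : τ →₀ ℕ} {F₁ : MvPowerSeries τ R}
    (hF : θ f = MvPowerSeries.monomial N 1 * F₁) {φ : Rˣ}
    (hφ : MvPowerSeries.constantCoeff F₁ = φ) {ν D : ℕ} (hD : 0 < D) {s : ℂ}
    (hs : s = -((ν : ℂ) / D))
    {Mon : Finset (Fin n)} {M : Fin n → τ →₀ ℕ}
    (hM : ∀ i ∈ Mon, θ (MvPowerSeries.X i) = MvPowerSeries.monomial (M i) 1)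
    {l : Fin n → ℂ} {E : τ →₀ ℕ} {J' : MvPowerSeries τ R}
    (hJ : (jm (fun a => rowD δ (e a)) fun i => θ (MvPowerSeries.X i)).det =
      MvPowerSeries.monomial E 1 * J')
    (hE : ∀ j, (E j : ℂ) + s * N j + ∑ i ∈ Mon, l i * M i j = 0)
    {j₀ : τ} (hj₀ : 0 < N j₀) (hMj : ∀ i ∈ Mon, M i j₀ = 0)
    {b : Polynomial ℂ} (hb : InPs f 1 (b.map (MvPowerSeries.C (σ := Fin n) (R := ℂ))))
    (hbs : b.eval s ≠ 0) :
    ∃ r : β → R, MvPowerSeries.constantCoeff J' =
      ∑ b, (δ b (r b) + algebraMap ℂ R s * (((φ⁻¹ : Rˣ) : R) * δ b φ) * r b) := by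
  classical
  obtain ⟨H, hH0, hH1, hH2⟩ := exists_weight (τ := τ) hD hφ hs δ
  have hu : IsUnit F₁ := by
    rw [MvPowerSeries.isUnit_iff_constantCoeff, hφ]
    exact φ.isUnit
  obtain ⟨F₂, rfl⟩ := hu
  have hm : MvPowerSeries.X j₀ ^ (E j₀) ∣
      (jm (fun a => rowD δ (e a)) fun i => θ (MvPowerSeries.X i)).det := by
    rw [hJ]
    refine Dvd.dvd.mul_right ?_ _
    rw [MvPowerSeries.X_pow_dvd_iff]
    intro v hv
    rw [MvPowerSeries.coeff_monomial, if_neg]
    rintro rfl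
    exact lt_irrefl _ hv
  obtain ⟨r, hr⟩ := residue_inst e hδ hθ hF hH1 hH2 hM (l := l)
    (ε := fun j => (E j : ℤ) - N j) (fun j => by
      have := hE j
      push_cast
      linear_combination this) (j₀ := j₀) (m := E j₀) hm
      (by have : (0 : ℤ) < N j₀ := by exact_mod_cast hj₀
          omega) hMj hb hbs 1
  refine ⟨r, ?_⟩
  rw [← hr, cz_coe (v := E) (fun j => by ring), map_one, mul_one, hJ]
  have h1 : H * (MvPowerSeries.monomial E 1 * J') = MvPowerSeries.monomial E 1 * (H * J') := by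
    ring
  rw [h1]
  have h2 := MvPowerSeries.coeff_add_monomial_mul E 0 (H * J') (1 : R)
  rw [add_zero, one_mul, MvPowerSeries.coeff_zero_eq_constantCoeff_apply] at h2
  rw [h2, map_mul, hH0, one_mul]

end ARL

end MPb07157
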