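import Pool.Agent.Lib.MP_b07157_agE.EB

/-!
# The abstract residue lemma

Commuting derivations, the Piola identity, and the residue lemma for functionals which kill
divergences.
-/

noncomputable section

namespace MPb07157

namespace ARL

variable {A : Type} [CommRing A] [Algebra ℂ A] {n : ℕ}

theorem deriv_prod {ι : Type} [DecidableEq ι] (D : Derivation ℂ A A) (s : Finset ι) (f : ι → A) :
    D (∏ c ∈ s, f c) = ∑ l ∈ s, (∏ c ∈ s.erase l, f c) * D (f l) := by
  induction s using Finset.induction_on with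
  | empty => simp
  | insert a s ha ih =>
    rw [Finset.prod_insert ha, Derivation.leibniz, ih, Finset.sum_insert ha,
      Finset.erase_insert ha, smul_eq_mul, smul_eq_mul, add_comm, Finset.mul_sum]
    congr 1
    refine Finset.sum_congr rfl fun l hl => ?_
    have hal : a ≠ l := fun h => ha (h ▸ hl)
    rw [Finset.erase_insert_of_ne hal, Finset.prod_insert (fun h => ha (Finset.mem_of_mem_erase h))]
    ring

/-- The Jacobian matrix: the rows are the derivations, the columns the functions. -/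
def jm (D : Fin n → Derivation ℂ A A) (X : Fin n → A) : Matrix (Fin n) (Fin n) A :=
  Matrix.of fun a i => D a (X i)

theorem adjugate_jm (D : Fin n → Derivation ℂ A A) (X : Fin n → A) (i a : Fin n) :
    (jm D X).adjugate i a = ∑ σ : Equiv.Perm (Fin n), if σ i = a then
      ((Equiv.Perm.sign σ : ℤ) : A) * ∏ c ∈ Finset.univ.erase i, D (σ c) (X c) else 0 := by
  rw [Matrix.adjugate_apply, Matrix.det_apply']
  refine Finset.sum_congr rfl fun σ _ => ?_
  rw [← Finset.mul_prod_erase _ _ (Finset.mem_univ i)]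
  split_ifs with h
  · rw [h, Matrix.updateRow_self, Pi.single_eq_same, one_mul]
    congr 1
    refine Finset.prod_congr rfl fun c hc => ?_
    have hne : σ c ≠ a := by
      intro h2
      exact (Finset.ne_of_mem_erase hc) (σ.injective (h2.trans h.symm))
    rw [Matrix.updateRow_ne hne]
    rfl
  · obtain ⟨c, hc⟩ := σ.surjective a
    have hci : c ≠ i := fun h2 => h (h2 ▸ hc)
    have h3 : ∏ c ∈ Finset.univ.erase i, (jm D X).updateRow a (Pi.single i 1) (σ c) c = 0 := by
      refine Finset.prod_eq_zero (Finset.mem_erase.2 ⟨hci, Finset.mem_univ c⟩) ?_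
      rw [hc, Matrix.updateRow_self, Pi.single_eq_of_ne hci]
    rw [h3, mul_zero, mul_zero]

/-- **The Piola identity.** -/
theorem piola {D : Fin n → Derivation ℂ A A} (hD : ∀ a b h, D a (D b h) = D b (D a h))
    (X : Fin n → A) (i : Fin n) : ∑ a, D a ((jm D X).adjugate i a) = 0 := by
  have h1 : ∀ a, D a ((jm D X).adjugate i a) = ∑ σ : Equiv.Perm (Fin n), if σ i = a then
      ((Equiv.Perm.sign σ : ℤ) : A) * ∑ l ∈ Finset.univ.erase i,
        (∏ c ∈ (Finset.univ.erase i).erase l, D (σ c) (X c)) * D (σ i) (D (σ l) (X l)) else 0 := by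
    intro a
    rw [adjugate_jm, map_sum]
    refine Finset.sum_congr rfl fun σ _ => ?_
    split_ifs with h
    · rw [Derivation.leibniz, Derivation.map_intCast, smul_zero, add_zero, smul_eq_mul,
        deriv_prod, h]
    · rw [map_zero]
  simp only [h1]
  rw [Finset.sum_comm]
  have h2 : ∀ σ : Equiv.Perm (Fin n), (∑ a, if σ i = a then
      ((Equiv.Perm.sign σ : ℤ) : A) * ∑ l ∈ Finset.univ.erase i,
        (∏ c ∈ (Finset.univ.erase i).erase l, D (σ c) (X c)) * D (σ i) (D (σ l) (X l)) else 0) =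
      ∑ l ∈ Finset.univ.erase i, ((Equiv.Perm.sign σ : ℤ) : A) *
        ((∏ c ∈ (Finset.univ.erase i).erase l, D (σ c) (X c)) * D (σ i) (D (σ l) (X l))) := by
    intro σ
    rw [Finset.sum_ite_eq, if_pos (Finset.mem_univ _), Finset.mul_sum]
  simp only [h2]
  rw [Finset.sum_comm]
  refine Finset.sum_eq_zero fun l hl => ?_
  have hli : l ≠ i := Finset.ne_of_mem_erase hl
  refine Finset.sum_involution (fun σ _ => σ * Equiv.swap i l) ?_ ?_ ?_ ?_
  · intro σ _
    have e1 : (σ * Equiv.swap i l) i = σ l := by simp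
    have e2 : (σ * Equiv.swap i l) l = σ i := by simp
    have e3 : ∏ c ∈ (Finset.univ.erase i).erase l, D ((σ * Equiv.swap i l) c) (X c) =
        ∏ c ∈ (Finset.univ.erase i).erase l, D (σ c) (X c) := by
      refine Finset.prod_congr rfl fun c hc => ?_
      have h3 := Finset.ne_of_mem_erase hc
      have h4 := Finset.ne_of_mem_erase (Finset.mem_of_mem_erase hc)
      rw [Equiv.Perm.mul_apply, Equiv.swap_apply_of_ne_of_ne h4 h3]
    rw [e1, e2, e3, hD (σ l) (σ i), Equiv.Perm.sign_mul, Equiv.Perm.sign_swap hli.symm]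
    push_cast
    ring
  · intro σ _ _ h
    have h3 : (σ * Equiv.swap i l) i = σ i := by rw [h]
    rw [Equiv.Perm.mul_apply, Equiv.swap_apply_left] at h3
    exact hli (σ.injective h3)
  · intro σ _
    exact Finset.mem_univ _
  · intro σ _
    rw [mul_assoc, Equiv.swap_mul_self, mul_one]

/-- Cramer. -/
theorem sum_adjugate_mul (D : Fin n → Derivation ℂ A A) (X : Fin n → A) {g : Fin n → A} {h : A}
    (hh : ∀ a, D a h = ∑ i, g i * D a (X i)) (i : Fin n) :
    ∑ a, (jm D X).adjugate i a * D a h = (jm D X).det * g i := by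
  have h1 : ((jm D X).adjugate * jm D X) = (jm D X).det • (1 : Matrix (Fin n) (Fin n) A) :=
    Matrix.adjugate_mul _
  have h2 : ∀ j, ∑ a, (jm D X).adjugate i a * D a (X j) =
      (jm D X).det * (1 : Matrix (Fin n) (Fin n) A) i j := by
    intro j
    have h3 := congrFun (congrFun h1 i) j
    rw [Matrix.mul_apply, Matrix.smul_apply, smul_eq_mul] at h3
    exact h3
  calc ∑ a, (jm D X).adjugate i a * D a h
      = ∑ a, ∑ j, g j * ((jm D X).adjugate i a * D a (X j)) := by
        refine Finset.sum_congr rfl fun a _ => ?_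
        rw [hh, Finset.mul_sum]
        exact Finset.sum_congr rfl fun j _ => by ring
    _ = ∑ j, g j * ∑ a, (jm D X).adjugate i a * D a (X j) := by
        rw [Finset.sum_comm]
        exact Finset.sum_congr rfl fun j _ => by rw [Finset.mul_sum]
    _ = ∑ j, g j * ((jm D X).det * (1 : Matrix (Fin n) (Fin n) A) i j) := by
        exact Finset.sum_congr rfl fun j _ => by rw [h2]
    _ = (jm D X).det * g i := by
        rw [Finset.sum_eq_single i]
        · rw [Matrix.one_apply_eq]; ring
        · intro j _ hj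
          rw [Matrix.one_apply_ne hj.symm]; ring
        · intro hi
          exact absurd (Finset.mem_univ i) hi

theorem eval_C_derivC (i : Fin n) (g : Polynomial (MvPowerSeries (Fin n) ℂ)) (c : ℂ) :
    (derivC i g).eval (MvPowerSeries.C c) =
      MvPowerSeries.pderiv ℂ i (g.eval (MvPowerSeries.C c)) := by
  unfold derivC
  rw [Polynomial.sum_def, Polynomial.eval_finsetSum, Polynomial.eval_eq_sum, Polynomial.sum_def,
    map_sum]
  refine Finset.sum_congr rfl fun j _ => ?_
  rw [Polynomial.eval_monomial, Derivation.leibniz]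
  have h : MvPowerSeries.pderiv ℂ i ((MvPowerSeries.C c : MvPowerSeries (Fin n) ℂ) ^ j) = 0 := by
    rw [← map_pow]
    exact Derivation.map_algebraMap (MvPowerSeries.pderiv ℂ i) (c ^ j)
  rw [h, smul_zero, zero_add, smul_eq_mul, mul_comm]

/-- **The abstract residue lemma.** -/
theorem residue {V Λ : Type} [AddCommGroup V] {θ : MvPowerSeries (Fin n) ℂ →ₐ[ℂ] A}
    {D : Fin n → Derivation ℂ A A} (hD : ∀ a b h, D a (D b h) = D b (D a h))
    (hch : ∀ a h, D a (θ h) = ∑ i, θ (MvPowerSeries.pderiv ℂ i h) * D a (θ (MvPowerSeries.X i)))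
    {f : MvPowerSeries (Fin n) ℂ} {s : ℂ} {ρ : ℕ → Λ → A →+ V} {lam : Λ → Fin n → A}
    (h1 : ∀ k L h, ρ (k + 1) L (θ f * h) = ρ k L h)
    (h2 : ∀ k L a h, ρ (k + 1) L (θ f * D a h +
      (algebraMap ℂ A s + 1 - (k : A)) * D a (θ f) * h) = -ρ k L (lam L a * h))
    (h3 : ∀ L c, ρ 0 L ((jm D fun i => θ (MvPowerSeries.X i)).det * θ c) = 0)
    (h4 : ∀ L i, ∃ (L' : Λ) (l : ℂ), ∀ k h,
      ρ k L ((∑ a, lam L a * (jm D fun i => θ (MvPowerSeries.X i)).adjugate i a) * h) =
        ρ k L' (algebraMap ℂ A l * (jm D fun i => θ (MvPowerSeries.X i)).det * h))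
    {k : ℕ} {g : Polynomial (MvPowerSeries (Fin n) ℂ)} (hg : InPs f k g) :
    ∀ L c, ρ k L ((jm D fun i => θ (MvPowerSeries.X i)).det *
      θ (c * g.eval (MvPowerSeries.C s))) = 0 := by
  set X : Fin n → A := fun i => θ (MvPowerSeries.X i) with hX
  set J := (jm D X).det with hJ
  induction hg with
  | base => intro L c; rw [Polynomial.eval_one, mul_one]; exact h3 L c
  | add _ _ ih1 ih2 =>
    intro L c
    rw [Polynomial.eval_add, mul_add, map_add, mul_add, map_add, ih1, ih2, add_zero]
  | mul c' _ ih =>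
    intro L c
    rw [Polynomial.eval_mul, ← mul_assoc]
    exact ih L _
  | raise _ ih =>
    intro L c
    rw [Polynomial.eval_mul, Polynomial.eval_C, mul_left_comm, map_mul θ, mul_left_comm, h1]
    exact ih L c
  | lower _ ih =>
    intro L c
    have h := ih L c
    rw [Polynomial.eval_mul, Polynomial.eval_C, mul_left_comm, map_mul θ, mul_left_comm, h1] at h
    exact h
  | @deriv k g i _ ih =>
    intro L c
    rw [Polynomial.eval_add, Polynomial.eval_mul, Polynomial.eval_mul, Polynomial.eval_mul,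
      Polynomial.eval_C, Polynomial.eval_C, Polynomial.eval_sub, Polynomial.eval_add,
      Polynomial.eval_X, Polynomial.eval_one, Polynomial.eval_natCast, eval_C_derivC]
    set G₀ := g.eval (MvPowerSeries.C s) with hG₀
    set G := θ G₀ with hG
    set κ : A := algebraMap ℂ A s + 1 - (k : A) with hκ
    have hsC : θ (MvPowerSeries.C s + 1 - (k : MvPowerSeries (Fin n) ℂ)) = κ := by
      rw [map_sub, map_add, map_one, map_natCast]
      congr 2
      exact θ.commutes s
    set Y : Fin n → A := fun a => (jm D X).adjugate i a * θ c with hY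
    have e1 : ∑ a, (jm D X).adjugate i a * D a G = J * θ (MvPowerSeries.pderiv ℂ i G₀) :=
      sum_adjugate_mul D X (fun a => hch a G₀) i
    have e2 : ∑ a, (jm D X).adjugate i a * D a (θ f) = J * θ (MvPowerSeries.pderiv ℂ i f) :=
      sum_adjugate_mul D X (fun a => hch a f) i
    have e3 : ∑ a, (jm D X).adjugate i a * D a (θ c) = J * θ (MvPowerSeries.pderiv ℂ i c) :=
      sum_adjugate_mul D X (fun a => hch a c) i
    have e4 : ∑ a, D a (Y a) = J * θ (MvPowerSeries.pderiv ℂ i c) := by
      rw [← e3]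
      have e5 : ∀ a, D a (Y a) = (jm D X).adjugate i a * D a (θ c) +
          θ c * D a ((jm D X).adjugate i a) := by
        intro a
        rw [hY]
        simp only []
        rw [Derivation.leibniz, smul_eq_mul, smul_eq_mul]
      rw [Finset.sum_congr rfl fun a _ => e5 a, Finset.sum_add_distrib, ← Finset.mul_sum,
        piola hD, mul_zero, add_zero]
    have e6 : J * θ (c * (f * MvPowerSeries.pderiv ℂ i G₀ +
        (MvPowerSeries.C s + 1 - (k : MvPowerSeries (Fin n) ℂ)) *
          MvPowerSeries.pderiv ℂ i f * G₀)) =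
        ∑ a, (θ f * D a (G * Y a) + κ * D a (θ f) * (G * Y a)) -
          θ f * (J * θ (MvPowerSeries.pderiv ℂ i c * G₀)) := by
      have e7 : ∀ a, θ f * D a (G * Y a) + κ * D a (θ f) * (G * Y a) =
          θ f * θ c * ((jm D X).adjugate i a * D a G) + θ f * G * D a (Y a) +
            κ * G * θ c * ((jm D X).adjugate i a * D a (θ f)) := by
        intro a
        rw [Derivation.leibniz, smul_eq_mul, smul_eq_mul]
        rw [hY]
        ring
      rw [Finset.sum_congr rfl fun a _ => e7 a, Finset.sum_add_distrib, Finset.sum_add_distrib,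
        ← Finset.mul_sum, ← Finset.mul_sum, ← Finset.mul_sum, e1, e2, e4, map_mul, map_add,
        map_mul, map_mul, map_mul, hsC, map_mul]
      ring
    rw [e6, map_sub, map_sum, h1, ih L, sub_zero]
    have e8 : ∀ a, ρ (k + 1) L (θ f * D a (G * Y a) + κ * D a (θ f) * (G * Y a)) =
        -ρ k L (lam L a * (G * Y a)) := fun a => h2 k L a _
    rw [Finset.sum_congr rfl fun a _ => e8 a, Finset.sum_neg_distrib, ← map_sum, neg_eq_zero]
    have e9 : ∑ a, lam L a * (G * Y a) =
        (∑ a, lam L a * (jm D X).adjugate i a) * (G * θ c) := by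
      rw [Finset.sum_mul]
      refine Finset.sum_congr rfl fun a _ => ?_
      rw [hY]
      ring
    obtain ⟨L', l, hl⟩ := h4 L i
    rw [e9, hl]
    have e10 := ih L' (MvPowerSeries.C l * c)
    rw [map_mul θ, map_mul θ] at e10
    have e11 : θ (MvPowerSeries.C l) = algebraMap ℂ A l := θ.commutes l
    rw [e11] at e10
    rw [← e10]
    congr 1
    ring

/-- The conclusion for a Bernstein–Sato polynomial. -/
theorem residue_b {V Λ : Type} [AddCommGroup V] {θ : MvPowerSeries (Fin n) ℂ →ₐ[ℂ] A}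
    {D : Fin n → Derivation ℂ A A} (hD : ∀ a b h, D a (D b h) = D b (D a h))
    (hch : ∀ a h, D a (θ h) = ∑ i, θ (MvPowerSeries.pderiv ℂ i h) * D a (θ (MvPowerSeries.X i)))
    {f : MvPowerSeries (Fin n) ℂ} {s : ℂ} {ρ : ℕ → Λ → A →+ V} {lam : Λ → Fin n → A}
    (h1 : ∀ k L h, ρ (k + 1) L (θ f * h) = ρ k L h)
    (h2 : ∀ k L a h, ρ (k + 1) L (θ f * D a h +
      (algebraMap ℂ A s + 1 - (k : A)) * D a (θ f) * h) = -ρ k L (lam L a * h))
    (h3 : ∀ L c, ρ 0 L ((jm D fun i => θ (MvPowerSeries.X i)).det * θ c) = 0)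
    (h4 : ∀ L i, ∃ (L' : Λ) (l : ℂ), ∀ k h,
      ρ k L ((∑ a, lam L a * (jm D fun i => θ (MvPowerSeries.X i)).adjugate i a) * h) =
        ρ k L' (algebraMap ℂ A l * (jm D fun i => θ (MvPowerSeries.X i)).det * h))
    {b : Polynomial ℂ} (hb : InPs f 1 (b.map (MvPowerSeries.C (σ := Fin n) (R := ℂ))))
    (hs : b.eval s ≠ 0) (L : Λ) (c : MvPowerSeries (Fin n) ℂ) :
    ρ 1 L ((jm D fun i => θ (MvPowerSeries.X i)).det * θ c) = 0 := by
  have e := residue hD hch h1 h2 h3 h4 hb L (c * MvPowerSeries.C ((b.eval s)⁻¹))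
  rw [Polynomial.eval_map_apply, mul_assoc, ← map_mul, inv_mul_cancel₀ hs, map_one,
    mul_one] at e
  exact e

end ARL

end MPb07157
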