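import Pool.Agent.Lib.MP_b07157_agR.Deg

/-!
# The residue lemma with a degree bound in two directions
-/

noncomputable section

namespace MPb07157

namespace ARL

variable {τ : Type}

/-- The weight satisfies the degree bound. -/
theorem DB.weight {j : τ} {Q : ℕ} {F₁ : MvPowerSeries τ (RatFunc ℂ)}
    {F₂ : (MvPowerSeries τ (RatFunc ℂ))ˣ} (hF₂ : (F₂ : MvPowerSeries τ (RatFunc ℂ)) = F₁)
    {φ : (RatFunc ℂ)ˣ} (hφ : MvPowerSeries.constantCoeff F₁ = φ)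
    (hF : DB j Q (Q * (φ : RatFunc ℂ).intDegree) F₁) {H : MvPowerSeries τ (RatFunc ℂ)}
    (hH : ∃ S : PowerSeries ℂ, H = PowerSeries.subst
      (MvPowerSeries.C ((φ⁻¹ : (RatFunc ℂ)ˣ) : RatFunc ℂ) * F₁ - 1) S) (k : ℕ) :
    DB j Q ((1 - k) * (Q * (φ : RatFunc ℂ).intDegree)) (wG F₂ H k) := by
  obtain ⟨S, hS⟩ := hH
  have hφφ : ((φ⁻¹ : (RatFunc ℂ)ˣ) : RatFunc ℂ) * (φ : RatFunc ℂ) = 1 := Units.inv_mul φ
  have hdinv : ((φ⁻¹ : (RatFunc ℂ)ˣ) : RatFunc ℂ).intDegree = -(φ : RatFunc ℂ).intDegree := by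
    have h1 : ((φ⁻¹ : (RatFunc ℂ)ˣ) : RatFunc ℂ) = (φ : RatFunc ℂ)⁻¹ := by
      rw [Units.val_inv_eq_inv_val]
    rw [h1, RatFunc.intDegree_inv]
  have hCinv : DB j Q (-(Q * (φ : RatFunc ℂ).intDegree))
      (MvPowerSeries.C ((φ⁻¹ : (RatFunc ℂ)ˣ) : RatFunc ℂ)) := by
    refine DB.C (Or.inr ?_)
    rw [hdinv]
    exact le_of_eq (by ring)
  set g := MvPowerSeries.C ((φ⁻¹ : (RatFunc ℂ)ˣ) : RatFunc ℂ) * F₁ - 1 with hg
  have hgD : DB j Q 0 g := by
    have h1 := hCinv.mul hF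
    rw [neg_add_cancel] at h1
    exact h1.sub (DB.one j Q)
  have hg0 : MvPowerSeries.constantCoeff g = 0 := by
    rw [hg, map_sub, map_mul, MvPowerSeries.constantCoeff_C, hφ, hφφ, map_one, sub_self]
  have hs : PowerSeries.HasSubst g := PowerSeries.HasSubst.of_constantCoeff_zero hg0
  have hHD : DB j Q 0 H := by
    rw [hS]
    exact DB.powerSeries_subst hs hgD S
  -- the inverse of `F₂`
  obtain ⟨T, hT⟩ : ∃ T : PowerSeries ℂ, T * (1 + PowerSeries.X) = 1 := by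
    have hu : IsUnit (1 + PowerSeries.X : PowerSeries ℂ) := by
      rw [PowerSeries.isUnit_iff_constantCoeff, map_add, map_one, PowerSeries.constantCoeff_X,
        add_zero]
      exact isUnit_one
    exact hu.exists_left_inv
  have hinv : ((F₂⁻¹ : (MvPowerSeries τ (RatFunc ℂ))ˣ) : MvPowerSeries τ (RatFunc ℂ)) =
      MvPowerSeries.C ((φ⁻¹ : (RatFunc ℂ)ˣ) : RatFunc ℂ) * PowerSeries.subst g T := by
    have h1 : PowerSeries.subst g (1 + PowerSeries.X : PowerSeries ℂ) =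
        MvPowerSeries.C ((φ⁻¹ : (RatFunc ℂ)ˣ) : RatFunc ℂ) * F₁ := by
      have h1' : PowerSeries.subst g (1 : PowerSeries ℂ) =
          (1 : MvPowerSeries τ (RatFunc ℂ)) := by
        rw [← PowerSeries.coe_substAlgHom hs, map_one]
      rw [PowerSeries.subst_add hs, PowerSeries.subst_X hs, h1', hg, add_sub_cancel]
    have h2 : PowerSeries.subst g T * (MvPowerSeries.C ((φ⁻¹ : (RatFunc ℂ)ˣ) : RatFunc ℂ) * F₁) =
        1 := by
      rw [← h1, ← PowerSeries.subst_mul hs, hT, ← PowerSeries.coe_substAlgHom hs, map_one]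
    refine (Units.eq_inv_of_mul_eq_one_right ?_).symm
    rw [hF₂]
    linear_combination h2
  have hinvD : DB j Q (-(Q * (φ : RatFunc ℂ).intDegree))
      ((F₂⁻¹ : (MvPowerSeries τ (RatFunc ℂ))ˣ) : MvPowerSeries τ (RatFunc ℂ)) := by
    rw [hinv]
    have := hCinv.mul (DB.powerSeries_subst hs hgD T)
    rwa [add_zero] at this
  unfold wG
  rw [hF₂]
  refine ((hinvD.pow' k).mul (hF.mul hHD)).mono (le_of_eq ?_)
  ring

variable [Finite τ]

omit [Finite τ] in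
/-- The cofactors of the coefficient row are divisible by one of the two variables. -/
theorem DB.adjugate {n : ℕ} {e : Fin n → τ ⊕ Unit} (δ : Unit → Derivation ℂ (RatFunc ℂ) (RatFunc ℂ))
    {Θ : Fin n → MvPowerSeries τ (RatFunc ℂ)} {j : τ} {Q : ℕ} (hΘ : ∀ i, DB j Q 0 (Θ i))
    {a : Fin n} (hu : ∀ a', e a' = Sum.inr () → a' = a) {c₀ i : Fin n} (hi : c₀ ≠ i) {E : ℕ}
    (hc₀ : Θ c₀ = MvPowerSeries.monomial (Finsupp.single j E) 1) :
    DB j Q (-(E : ℤ)) ((jm (fun a => rowD δ (e a)) Θ).adjugate i a) := by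
  rw [adjugate_jm]
  refine DB.sum _ fun σ _ => ?_
  split_ifs with hσ
  · have hrow : ∀ c, c ≠ i → ∃ j', e (σ c) = Sum.inl j' := by
      intro c hc
      rcases hec : e (σ c) with j' | b
      · exact ⟨j', rfl⟩
      · exact absurd (σ.injective ((hu (σ c) hec).trans hσ.symm)) hc
    have hc : c₀ ∈ Finset.univ.erase i := Finset.mem_erase.2 ⟨hi, Finset.mem_univ _⟩
    rw [← Finset.mul_prod_erase _ _ hc]
    have h1 : DB j Q (-(E : ℤ)) (rowD δ (e (σ c₀)) (Θ c₀)) := by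
      obtain ⟨j', hj'⟩ := hrow c₀ hi
      rw [hj', hc₀]
      refine DB.lg ?_ j'
      have h2 := DB.monomial (j := j) (dg_one Q) (Finsupp.single j E)
      rwa [Finsupp.single_eq_same] at h2
    have h3 : DB j Q 0 (∏ c ∈ (Finset.univ.erase i).erase c₀, rowD δ (e (σ c)) (Θ c)) := by
      refine DB.prod _ fun c hc' => ?_
      obtain ⟨j', hj'⟩ := hrow c (Finset.ne_of_mem_erase (Finset.mem_of_mem_erase hc'))
      rw [hj']
      exact DB.lg (hΘ c) j'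
    have h4 : DB j Q 0 ((((Equiv.Perm.sign σ : ℤ) : MvPowerSeries τ (RatFunc ℂ)))) := by
      rcases Int.units_eq_one_or (Equiv.Perm.sign σ) with h | h
      · rw [h]
        have := DB.one (τ := τ) j Q
        simpa using this
      · rw [h]
        have := (DB.one (τ := τ) j Q).neg
        simpa using this
    refine (h4.mul (h1.mul h3)).mono (le_of_eq (by ring))
  · intro v
    rw [map_zero]
    exact (dg Q _).zero_mem

/-- **The residue lemma in two directions.** The antiderivative has degree at most one. -/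
theorem residue_two {n : ℕ} (e : Fin n → τ ⊕ Unit) (δ : Derivation ℂ (RatFunc ℂ) (RatFunc ℂ))
    (hu : ∀ a a', e a = Sum.inr () → e a' = Sum.inr () → a = a')
    {Θ : Fin n → MvPowerSeries τ (RatFunc ℂ)}
    (hΘ0 : ∀ i, MvPowerSeries.constantCoeff (Θ i) = 0)
    {f : MvPowerSeries (Fin n) ℂ} {N : τ →₀ ℕ} {F₁ : MvPowerSeries τ (RatFunc ℂ)}
    (hF : MvPowerSeries.subst Θ f = MvPowerSeries.monomial N 1 * F₁) {φ : (RatFunc ℂ)ˣ}
    (hφ : MvPowerSeries.constantCoeff F₁ = φ) {ν D : ℕ} (hD : 0 < D) {s : ℂ}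
    (hs : s = -((ν : ℂ) / D))
    {Mon : Finset (Fin n)} {M : Fin n → τ →₀ ℕ}
    (hM : ∀ i ∈ Mon, Θ i = MvPowerSeries.monomial (M i) 1)
    {l : Fin n → ℂ} {E : τ →₀ ℕ} {J' : MvPowerSeries τ (RatFunc ℂ)}
    (hJ : (jm (fun a => rowD (fun _ => δ) (e a)) Θ).det = MvPowerSeries.monomial E 1 * J')
    (hE : ∀ j, (E j : ℂ) + s * N j + ∑ i ∈ Mon, l i * M i j = 0)
    {j₀ j₁ : τ} {Q E₀ : ℕ} {x₀ x₁ : Fin n} (hx : x₀ ≠ x₁)
    (hx₀ : Θ x₀ = MvPowerSeries.monomial (Finsupp.single j₀ E₀) 1)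
    (hx₁ : Θ x₁ = MvPowerSeries.monomial (Finsupp.single j₁ E₀) 1)
    (hΘ : ∀ i, DB j₀ Q 0 (Θ i) ∧ DB j₁ Q 0 (Θ i))
    (hF₀ : DB j₀ Q (Q * (φ : RatFunc ℂ).intDegree) F₁)
    (hF₁ : DB j₁ Q (Q * (φ : RatFunc ℂ).intDegree) F₁)
    (hN₀ : (N j₀ : ℤ) = Q * (φ : RatFunc ℂ).intDegree)
    (hN₁ : (N j₁ : ℤ) = Q * (φ : RatFunc ℂ).intDegree)
    (hE₀ : E j₀ = E₀ + Q) (hE₁ : E j₁ = E₀ + Q)
    (hj₀ : 0 < N j₀) (hMj : ∀ i ∈ Mon, M i j₀ = 0) (hMj₁ : ∀ i ∈ Mon, M i j₁ = 0)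
    {b : Polynomial ℂ} (hb : InPs f 1 (b.map (MvPowerSeries.C (σ := Fin n) (R := ℂ))))
    (hbs : b.eval s ≠ 0) :
    ∃ r : RatFunc ℂ, r ∈ dg Q Q ∧ MvPowerSeries.constantCoeff J' =
      δ r + algebraMap ℂ (RatFunc ℂ) s * (((φ⁻¹ : (RatFunc ℂ)ˣ) : RatFunc ℂ) * δ φ) * r := by
  have hsub := MvPowerSeries.hasSubst_of_constantCoeff_zero hΘ0
  set θ : MvPowerSeries (Fin n) ℂ →ₐ[ℂ] MvPowerSeries τ (RatFunc ℂ) :=
    MvPowerSeries.substAlgHom hsub with hθ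
  have hθX : ∀ i, θ (MvPowerSeries.X i) = Θ i := fun i => MvPowerSeries.substAlgHom_X hsub i
  have hfun : (fun i => θ (MvPowerSeries.X i)) = Θ := funext hθX
  have hθc : ∀ c, θ c = MvPowerSeries.subst Θ c := fun c => by
    rw [hθ, MvPowerSeries.coe_substAlgHom]
  have main := residue_cornerP (R := RatFunc ℂ) (β := Unit) e (δ := fun _ => δ)
    (fun _ _ _ => rfl) (θ := θ) (fun i => by rw [hθX]; exact hΘ0 i) (f := f) (N := N) (F₁ := F₁)
    (by rw [hθc]; exact hF) hφ hD hs (Mon := Mon) (M := M)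
    (fun i hi => by rw [hθX]; exact hM i hi) (l := l) (E := E) (J' := J')
    (by rw [hfun]; exact hJ) hE hj₀ hMj hb hbs (P := fun _ => dg Q Q)
  suffices hP : _ from by
    obtain ⟨r, hr, hr'⟩ := main hP
    refine ⟨r (), hr (), ?_⟩
    rw [hr']
    simp
  · intro H F₂ hF₂ hH k L i a b' c ha
    rw [hfun]
    have hua : ∀ a', e a' = Sum.inr () → a' = a := fun a' ha' => hu a' a ha' ha
    -- the choice of the direction
    have key : ∀ (j : τ) (x : Fin n), x ≠ i →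
        Θ x = MvPowerSeries.monomial (Finsupp.single j E₀) 1 → (∀ i, DB j Q 0 (Θ i)) →
        DB j Q (Q * (φ : RatFunc ℂ).intDegree) F₁ → (N j : ℤ) = Q * (φ : RatFunc ℂ).intDegree →
        E j = E₀ + Q → (∀ i ∈ Mon, M i j = 0) →
        cz (epsR N Mon M (fun j => (E j : ℤ) - N j) k L) (wG F₂ H k *
          ((jm (fun a => rowD (fun _ => δ) (e a)) Θ).adjugate i a * θ c)) ∈ dg Q Q := by
      intro j x hxi hxj hΘj hFj hNj hEj hMonj
      have h1 := DB.weight hF₂ hφ hFj hH k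
      have h2 := DB.adjugate (fun _ => δ) hΘj hua hxi hxj
      have h3 : DB j Q 0 (θ c) := by
        rw [hθc]
        exact DB.mv_subst hsub hΘj c
      refine dg_mono ?_ ((h1.mul (h2.mul h3)).cz _)
      have h4 : ((∑ i ∈ Mon, L i * M i j : ℕ) : ℤ) = 0 := by
        rw [Finset.sum_eq_zero fun i hi => by rw [hMonj i hi, mul_zero], Nat.cast_zero]
      have h5 : epsR N Mon M (fun j => (E j : ℤ) - N j) k L j =
          (E j : ℤ) - N j + k * N j + ((∑ i ∈ Mon, L i * M i j : ℕ) : ℤ) := by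
        unfold epsR
        push_cast
        ring
      rw [h5, h4, hNj, hEj]
      push_cast
      refine le_of_eq ?_
      ring
    by_cases hi : x₀ = i
    · exact key j₁ x₁ (fun h => hx (hi.trans h.symm)) hx₁ (fun i => (hΘ i).2) hF₁ hN₁ hE₁ hMj₁
    · exact key j₀ x₀ hi hx₀ (fun i => (hΘ i).1) hF₀ hN₀ hE₀ hMj

end ARL

end MPb07157
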