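import Pool.Agent.Lib.MP_b07157_agL3.Defs2

/-!
# The root `-3/d` and lines through a point of multiplicity `2d/3`: definitions

If `3 ∑ m_i = d`, the sum of the exponents `s m_i` at `s = -3/d` is `-1`, and the function `1` is a
new basis element of the first cohomology of the lines.
-/

noncomputable section

namespace MPb07157.TR

open MvPolynomial TL

/-- The exponents are not positive integers, and their sum is not an integer `≤ -2`. -/
def WRes {L ι : Type} [Field L] [Fintype ι] (σ : ι → L) : Prop :=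
  (∀ i, ∀ k : ℕ, 0 < k → σ i ≠ k) ∧ ∀ k : ℕ, 1 < k → (∑ i, σ i) + k ≠ 0

/-- The class of the vector field at `s = -3/d`:
`θ_t / f^K = γ + ∑ s_i α_i / (w - c_i) + ∇ r`. -/
def Cl1 {L F : Type} [Field L] [Field F] [Algebra L F] [Algebra ℂ L] [Algebra ℂ F]
    {ι : Type} [Fintype ι] (f : MvPolynomial (Fin 3) ℂ) (d K : ℕ)
    (θ : Fin 3 → MvPolynomial (Fin 3) (Polynomial ℂ)) (W : WF L F) (t : L) (c : ι → L)
    (m : ι → ℕ) (α : ι → L) (γ : L) : Prop :=
  ∃ r ∈ SS W c, (B1 f K θ W.w (algebraMap L F t)).eval (algebraMap ℂ F (s0 d)) =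
    algebraMap L F γ + lg W c (fun i => s0m d m i * α i) + nb W.dw (lg W c (s0m d m)) r

end MPb07157.TR
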