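import Pool.Agent.Lib.MP_b07157_agR.Filt
import Mathlib.FieldTheory.RatFunc.Degree

/-!
# Degree bounds
-/

noncomputable section

namespace MPb07157

namespace ARL

/-- Rational functions with `Q deg ≤ q`. -/
def dg (Q : ℕ) (q : ℤ) : AddSubgroup (RatFunc ℂ) where
  carrier := {x | x = 0 ∨ (Q : ℤ) * x.intDegree ≤ q}
  zero_mem' := Or.inl rfl
  add_mem' := by
    rintro x y hx hy
    rcases hx with rfl | hx
    · rwa [zero_add]
    rcases hy with rfl | hy
    · rw [add_zero]; exact Or.inr hx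
    by_cases hy0 : y = 0
    · rw [hy0, add_zero]; exact Or.inr hx
    by_cases hxy : x + y = 0
    · exact Or.inl hxy
    · right
      have h1 := RatFunc.intDegree_add_le hy0 hxy
      rcases le_max_iff.1 h1 with h | h
      · exact (mul_le_mul_of_nonneg_left h (Int.natCast_nonneg Q)).trans hx
      · exact (mul_le_mul_of_nonneg_left h (Int.natCast_nonneg Q)).trans hy
  neg_mem' := by
    rintro x hx
    rcases hx with rfl | hx
    · exact Or.inl neg_zero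
    · right
      rwa [RatFunc.intDegree_neg]

theorem mem_dg {Q : ℕ} {q : ℤ} {x : RatFunc ℂ} :
    x ∈ dg Q q ↔ x = 0 ∨ (Q : ℤ) * x.intDegree ≤ q := Iff.rfl

theorem dg_mul {Q : ℕ} {q q' : ℤ} {x y : RatFunc ℂ} (hx : x ∈ dg Q q) (hy : y ∈ dg Q q') :
    x * y ∈ dg Q (q + q') := by
  by_cases hx0 : x = 0
  · rw [hx0, zero_mul]; exact (dg Q _).zero_mem
  by_cases hy0 : y = 0
  · rw [hy0, mul_zero]; exact (dg Q _).zero_mem
  have h1 := hx.resolve_left hx0
  have h2 := hy.resolve_left hy0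
  refine Or.inr ?_
  rw [RatFunc.intDegree_mul hx0 hy0, mul_add]
  exact add_le_add h1 h2

theorem dg_mono {Q : ℕ} {q q' : ℤ} (h : q ≤ q') {x : RatFunc ℂ} (hx : x ∈ dg Q q) :
    x ∈ dg Q q' := hx.imp id fun h1 => h1.trans h

theorem dg_algebraMap (Q : ℕ) (c : ℂ) : algebraMap ℂ (RatFunc ℂ) c ∈ dg Q 0 := by
  right
  rw [RatFunc.algebraMap_eq_C, RatFunc.intDegree_C, mul_zero]

theorem dg_one (Q : ℕ) : (1 : RatFunc ℂ) ∈ dg Q 0 := by
  have := dg_algebraMap Q 1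
  rwa [map_one] at this

theorem dg_natCast (Q n : ℕ) : (n : RatFunc ℂ) ∈ dg Q 0 := by
  have := dg_algebraMap Q (n : ℂ)
  rwa [map_natCast] at this

theorem dg_smul {Q : ℕ} {q : ℤ} (c : ℂ) {x : RatFunc ℂ} (hx : x ∈ dg Q q) : c • x ∈ dg Q q := by
  rw [Algebra.smul_def]
  have := dg_mul (dg_algebraMap Q c) hx
  rwa [zero_add] at this

theorem finsum_mem_addSubgroup {ι G : Type} [AddCommGroup G] (S : AddSubgroup G) {f : ι → G}
    (hf : ∀ i, f i ∈ S) : ∑ᶠ i, f i ∈ S :=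
  finsum_induction (fun x => x ∈ S) S.zero_mem (fun _ _ => S.add_mem) hf

variable {τ : Type}

/-- `Q deg h_v ≤ v_j + m`. -/
def DB (j : τ) (Q : ℕ) (m : ℤ) (h : MvPowerSeries τ (RatFunc ℂ)) : Prop :=
  ∀ v : τ →₀ ℕ, MvPowerSeries.coeff v h ∈ dg Q (v j + m)

theorem DB.add {j : τ} {Q : ℕ} {m : ℤ} {g h : MvPowerSeries τ (RatFunc ℂ)} (hg : DB j Q m g)
    (hh : DB j Q m h) : DB j Q m (g + h) := fun v => by
  rw [map_add]
  exact (dg Q _).add_mem (hg v) (hh v)

theorem DB.neg {j : τ} {Q : ℕ} {m : ℤ} {g : MvPowerSeries τ (RatFunc ℂ)} (hg : DB j Q m g) :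
    DB j Q m (-g) := fun v => by
  rw [map_neg]
  exact (dg Q _).neg_mem (hg v)

theorem DB.sub {j : τ} {Q : ℕ} {m : ℤ} {g h : MvPowerSeries τ (RatFunc ℂ)} (hg : DB j Q m g)
    (hh : DB j Q m h) : DB j Q m (g - h) := fun v => by
  rw [map_sub]
  exact (dg Q _).sub_mem (hg v) (hh v)

theorem DB.sum {ι : Type} {j : τ} {Q : ℕ} {m : ℤ} (s : Finset ι)
    {g : ι → MvPowerSeries τ (RatFunc ℂ)} (hg : ∀ i ∈ s, DB j Q m (g i)) :
    DB j Q m (∑ i ∈ s, g i) := fun v => by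
  rw [map_sum]
  exact (dg Q _).sum_mem fun i hi => hg i hi v

theorem DB.mul {j : τ} {Q : ℕ} {m m' : ℤ} {g h : MvPowerSeries τ (RatFunc ℂ)} (hg : DB j Q m g)
    (hh : DB j Q m' h) : DB j Q (m + m') (g * h) := fun v => by
  classical
  rw [MvPowerSeries.coeff_mul]
  refine (dg Q _).sum_mem fun p hp => ?_
  have h1 : p.1 + p.2 = v := Finset.HasAntidiagonal.mem_antidiagonal.1 hp
  refine dg_mono ?_ (dg_mul (hg p.1) (hh p.2))
  rw [← h1, Finsupp.add_apply]
  push_cast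
  linarith

theorem DB.mono {j : τ} {Q : ℕ} {m m' : ℤ} (hm : m ≤ m') {g : MvPowerSeries τ (RatFunc ℂ)}
    (hg : DB j Q m g) : DB j Q m' g := fun v => dg_mono (by linarith) (hg v)

theorem DB.C {j : τ} {Q : ℕ} {m : ℤ} {a : RatFunc ℂ} (ha : a ∈ dg Q m) :
    DB j Q m (MvPowerSeries.C a) := fun v => by
  classical
  rw [MvPowerSeries.coeff_C]
  split_ifs with h
  · refine dg_mono ?_ ha
    have : (0 : ℤ) ≤ (v j : ℤ) := Int.natCast_nonneg _
    linarith
  · exact (dg Q _).zero_mem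

theorem DB.one (j : τ) (Q : ℕ) : DB j Q 0 (1 : MvPowerSeries τ (RatFunc ℂ)) := by
  have := DB.C (j := j) (dg_one Q)
  rwa [map_one] at this

theorem DB.monomial {j : τ} {Q : ℕ} {a : RatFunc ℂ} (ha : a ∈ dg Q 0) (u : τ →₀ ℕ) :
    DB j Q (-(u j : ℤ)) (MvPowerSeries.monomial u a) := fun v => by
  classical
  rw [MvPowerSeries.coeff_monomial]
  split_ifs with h
  · rw [h, add_neg_cancel]
    exact ha
  · exact (dg Q _).zero_mem

theorem DB.lg {j : τ} {Q : ℕ} {m : ℤ} {g : MvPowerSeries τ (RatFunc ℂ)} (hg : DB j Q m g)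
    (i : τ) : DB j Q m (lg i g) := fun v => by
  rw [coeff_lg]
  have := dg_mul (dg_natCast Q (v i)) (hg v)
  rwa [zero_add] at this

theorem DB.pow {j : τ} {Q : ℕ} {g : MvPowerSeries τ (RatFunc ℂ)} (hg : DB j Q 0 g) (k : ℕ) :
    DB j Q 0 (g ^ k) := by
  induction k with
  | zero => rw [pow_zero]; exact DB.one j Q
  | succ k ih =>
    rw [pow_succ]
    have := ih.mul hg
    rwa [add_zero] at this

theorem DB.pow' {j : τ} {Q : ℕ} {m : ℤ} {g : MvPowerSeries τ (RatFunc ℂ)} (hg : DB j Q m g)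
    (k : ℕ) : DB j Q (k * m) (g ^ k) := by
  induction k with
  | zero => rw [pow_zero, Nat.cast_zero, zero_mul]; exact DB.one j Q
  | succ k ih =>
    rw [pow_succ]
    refine (ih.mul hg).mono (le_of_eq ?_)
    push_cast
    ring

theorem DB.prod {ι : Type} {j : τ} {Q : ℕ} (s : Finset ι)
    {g : ι → MvPowerSeries τ (RatFunc ℂ)} (hg : ∀ i ∈ s, DB j Q 0 (g i)) :
    DB j Q 0 (∏ i ∈ s, g i) := by
  classical
  induction s using Finset.induction_on with
  | empty => exact DB.one j Q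
  | insert a s ha ih =>
    rw [Finset.prod_insert ha]
    have := (hg a (Finset.mem_insert_self a s)).mul
      (ih fun i hi => hg i (Finset.mem_insert_of_mem hi))
    rwa [add_zero] at this

theorem DB.powerSeries_subst {j : τ} {Q : ℕ} {g : MvPowerSeries τ (RatFunc ℂ)}
    (hs : PowerSeries.HasSubst g) (hg : DB j Q 0 g) (S : PowerSeries ℂ) :
    DB j Q 0 (PowerSeries.subst g S) := fun v => by
  rw [PowerSeries.coeff_subst hs]
  exact finsum_mem_addSubgroup _ fun d => dg_smul _ (hg.pow d v)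

theorem DB.mv_subst {j : τ} {Q n : ℕ} {Θ : Fin n → MvPowerSeries τ (RatFunc ℂ)}
    (hs : MvPowerSeries.HasSubst Θ) (hg : ∀ i, DB j Q 0 (Θ i)) (c : MvPowerSeries (Fin n) ℂ) :
    DB j Q 0 (MvPowerSeries.subst Θ c) := fun v => by
  rw [MvPowerSeries.coeff_subst hs]
  refine finsum_mem_addSubgroup _ fun d => dg_smul _ ?_
  rw [Finsupp.prod_fintype _ _ fun i => pow_zero _]
  exact DB.prod _ (fun i _ => (hg i).pow (d i)) v

theorem DB.cz [Finite τ] {j : τ} {Q : ℕ} {m : ℤ} {g : MvPowerSeries τ (RatFunc ℂ)}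
    (hg : DB j Q m g) (ε : τ → ℤ) : cz ε g ∈ dg Q (ε j + m) := by
  rcases cz_cases ε with ⟨v, hv⟩ | ⟨i, hi⟩
  · rw [cz_coe hv, ← hv j]
    exact hg v
  · rw [cz_neg hi]
    exact (dg Q _).zero_mem

end ARL

end MPb07157
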