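import Pool.Agent.Lib.MP_b07157_agR.E1

/-!
# The differential equations at `s = -3/d`, if `3 ∑ m_i = d`
-/

noncomputable section

namespace MPb07157.TR

open MvPolynomial TL

variable {F : Type} [Field F] [Algebra L0 F] [Algebra ℂ F] [IsScalarTower ℂ L0 F]
  {ι : Type} [Fintype ι] [DecidableEq ι]
  {f : MvPolynomial (Fin 3) ℂ} {d : ℕ} {b : Polynomial ℂ} {K : ℕ}
  {θ : Fin 3 → MvPolynomial (Fin 3) (Polynomial ℂ)}
  {t0 : ℂ} {c : ι → L0} {m : ι → ℕ} {A0 : L0} {α : ι → L0} {γ : L0}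

/-- The differential equations at `s = -3/d`. -/
theorem eq1 (hf : f.IsHomogeneous d) (h : Thet f d b K θ) (W : WF L0 F)
    (hF : Fac f (HahnSeries.C t0 + tau) c m A0) (hd : 0 < d) (h1 : 3 * ∑ i, m i = d)
    (hα : Cl1 f d K θ W (HahnSeries.C t0 + tau) c m α γ) :
    dtau γ + HahnSeries.C (s0 d) * (dtau A0 / A0) * γ = HahnSeries.C (b.eval (s0 d)) ∧
    ∃ κ κ' : L0, ∀ i, eps dtau c (s0m d m) α (HahnSeries.C (s0 d) * (dtau A0 / A0)) i -
      γ * dtau (c i) = κ + κ' * c i := by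
  obtain ⟨T, hT⟩ := exists_TF W dtau
  obtain ⟨hσ, hsum, hσ0⟩ := wRes_s0 (L := L0) hd hF.pos h1
  have hdC : (d : ℂ) ≠ 0 := Nat.cast_ne_zero.mpr hd.ne'
  obtain ⟨r, hr, hV1⟩ := hα
  have hds : (d : ℂ) * s0 d + 3 = 0 := by
    unfold s0
    field_simp
    ring
  have htt : T.dt (algebraMap L0 F (HahnSeries.C t0 + tau)) = 1 := by
    rw [T.dt_alg, hT, map_add, EQ0aux.dtau_tau, ← algebraMap_L0, Derivation.map_algebraMap, zero_add,
      map_one]
  have hwt : (W.dw.restrictScalars ℂ) (algebraMap L0 F (HahnSeries.C t0 + tau)) = 0 :=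
    W.dw.map_algebraMap _
  have hl : W.w ≠ algebraMap ℂ F 0 := by
    have h3 := w_ne W (0 : L0)
    rwa [map_zero] at h3 ⊢
  have hE := euler_part hf h (dt := T.dt) (dw := W.dw.restrictScalars ℂ) (w := W.w)
    (t := algebraMap L0 F (HahnSeries.C t0 + tau)) W.dw_w hwt T.dt_w htt (g_ne W hF)
    (lam := 0) hl (s0 d)
  rw [hds, map_zero, zero_mul, zero_mul, add_zero, sub_zero] at hE
  rw [omega_t0 T hF (s0 d), hT] at hE
  have hE2 : algebraMap ℂ F (s0 d) *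
      ((W.dw.restrictScalars ℂ) (aeval (pt W.w (algebraMap L0 F (HahnSeries.C t0 + tau))) f) /
        aeval (pt W.w (algebraMap L0 F (HahnSeries.C t0 + tau))) f) =
      lg W c (s0m d m) := omega_w0 W hF (s0 d)
  rw [hE2] at hE
  have hδ : ∀ i, T.δ ((s0m d m : ι → L0) i) = 0 := fun i => T.δ.map_algebraMap _
  set V₂ : F := (aeval (pt W.w (algebraMap L0 F (HahnSeries.C t0 + tau))) f)⁻¹ ^ K *
    (aeval (pt W.w (algebraMap L0 F (HahnSeries.C t0 + tau))) (spec (s0 d) (θ 0)) -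
      W.w * aeval (pt W.w (algebraMap L0 F (HahnSeries.C t0 + tau))) (spec (s0 d) (θ 1)))
    with hV₂
  have hw : W.w ∈ SS W c := Algebra.subset_adjoin (Set.mem_insert _ _)
  have hV₂m : V₂ ∈ SS W c :=
    (SS W c).mul_mem ((SS W c).pow_mem (g_inv_mem W hF) K)
      ((SS W c).sub_mem (pt_mem W _) ((SS W c).mul_mem hw (pt_mem W _)))
  have e6 : algebraMap L0 F (HahnSeries.C (b.eval (s0 d))) = algebraMap ℂ F (b.eval (s0 d)) := by
    rw [IsScalarTower.algebraMap_apply ℂ L0 F, algebraMap_L0]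
  rw [← e6] at hE
  obtain ⟨h3, κ, κ', h4⟩ := eqE1 T hF.inj hσ hsum hδ (A := HahnSeries.C (s0 d) * (dtau A0 / A0))
    (α := α) (γ := γ) (b0 := HahnSeries.C (b.eval (s0 d))) (V₂ := V₂) hV₂m hr hV1 hE
  rw [hT] at h3 h4
  refine ⟨h3, κ, κ', fun i => ?_⟩
  exact sub_eq_zero.mp ((mul_eq_zero.mp (h4 i)).resolve_left (hσ0 i))

/-- The class of the vector field exists. -/
theorem exists_cl1 {L F' : Type} [Field L] [Field F'] [Algebra L F'] [Algebra ℂ L] [Algebra ℂ F']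
    [IsScalarTower ℂ L F'] (W : WF L F') {t : L} {c : ι → L} {A0 : L} (hF : Fac f t c m A0)
    (hd : 0 < d) (h1 : 3 * ∑ i, m i = d) :
    ∃ (α : ι → L) (γ : L), Cl1 f d K θ W t c m α γ := by
  obtain ⟨hσ, -, hσ0⟩ := wRes_s0 (L := L) hd hF.pos h1
  obtain ⟨D, g, a, hD, hr⟩ := hermite1 W hF.inj (fun i => Polynomial.C (m i : ℂ) * Polynomial.X)
    (B1 f K θ W.w (algebraMap L F' t)) (B1_mem W hF K θ)
  have hev : (fun i => algebraMap ℂ L ((Polynomial.C (m i : ℂ) * Polynomial.X).eval (s0 d))) =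
      (s0m d m : ι → L) := by
    funext i
    unfold s0m
    rw [Polynomial.eval_mul, Polynomial.eval_C, Polynomial.eval_X, mul_comm]
  have hD0 : D.eval (s0 d) ≠ 0 := hD (s0 d) (by rw [hev]; exact hσ)
  obtain ⟨r, hr1, hr2⟩ := hr (s0 d)
  rw [hev] at hr2
  have hDL : algebraMap ℂ L (D.eval (s0 d)) ≠ 0 :=
    (map_ne_zero_iff _ (algebraMap ℂ L).injective).mpr hD0
  have hDF : algebraMap L F' (algebraMap ℂ L (D.eval (s0 d))) ≠ 0 :=
    (map_ne_zero_iff _ (algebraMap L F').injective).mpr hDL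
  refine ⟨fun i => (a i).eval (algebraMap ℂ L (s0 d)) /
    (algebraMap ℂ L (D.eval (s0 d)) * s0m d m i),
    (algebraMap ℂ L (D.eval (s0 d)))⁻¹ * g.eval (algebraMap ℂ L (s0 d)),
    algebraMap L F' (algebraMap ℂ L (D.eval (s0 d)))⁻¹ * r,
    (SS W c).mul_mem ((SS W c).algebraMap_mem _) hr1, ?_⟩
  have e1 : lg W c (fun i => s0m d m i * ((a i).eval (algebraMap ℂ L (s0 d)) /
      (algebraMap ℂ L (D.eval (s0 d)) * s0m d m i))) =
      algebraMap L F' (algebraMap ℂ L (D.eval (s0 d)))⁻¹ *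
        lg W c (fun i => (a i).eval (algebraMap ℂ L (s0 d))) := by
    unfold lg
    rw [Finset.mul_sum]
    refine Finset.sum_congr rfl fun i _ => ?_
    have e2 : (s0m d m i : L) * ((a i).eval (algebraMap ℂ L (s0 d)) /
      (algebraMap ℂ L (D.eval (s0 d)) * s0m d m i)) =
        (algebraMap ℂ L (D.eval (s0 d)))⁻¹ * (a i).eval (algebraMap ℂ L (s0 d)) := by
      have := hσ0 i
      field_simp
    beta_reduce
    rw [e2, map_mul, mul_assoc]
  have e3 : nb W.dw (lg W c (s0m d m))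
      (algebraMap L F' (algebraMap ℂ L (D.eval (s0 d)))⁻¹ * r) =
      algebraMap L F' (algebraMap ℂ L (D.eval (s0 d)))⁻¹ * nb W.dw (lg W c (s0m d m)) r := by
    unfold nb
    rw [Derivation.leibniz, W.dw.map_algebraMap, smul_zero, add_zero, smul_eq_mul]
    ring
  rw [e1, e3, map_mul, ← mul_add, ← mul_add, ← hr2, IsScalarTower.algebraMap_apply ℂ L F' (s0 d),
    map_inv₀, inv_mul_cancel_left₀ hDF]

end MPb07157.TR
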