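import Pool.Agent.Lib.MP_b07157_agR.Cor

/-!
# The residue lemma with control of the antiderivatives
-/

noncomputable section

namespace MPb07157

namespace ARL

section

variable {A : Type} [CommRing A] [Algebra ℂ A] {n : ℕ}

/-- **The abstract residue lemma**, with a weaker hypothesis on the functionals. -/
theorem residue' {V Λ : Type} [AddCommGroup V] {θ : MvPowerSeries (Fin n) ℂ →ₐ[ℂ] A}
    {D : Fin n → Derivation ℂ A A} (hD : ∀ a b h, D a (D b h) = D b (D a h))
    (hch : ∀ a h, D a (θ h) = ∑ i, θ (MvPowerSeries.pderiv ℂ i h) * D a (θ (MvPowerSeries.X i)))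
    {f : MvPowerSeries (Fin n) ℂ} {s : ℂ} {ρ : ℕ → Λ → A →+ V} {lam : Λ → Fin n → A}
    (h1 : ∀ k L h, ρ (k + 1) L (θ f * h) = ρ k L h)
    (h2 : ∀ k L i a c, ρ (k + 1) L
      (θ f * D a ((jm D fun i => θ (MvPowerSeries.X i)).adjugate i a * θ c) +
        (algebraMap ℂ A s + 1 - (k : A)) * D a (θ f) *
          ((jm D fun i => θ (MvPowerSeries.X i)).adjugate i a * θ c)) =
      -ρ k L (lam L a * ((jm D fun i => θ (MvPowerSeries.X i)).adjugate i a * θ c)))
    (h3 : ∀ L c, ρ 0 L ((jm D fun i => θ (MvPowerSeries.X i)).det * θ c) = 0)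
    (h4 : ∀ L i, ∃ (L' : Λ) (l : ℂ), ∀ k h,
      ρ k L ((∑ a, lam L a * (jm D fun i => θ (MvPowerSeries.X i)).adjugate i a) * h) =
        ρ k L' (algebraMap ℂ A l * (jm D fun i => θ (MvPowerSeries.X i)).det * h))
    {k : ℕ} {g : Polynomial (MvPowerSeries (Fin n) ℂ)} (hg : InPs f k g) :
    ∀ L c, ρ k L ((jm D fun i => θ (MvPowerSeries.X i)).det *
      θ (c * g.eval (MvPowerSeries.C s))) = 0 := by
  set X : Fin n → A := fun i => θ (MvPowerSeries.X i) with hX
  set J := (jm D X).det with hJ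
  induction hg with
  | base => intro L c; rw [Polynomial.eval_one, mul_one]; exact h3 L c
  | add _ _ ih1 ih2 =>
    intro L c
    rw [Polynomial.eval_add, mul_add, map_add, mul_add, map_add, ih1, ih2, add_zero]
  | mul c' _ ih =>
    intro L c
    rw [Polynomial.eval_mul, ← mul_assoc]
    exact ih L _
  | raise _ ih =>
    intro L c
    rw [Polynomial.eval_mul, Polynomial.eval_C, mul_left_comm, map_mul θ, mul_left_comm, h1]
    exact ih L c
  | lower _ ih =>
    intro L c
    have h := ih L c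
    rw [Polynomial.eval_mul, Polynomial.eval_C, mul_left_comm, map_mul θ, mul_left_comm, h1] at h
    exact h
  | @deriv k g i _ ih =>
    intro L c
    rw [Polynomial.eval_add, Polynomial.eval_mul, Polynomial.eval_mul, Polynomial.eval_mul,
      Polynomial.eval_C, Polynomial.eval_C, Polynomial.eval_sub, Polynomial.eval_add,
      Polynomial.eval_X, Polynomial.eval_one, Polynomial.eval_natCast, eval_C_derivC]
    set G₀ := g.eval (MvPowerSeries.C s) with hG₀
    set G := θ G₀ with hG
    set κ : A := algebraMap ℂ A s + 1 - (k : A) with hκ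
    have hsC : θ (MvPowerSeries.C s + 1 - (k : MvPowerSeries (Fin n) ℂ)) = κ := by
      rw [map_sub, map_add, map_one, map_natCast]
      congr 2
      exact θ.commutes s
    set Y : Fin n → A := fun a => (jm D X).adjugate i a * θ c with hY
    have e1 : ∑ a, (jm D X).adjugate i a * D a G = J * θ (MvPowerSeries.pderiv ℂ i G₀) :=
      sum_adjugate_mul D X (fun a => hch a G₀) i
    have e2 : ∑ a, (jm D X).adjugate i a * D a (θ f) = J * θ (MvPowerSeries.pderiv ℂ i f) :=
      sum_adjugate_mul D X (fun a => hch a f) i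
    have e3 : ∑ a, (jm D X).adjugate i a * D a (θ c) = J * θ (MvPowerSeries.pderiv ℂ i c) :=
      sum_adjugate_mul D X (fun a => hch a c) i
    have e4 : ∑ a, D a (Y a) = J * θ (MvPowerSeries.pderiv ℂ i c) := by
      rw [← e3]
      have e5 : ∀ a, D a (Y a) = (jm D X).adjugate i a * D a (θ c) +
          θ c * D a ((jm D X).adjugate i a) := by
        intro a
        rw [hY]
        simp only []
        rw [Derivation.leibniz, smul_eq_mul, smul_eq_mul]
      rw [Finset.sum_congr rfl fun a _ => e5 a, Finset.sum_add_distrib, ← Finset.mul_sum,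
        piola hD, mul_zero, add_zero]
    have e6 : J * θ (c * (f * MvPowerSeries.pderiv ℂ i G₀ +
        (MvPowerSeries.C s + 1 - (k : MvPowerSeries (Fin n) ℂ)) *
          MvPowerSeries.pderiv ℂ i f * G₀)) =
        ∑ a, (θ f * D a (G * Y a) + κ * D a (θ f) * (G * Y a)) -
          θ f * (J * θ (MvPowerSeries.pderiv ℂ i c * G₀)) := by
      have e7 : ∀ a, θ f * D a (G * Y a) + κ * D a (θ f) * (G * Y a) =
          θ f * θ c * ((jm D X).adjugate i a * D a G) + θ f * G * D a (Y a) +
            κ * G * θ c * ((jm D X).adjugate i a * D a (θ f)) := by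
        intro a
        rw [Derivation.leibniz, smul_eq_mul, smul_eq_mul]
        rw [hY]
        ring
      rw [Finset.sum_congr rfl fun a _ => e7 a, Finset.sum_add_distrib, Finset.sum_add_distrib,
        ← Finset.mul_sum, ← Finset.mul_sum, ← Finset.mul_sum, e1, e2, e4, map_mul, map_add,
        map_mul, map_mul, map_mul, hsC, map_mul]
      ring
    rw [e6, map_sub, map_sum, h1, ih L, sub_zero]
    have e8 : ∀ a, ρ (k + 1) L (θ f * D a (G * Y a) + κ * D a (θ f) * (G * Y a)) =
        -ρ k L (lam L a * (G * Y a)) := by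
      intro a
      have h := h2 k L i a (c * G₀)
      have e12 : (jm D X).adjugate i a * θ (c * G₀) = G * Y a := by
        rw [map_mul θ, hY, hG]
        ring
      rw [e12] at h
      exact h
    rw [Finset.sum_congr rfl fun a _ => e8 a, Finset.sum_neg_distrib, ← map_sum, neg_eq_zero]
    have e9 : ∑ a, lam L a * (G * Y a) =
        (∑ a, lam L a * (jm D X).adjugate i a) * (G * θ c) := by
      rw [Finset.sum_mul]
      refine Finset.sum_congr rfl fun a _ => ?_
      rw [hY]
      ring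
    obtain ⟨L', l, hl⟩ := h4 L i
    rw [e9, hl]
    have e10 := ih L' (MvPowerSeries.C l * c)
    rw [map_mul θ, map_mul θ] at e10
    have e11 : θ (MvPowerSeries.C l) = algebraMap ℂ A l := θ.commutes l
    rw [e11] at e10
    rw [← e10]
    congr 1
    ring

/-- The conclusion for a Bernstein–Sato polynomial. -/
theorem residue_b' {V Λ : Type} [AddCommGroup V] {θ : MvPowerSeries (Fin n) ℂ →ₐ[ℂ] A}
    {D : Fin n → Derivation ℂ A A} (hD : ∀ a b h, D a (D b h) = D b (D a h))
    (hch : ∀ a h, D a (θ h) = ∑ i, θ (MvPowerSeries.pderiv ℂ i h) * D a (θ (MvPowerSeries.X i)))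
    {f : MvPowerSeries (Fin n) ℂ} {s : ℂ} {ρ : ℕ → Λ → A →+ V} {lam : Λ → Fin n → A}
    (h1 : ∀ k L h, ρ (k + 1) L (θ f * h) = ρ k L h)
    (h2 : ∀ k L i a c, ρ (k + 1) L
      (θ f * D a ((jm D fun i => θ (MvPowerSeries.X i)).adjugate i a * θ c) +
        (algebraMap ℂ A s + 1 - (k : A)) * D a (θ f) *
          ((jm D fun i => θ (MvPowerSeries.X i)).adjugate i a * θ c)) =
      -ρ k L (lam L a * ((jm D fun i => θ (MvPowerSeries.X i)).adjugate i a * θ c)))
    (h3 : ∀ L c, ρ 0 L ((jm D fun i => θ (MvPowerSeries.X i)).det * θ c) = 0)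
    (h4 : ∀ L i, ∃ (L' : Λ) (l : ℂ), ∀ k h,
      ρ k L ((∑ a, lam L a * (jm D fun i => θ (MvPowerSeries.X i)).adjugate i a) * h) =
        ρ k L' (algebraMap ℂ A l * (jm D fun i => θ (MvPowerSeries.X i)).det * h))
    {b : Polynomial ℂ} (hb : InPs f 1 (b.map (MvPowerSeries.C (σ := Fin n) (R := ℂ))))
    (hs : b.eval s ≠ 0) (L : Λ) (c : MvPowerSeries (Fin n) ℂ) :
    ρ 1 L ((jm D fun i => θ (MvPowerSeries.X i)).det * θ c) = 0 := by
  have e := residue' hD hch h1 h2 h3 h4 hb L (c * MvPowerSeries.C ((b.eval s)⁻¹))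
  rw [Polynomial.eval_map_apply, mul_assoc, ← map_mul, inv_mul_cancel₀ hs, map_one,
    mul_one] at e
  exact e

end

variable {R τ β : Type} [CommRing R] [Algebra ℂ R] [Fintype β]

/-- The exact elements with antiderivatives in `P`. -/
def exP (δ : β → Derivation ℂ R R) (s : ℂ) (ψ : β → R) (P : β → AddSubgroup R) :
    AddSubgroup R where
  carrier := {x | ∃ r : β → R, (∀ b, r b ∈ P b) ∧
    x = ∑ b, (δ b (r b) + algebraMap ℂ R s * ψ b * r b)}
  zero_mem' := ⟨fun _ => 0, fun b => (P b).zero_mem, by simp⟩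
  add_mem' := by
    rintro x y ⟨r, hr, rfl⟩ ⟨t, ht, rfl⟩
    refine ⟨fun b => r b + t b, fun b => (P b).add_mem (hr b) (ht b), ?_⟩
    rw [← Finset.sum_add_distrib]
    exact Finset.sum_congr rfl fun b _ => by rw [map_add]; ring
  neg_mem' := by
    rintro x ⟨r, hr, rfl⟩
    refine ⟨fun b => -r b, fun b => (P b).neg_mem (hr b), ?_⟩
    rw [← Finset.sum_neg_distrib]
    exact Finset.sum_congr rfl fun b _ => by rw [map_neg]; ring

theorem single_mem_exP [DecidableEq β] (δ : β → Derivation ℂ R R) (s : ℂ) (ψ : β → R)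
    {P : β → AddSubgroup R} (b : β) {c : R} (hc : c ∈ P b) :
    δ b c + algebraMap ℂ R s * ψ b * c ∈ exP δ s ψ P := by
  refine ⟨fun b' => if b' = b then c else 0, fun b' => ?_, ?_⟩
  · dsimp only
    split_ifs with h
    · rw [h]; exact hc
    · exact (P b').zero_mem
  · rw [Finset.sum_eq_single b]
    · dsimp only
      rw [if_pos rfl]
    · intro b' _ hb
      dsimp only
      rw [if_neg hb, map_zero, mul_zero, add_zero]
    · intro hb
      exact absurd (Finset.mem_univ b) hb

/-- **The residue lemma** with control of the antiderivatives. The rows are logarithmic derivations `y_j d/dy_j` of `R[[y]]` and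
derivations of `R`; `F₁` is a unit, `H` is the power `F₁^s` up to a factor in `R` with logarithmic
derivatives `-s ψ`, and `x^ℓ` is a monomial twist. -/
theorem residue_instP [Finite τ] {n : ℕ} (e : Fin n → τ ⊕ β) {δ : β → Derivation ℂ R R}
    (hδ : ∀ b b' a, δ b (δ b' a) = δ b' (δ b a))
    {θ : MvPowerSeries (Fin n) ℂ →ₐ[ℂ] MvPowerSeries τ R}
    (hθ : ∀ i, MvPowerSeries.constantCoeff (θ (MvPowerSeries.X i)) = 0)
    {f : MvPowerSeries (Fin n) ℂ} {N : τ →₀ ℕ} {F₁ : (MvPowerSeries τ R)ˣ}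
    (hF : θ f = MvPowerSeries.monomial N 1 * (F₁ : MvPowerSeries τ R)) {s : ℂ} {ψ : β → R}
    {H : MvPowerSeries τ R}
    (hH1 : ∀ j, (F₁ : MvPowerSeries τ R) * lg j H =
      algebraMap ℂ (MvPowerSeries τ R) s * lg j (F₁ : MvPowerSeries τ R) * H)
    (hH2 : ∀ b, (F₁ : MvPowerSeries τ R) * cw (δ b) H = algebraMap ℂ (MvPowerSeries τ R) s *
      (cw (δ b) (F₁ : MvPowerSeries τ R) - MvPowerSeries.C (ψ b) * (F₁ : MvPowerSeries τ R)) * H)
    {Mon : Finset (Fin n)} {M : Fin n → τ →₀ ℕ}
    (hM : ∀ i ∈ Mon, θ (MvPowerSeries.X i) = MvPowerSeries.monomial (M i) 1)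
    {l : Fin n → ℂ} {ε : τ → ℤ}
    (hε : ∀ j, (ε j : ℂ) + (s + 1) * N j + ∑ i ∈ Mon, l i * M i j = 0)
    {j₀ : τ} {m : ℕ}
    (hm : MvPowerSeries.X j₀ ^ m ∣
      (jm (fun a => rowD δ (e a)) fun i => θ (MvPowerSeries.X i)).det)
    (hj₀ : ε j₀ < m) (hMj : ∀ i ∈ Mon, M i j₀ = 0)
    {b : Polynomial ℂ} (hb : InPs f 1 (b.map (MvPowerSeries.C (σ := Fin n) (R := ℂ))))
    (hs : b.eval s ≠ 0) {P : β → AddSubgroup R}
    (hP : ∀ k L i a b' c, e a = Sum.inr b' → cz (epsR N Mon M ε k L) (wG F₁ H k *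
      ((jm (fun a => rowD δ (e a)) fun i => θ (MvPowerSeries.X i)).adjugate i a * θ c)) ∈ P b')
    (c : MvPowerSeries (Fin n) ℂ) :
    ∃ r : β → R, (∀ b, r b ∈ P b) ∧ cz (fun j => ε j + N j)
      (H * ((jm (fun a => rowD δ (e a)) fun i => θ (MvPowerSeries.X i)).det * θ c)) =
      ∑ b, (δ b (r b) + algebraMap ℂ R s * ψ b * r b) := by
  classical
  set J := (jm (fun a => rowD δ (e a)) fun i => θ (MvPowerSeries.X i)).det with hJ
  set G := wG F₁ H with hG
  set ρ : ℕ → (Fin n → ℕ) → MvPowerSeries τ R →+ R ⧸ exP δ s ψ P := fun k L =>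
    (QuotientAddGroup.mk' (exP δ s ψ P)).comp ((cz (epsR N Mon M ε k L)).comp
      (AddMonoidHom.mulLeft (G k))) with hρ
  have hρa : ∀ k L h, ρ k L h = QuotientAddGroup.mk' (exP δ s ψ P)
      (cz (epsR N Mon M ε k L) (G k * h)) := fun k L h => rfl
  have hsucc : ∀ k L, epsR N Mon M ε (k + 1) L = fun j => epsR N Mon M ε k L j + N j := by
    intro k L
    funext j
    unfold epsR
    push_cast
    ring
  have hGs : ∀ k, (F₁ : MvPowerSeries τ R) * G (k + 1) = G k := fun k => wG_succ F₁ H k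
  -- the exponents
  have hexp : ∀ k L j, (epsR N Mon M ε k L j : ℂ) + (s + 1 - k) * N j = -tw Mon M l L j := by
    intro k L j
    have h1 := hε j
    have h2 : ∑ i ∈ Mon, (l i - L i) * (M i j : ℂ) =
        ∑ i ∈ Mon, l i * (M i j : ℂ) - ∑ i ∈ Mon, (L i : ℂ) * M i j := by
      rw [← Finset.sum_sub_distrib]
      exact Finset.sum_congr rfl fun i _ => by ring
    unfold epsR tw
    rw [h2]
    push_cast
    linear_combination h1
  have hcast : ∀ (k : ℕ) (L : Fin n → ℕ) (j : τ),
      ((epsR N Mon M ε k L j : ℤ) : R) + (algebraMap ℂ R s + 1 - (k : R)) * (N j : R) =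
        -algebraMap ℂ R (tw Mon M l L j) := by
    intro k L j
    rw [← map_neg, ← hexp k L j, map_add, map_mul, map_sub, map_add, map_one, map_natCast,
      map_natCast, map_intCast]
  have A1 : ∀ k L h, ρ (k + 1) L (θ f * h) = ρ k L h := by
    intro k L h
    rw [hρa, hρa, hF, hsucc]
    congr 1
    have h1 : G (k + 1) * (MvPowerSeries.monomial N 1 * (F₁ : MvPowerSeries τ R) * h) =
        MvPowerSeries.monomial N 1 * (G k * h) := by
      rw [← hGs k]; ring
    rw [h1, cz_monomial_mul]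
  have A2 : ∀ k L i a c, ρ (k + 1) L (θ f * rowD δ (e a)
      ((jm (fun a => rowD δ (e a)) fun i => θ (MvPowerSeries.X i)).adjugate i a * θ c) +
      (algebraMap ℂ (MvPowerSeries τ R) s + 1 - (k : MvPowerSeries τ R)) *
        rowD δ (e a) (θ f) *
          ((jm (fun a => rowD δ (e a)) fun i => θ (MvPowerSeries.X i)).adjugate i a * θ c)) =
      -ρ k L (lamR e Mon M l L a *
        ((jm (fun a => rowD δ (e a)) fun i => θ (MvPowerSeries.X i)).adjugate i a * θ c)) := by
    intro k L i a c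
    have hPk := fun b' => hP k L i a b' c
    generalize hgen : (jm (fun a => rowD δ (e a)) fun i => θ (MvPowerSeries.X i)).adjugate i a *
      θ c = h at hPk ⊢
    rw [hρa, hρa, hsucc]
    rcases hea : e a with j | b'
    · -- logarithmic row
      have h1 : lamR e Mon M l L a = algebraMap ℂ (MvPowerSeries τ R) (tw Mon M l L j) := by
        unfold lamR
        rw [hea]
      have hd : lg j (G k) = (algebraMap ℂ (MvPowerSeries τ R) s + 1 - (k : MvPowerSeries τ R)) *
          lg j (F₁ : MvPowerSeries τ R) * G (k + 1) := by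
        have h2 := deriv_wG (lg j) F₁ (H := H) (S := algebraMap ℂ (MvPowerSeries τ R) s) (Ψ := 0)
          (by rw [hH1 j]; ring) k
        rw [h2]
        ring
      have h3 : G (k + 1) * (θ f * rowD δ (Sum.inl j) h +
          (algebraMap ℂ (MvPowerSeries τ R) s + 1 - (k : MvPowerSeries τ R)) *
            rowD δ (Sum.inl j) (θ f) * h) =
          MvPowerSeries.monomial N 1 * (lg j (G k * h) +
            MvPowerSeries.C ((algebraMap ℂ R s + 1 - (k : R)) * (N j : R)) * (G k * h)) := by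
        have h4 : (MvPowerSeries.C ((algebraMap ℂ R s + 1 - (k : R)) * (N j : R)) :
            MvPowerSeries τ R) = (algebraMap ℂ (MvPowerSeries τ R) s + 1 -
              (k : MvPowerSeries τ R)) * (N j : MvPowerSeries τ R) := by
          rw [map_mul, map_sub, map_add, map_one, map_natCast, map_natCast,
            MvPowerSeries.algebraMap_apply]
        rw [h4, hF]
        simp only [rowD]
        rw [Derivation.leibniz, Derivation.leibniz, lg_monomial, hd, smul_eq_mul, smul_eq_mul,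
          smul_eq_mul, smul_eq_mul, ← hGs k]
        ring
      rw [h3, cz_monomial_mul, map_add, cz_lg, cz_C_mul, ← add_mul, hcast, h1]
      have h5 : G k * (algebraMap ℂ (MvPowerSeries τ R) (tw Mon M l L j) * h) =
          algebraMap ℂ (MvPowerSeries τ R) (tw Mon M l L j) * (G k * h) := by ring
      rw [h5, cz_algebraMap_mul, neg_mul, map_neg]
    · -- row of a derivation of the coefficients
      have h1 : (lamR e Mon M l L a : MvPowerSeries τ R) = 0 := by
        unfold lamR
        rw [hea]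
      have hd : cw (δ b') (G k) =
          (algebraMap ℂ (MvPowerSeries τ R) s + 1 - (k : MvPowerSeries τ R)) *
          cw (δ b') (F₁ : MvPowerSeries τ R) * G (k + 1) -
          algebraMap ℂ (MvPowerSeries τ R) s * MvPowerSeries.C (ψ b') * G k :=
        deriv_wG (cw (δ b')) F₁ (hH2 b') k
      have h3 : G (k + 1) * (θ f * rowD δ (Sum.inr b') h +
          (algebraMap ℂ (MvPowerSeries τ R) s + 1 - (k : MvPowerSeries τ R)) *
            rowD δ (Sum.inr b') (θ f) * h) =
          MvPowerSeries.monomial N 1 * (cw (δ b') (G k * h) +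
            MvPowerSeries.C (algebraMap ℂ R s * ψ b') * (G k * h)) := by
        have h4 : (MvPowerSeries.C (algebraMap ℂ R s * ψ b') : MvPowerSeries τ R) =
            algebraMap ℂ (MvPowerSeries τ R) s * MvPowerSeries.C (ψ b') := by
          rw [map_mul, MvPowerSeries.algebraMap_apply]
        rw [h4, hF]
        simp only [rowD]
        rw [Derivation.leibniz, Derivation.leibniz, cw_monomial, hd, smul_eq_mul, smul_eq_mul,
          smul_eq_mul, smul_eq_mul, ← hGs k]
        ring
      rw [h3, cz_monomial_mul, map_add, cz_cw, cz_C_mul, h1, zero_mul, mul_zero, map_zero,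
        map_zero, neg_zero]
      exact (QuotientAddGroup.eq_zero_iff _).2 (single_mem_exP δ s ψ b' (hPk b' hea))
  have A3 : ∀ L c, ρ 0 L (J * θ c) = 0 := by
    intro L c
    rw [hρa]
    have h1 : cz (epsR N Mon M ε 0 L) (G 0 * (J * θ c)) = 0 := by
      refine cz_of_dvd (j := j₀) (m := m) (Dvd.dvd.mul_left (Dvd.dvd.mul_right hm _) _) ?_
      unfold epsR
      rw [Finset.sum_eq_zero fun i hi => by rw [hMj i hi]; simp]
      push_cast
      linarith
    rw [h1, map_zero]
  have A4 : ∀ L i, ∃ (L' : Fin n → ℕ) (l' : ℂ), ∀ k h,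
      ρ k L ((∑ a, lamR e Mon M l L a *
        (jm (fun a => rowD δ (e a)) fun i => θ (MvPowerSeries.X i)).adjugate i a) * h) =
        ρ k L' (algebraMap ℂ (MvPowerSeries τ R) l' * J * h) := by
    intro L i
    by_cases hi : i ∈ Mon
    · refine ⟨fun i' => if i' = i then L i' + 1 else L i', l i - L i, fun k h => ?_⟩
      rw [hρa, hρa]
      congr 1
      have h1 := twist_mem e δ hM l L hi
      have h0 : ∀ j, ∑ i' ∈ Mon, (if i' = i then L i' + 1 else L i') * M i' j =
          ∑ i' ∈ Mon, L i' * M i' j + M i j := by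
        intro j
        rw [← Finset.add_sum_erase _ _ hi, ← Finset.add_sum_erase _ (fun i => L i * M i j) hi,
          if_pos rfl, Finset.sum_congr rfl fun i' hi' => by
            rw [if_neg (Finset.ne_of_mem_erase hi')]]
        ring
      have h2 : epsR N Mon M ε k (fun i' => if i' = i then L i' + 1 else L i') =
          fun j => epsR N Mon M ε k L j + M i j := by
        funext j
        have h3 := congrArg (Nat.cast (R := ℤ)) (h0 j)
        unfold epsR
        push_cast at h3 ⊢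
        rw [h3]
        ring
      rw [h2, ← cz_monomial_mul (M i), ← hM i hi]
      congr 1
      linear_combination (G k * h) * h1
    · refine ⟨L, 0, fun k h => ?_⟩
      rw [twist_notMem e δ hM l L hi, map_zero, zero_mul, zero_mul, zero_mul]
  have hfin := residue_b' (fun a b h => rowD_comm hδ (e a) (e b) h)
    (fun a h => chain hθ (rowD δ (e a)) h) A1 A2 A3 A4 hb hs (fun _ => 0) c
  rw [hρa] at hfin
  have h1 : epsR N Mon M ε 1 (fun _ => 0) = fun j => ε j + N j := by
    funext j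
    unfold epsR
    simp
  rw [h1, hG, wG_one] at hfin
  exact (QuotientAddGroup.eq_zero_iff _).1 hfin

/-- Roots of power series with constant coefficient one. -/
theorem exists_root' {N : ℕ} (hN : 0 < N) {U : MvPowerSeries τ R}
    (hU : MvPowerSeries.constantCoeff U = 1) :
    ∃ S S' : PowerSeries ℂ, S * S' = 1 ∧
      MvPowerSeries.constantCoeff (PowerSeries.subst (U - 1) S : MvPowerSeries τ R) = 1 ∧
      (PowerSeries.subst (U - 1) S : MvPowerSeries τ R) ^ N = U := by
  have hG0 : MvPowerSeries.constantCoeff (U - 1) = 0 := by rw [map_sub, hU, map_one, sub_self]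
  have hs : PowerSeries.HasSubst (U - 1) := PowerSeries.HasSubst.of_constantCoeff_zero hG0
  set B : PowerSeries ℂ := PowerSeries.binomialSeries ℂ ((1 : ℚ) / N) with hB
  have hpow : ∀ m : ℕ, B ^ m = PowerSeries.binomialSeries ℂ ((m : ℚ) * (1 / N)) := by
    intro m
    induction m with
    | zero => simp
    | succ m ih =>
      rw [pow_succ, ih, hB, ← PowerSeries.binomialSeries_add]
      congr 1
      push_cast
      ring
  have hBN : B ^ N = 1 + PowerSeries.X := by
    have hN0 : (N : ℚ) ≠ 0 := by exact_mod_cast hN.ne'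
    rw [hpow N, mul_one_div_cancel hN0]
    have := PowerSeries.binomialSeries_nat (R := ℚ) (A := ℂ) 1
    rw [pow_one, Nat.cast_one] at this
    exact this
  have h1' : PowerSeries.subst (U - 1) (1 : PowerSeries ℂ) = (1 : MvPowerSeries τ R) := by
    rw [← PowerSeries.coe_substAlgHom hs, map_one]
  have hBu : IsUnit B := by
    refine isUnit_of_dvd_unit (y := B ^ N) (dvd_pow_self B hN.ne') ?_
    rw [hBN, PowerSeries.isUnit_iff_constantCoeff, map_add, map_one, PowerSeries.constantCoeff_X,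
      add_zero]
    exact isUnit_one
  obtain ⟨B', hB'⟩ := hBu.exists_right_inv
  refine ⟨B, B', hB', ?_, ?_⟩
  · have h1 : B = 1 + PowerSeries.X * PowerSeries.mk fun p => PowerSeries.coeff (p + 1) B := by
      conv_lhs => rw [PowerSeries.eq_X_mul_shift_add_const B]
      rw [add_comm, ← PowerSeries.coeff_zero_eq_constantCoeff_apply, hB,
        PowerSeries.binomialSeries_coeff]
      simp
    rw [h1, PowerSeries.subst_add hs, PowerSeries.subst_mul hs, PowerSeries.subst_X hs,
      h1', map_add, map_mul, hG0, zero_mul, add_zero, map_one]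
  · rw [← PowerSeries.subst_pow hs, hBN, PowerSeries.subst_add hs, PowerSeries.subst_X hs, h1',
      add_sub_cancel]

/-- The logarithmic derivative of `U^(-ν/N)`. -/
theorem exists_power' {ν N : ℕ} (hN : 0 < N) {U : MvPowerSeries τ R}
    (hU : MvPowerSeries.constantCoeff U = 1) {s : ℂ} (hs : s = -((ν : ℂ) / N)) :
    ∃ W : MvPowerSeries τ R, (∃ S : PowerSeries ℂ, W = PowerSeries.subst (U - 1) S) ∧
      MvPowerSeries.constantCoeff W = 1 ∧
      ∀ D : Derivation ℂ (MvPowerSeries τ R) (MvPowerSeries τ R),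
        U * D W = algebraMap ℂ (MvPowerSeries τ R) s * D U * W := by
  obtain ⟨S, S', hSS, hH1, hHN⟩ := exists_root' hN hU
  have hs' : PowerSeries.HasSubst (U - 1) := PowerSeries.HasSubst.of_constantCoeff_zero
    (by rw [map_sub, hU, map_one, sub_self])
  set H := (PowerSeries.subst (U - 1) S : MvPowerSeries τ R) with hH
  have hu : IsUnit H := by
    rw [MvPowerSeries.isUnit_iff_constantCoeff, hH1]
    exact isUnit_one
  obtain ⟨H', hH'⟩ := hu
  have hWS : ((H'⁻¹ : (MvPowerSeries τ R)ˣ) : MvPowerSeries τ R) =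
      PowerSeries.subst (U - 1) S' := by
    have e1 : PowerSeries.subst (U - 1) S' * (H' : MvPowerSeries τ R) = 1 := by
      rw [mul_comm, hH', hH, ← PowerSeries.subst_mul hs', hSS, ← PowerSeries.coe_substAlgHom hs',
        map_one]
    exact (Units.eq_inv_of_mul_eq_one_right e1).symm
  rw [← hH'] at hH1 hHN
  clear_value H
  clear hH
  have hinv : MvPowerSeries.constantCoeff ((H'⁻¹ : (MvPowerSeries τ R)ˣ) : MvPowerSeries τ R) = 1 := by
    have h1 : ((H'⁻¹ : (MvPowerSeries τ R)ˣ) : MvPowerSeries τ R) * (H' : MvPowerSeries τ R) = 1 :=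
      Units.inv_mul _
    have h2 := congrArg MvPowerSeries.constantCoeff h1
    rwa [map_mul, hH1, mul_one, map_one] at h2
  refine ⟨((H'⁻¹ : (MvPowerSeries τ R)ˣ) : MvPowerSeries τ R) ^ ν, ⟨S' ^ ν, ?_⟩, ?_,
    fun D => ?_⟩
  · rw [hWS, PowerSeries.subst_pow hs']
  · rw [map_pow, hinv, one_pow]
  · have h1 := deriv_inv_pow D H' ν
    have h2 : (N : MvPowerSeries τ R) * (H' : MvPowerSeries τ R) ^ N * D (H' : MvPowerSeries τ R) =
        (H' : MvPowerSeries τ R) * D U := by
      rw [← hHN, Derivation.leibniz_pow, nsmul_eq_mul, smul_eq_mul]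
      obtain ⟨N', rfl⟩ : ∃ N', N = N' + 1 := ⟨N - 1, by omega⟩
      rw [Nat.add_sub_cancel]
      ring
    rw [hHN] at h2
    have hsN : algebraMap ℂ (MvPowerSeries τ R) s * (N : MvPowerSeries τ R) =
        -(ν : MvPowerSeries τ R) := by
      rw [← map_natCast (algebraMap ℂ (MvPowerSeries τ R)) N, ← map_mul, hs,
        ← map_natCast (algebraMap ℂ (MvPowerSeries τ R)) ν, ← map_neg]
      congr 1
      have hNC : (N : ℂ) ≠ 0 := by exact_mod_cast hN.ne'
      field_simp
    have hNinv : algebraMap ℂ (MvPowerSeries τ R) ((N : ℂ)⁻¹) * (N : MvPowerSeries τ R) = 1 := by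
      rw [← map_natCast (algebraMap ℂ (MvPowerSeries τ R)) N, ← map_mul, inv_mul_cancel₀, map_one]
      exact_mod_cast hN.ne'
    set V := ((H'⁻¹ : (MvPowerSeries τ R)ˣ) : MvPowerSeries τ R) with hV
    have hVH : V * (H' : MvPowerSeries τ R) = 1 := Units.inv_mul _
    -- `N H U DW = - ν H DU W`
    have h3 : (N : MvPowerSeries τ R) * (H' : MvPowerSeries τ R) * (U * D (V ^ ν)) =
        (N : MvPowerSeries τ R) * (H' : MvPowerSeries τ R) *
          (algebraMap ℂ (MvPowerSeries τ R) s * D U * V ^ ν) := by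
      linear_combination ((N : MvPowerSeries τ R) * U) * h1 -
        ((ν : MvPowerSeries τ R) * V ^ ν) * h2 -
        ((H' : MvPowerSeries τ R) * D U * V ^ ν) * hsN
    have h4 : ∀ x : MvPowerSeries τ R, algebraMap ℂ (MvPowerSeries τ R) ((N : ℂ)⁻¹) * V *
        ((N : MvPowerSeries τ R) * (H' : MvPowerSeries τ R) * x) = x := by
      intro x
      linear_combination (V * (H' : MvPowerSeries τ R) * x) * hNinv + x * hVH
    rw [← h4 (U * D (V ^ ν)), h3, h4]

omit [Fintype β] in
/-- The weight `(F₁/φ)^s`. -/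
theorem exists_weight' {ν D : ℕ} (hD : 0 < D) {F₁ : MvPowerSeries τ R} {φ : Rˣ}
    (hφ : MvPowerSeries.constantCoeff F₁ = φ) {s : ℂ} (hs : s = -((ν : ℂ) / D))
    (δ : β → Derivation ℂ R R) :
    ∃ H : MvPowerSeries τ R, (∃ S : PowerSeries ℂ, H = PowerSeries.subst
        (MvPowerSeries.C ((φ⁻¹ : Rˣ) : R) * F₁ - 1) S) ∧
      MvPowerSeries.constantCoeff H = 1 ∧
      (∀ j, F₁ * lg j H = algebraMap ℂ (MvPowerSeries τ R) s * lg j F₁ * H) ∧
      ∀ b, F₁ * cw (δ b) H = algebraMap ℂ (MvPowerSeries τ R) s *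
        (cw (δ b) F₁ - MvPowerSeries.C (((φ⁻¹ : Rˣ) : R) * δ b φ) * F₁) * H := by
  have hφφ : ((φ⁻¹ : Rˣ) : R) * (φ : R) = 1 := Units.inv_mul φ
  have hφC : (MvPowerSeries.C ((φ⁻¹ : Rˣ) : R) : MvPowerSeries τ R) *
      MvPowerSeries.C (φ : R) = 1 := by rw [← map_mul, hφφ, map_one]
  obtain ⟨W, hWS, hW1, hW⟩ := exists_power' hD (U := MvPowerSeries.C ((φ⁻¹ : Rˣ) : R) * F₁)
    (by rw [map_mul, MvPowerSeries.constantCoeff_C, hφ, hφφ]) hs
  refine ⟨W, hWS, hW1, fun j => ?_, fun b => ?_⟩
  · have h1 := hW (lg j)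
    rw [Derivation.leibniz, lg_C, smul_zero, add_zero, smul_eq_mul] at h1
    linear_combination (MvPowerSeries.C (φ : R)) * h1 -
      (F₁ * lg j W - algebraMap ℂ (MvPowerSeries τ R) s * lg j F₁ * W) * hφC
  · have h1 := hW (cw (δ b))
    rw [Derivation.leibniz, cw_C, smul_eq_mul, smul_eq_mul, deriv_unit_inv, map_neg, map_mul,
      map_pow] at h1
    rw [map_mul]
    linear_combination (MvPowerSeries.C (φ : R)) * h1 -
      (F₁ * cw (δ b) W - algebraMap ℂ (MvPowerSeries τ R) s * cw (δ b) F₁ * W +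
        algebraMap ℂ (MvPowerSeries τ R) s * F₁ * MvPowerSeries.C ((φ⁻¹ : Rˣ) : R) *
          MvPowerSeries.C (δ b φ) * W) * hφC

/-- **The residue lemma at a corner**, with control of the antiderivatives. If the monomials of `θ(f) = y^N F₁`, of the Jacobian
`y^E J'` and of the twist `x^ℓ` cancel (`E + s N + ℓ = 0`), then the leading coefficient of the
Jacobian is exact in `R`. -/
theorem residue_cornerP [Finite τ] {n : ℕ} (e : Fin n → τ ⊕ β) {δ : β → Derivation ℂ R R}
    (hδ : ∀ b b' a, δ b (δ b' a) = δ b' (δ b a))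
    {θ : MvPowerSeries (Fin n) ℂ →ₐ[ℂ] MvPowerSeries τ R}
    (hθ : ∀ i, MvPowerSeries.constantCoeff (θ (MvPowerSeries.X i)) = 0)
    {f : MvPowerSeries (Fin n) ℂ} {N : τ →₀ ℕ} {F₁ : MvPowerSeries τ R}
    (hF : θ f = MvPowerSeries.monomial N 1 * F₁) {φ : Rˣ}
    (hφ : MvPowerSeries.constantCoeff F₁ = φ) {ν D : ℕ} (hD : 0 < D) {s : ℂ}
    (hs : s = -((ν : ℂ) / D))
    {Mon : Finset (Fin n)} {M : Fin n → τ →₀ ℕ}
    (hM : ∀ i ∈ Mon, θ (MvPowerSeries.X i) = MvPowerSeries.monomial (M i) 1)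
    {l : Fin n → ℂ} {E : τ →₀ ℕ} {J' : MvPowerSeries τ R}
    (hJ : (jm (fun a => rowD δ (e a)) fun i => θ (MvPowerSeries.X i)).det =
      MvPowerSeries.monomial E 1 * J')
    (hE : ∀ j, (E j : ℂ) + s * N j + ∑ i ∈ Mon, l i * M i j = 0)
    {j₀ : τ} (hj₀ : 0 < N j₀) (hMj : ∀ i ∈ Mon, M i j₀ = 0)
    {b : Polynomial ℂ} (hb : InPs f 1 (b.map (MvPowerSeries.C (σ := Fin n) (R := ℂ))))
    (hbs : b.eval s ≠ 0) {P : β → AddSubgroup R}
    (hP : ∀ (H : MvPowerSeries τ R) (F₂ : (MvPowerSeries τ R)ˣ),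
      (F₂ : MvPowerSeries τ R) = F₁ →
      (∃ S : PowerSeries ℂ, H = PowerSeries.subst
        (MvPowerSeries.C ((φ⁻¹ : Rˣ) : R) * F₁ - 1) S) →
      ∀ k L i a b' c, e a = Sum.inr b' →
      cz (epsR N Mon M (fun j => (E j : ℤ) - N j) k L) (wG F₂ H k *
      ((jm (fun a => rowD δ (e a)) fun i => θ (MvPowerSeries.X i)).adjugate i a * θ c)) ∈ P b') :
    ∃ r : β → R, (∀ b, r b ∈ P b) ∧ MvPowerSeries.constantCoeff J' =
      ∑ b, (δ b (r b) + algebraMap ℂ R s * (((φ⁻¹ : Rˣ) : R) * δ b φ) * r b) := by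
  classical
  obtain ⟨H, hHS, hH0, hH1, hH2⟩ := exists_weight' (τ := τ) hD hφ hs δ
  have hu : IsUnit F₁ := by
    rw [MvPowerSeries.isUnit_iff_constantCoeff, hφ]
    exact φ.isUnit
  obtain ⟨F₂, rfl⟩ := hu
  have hm : MvPowerSeries.X j₀ ^ (E j₀) ∣
      (jm (fun a => rowD δ (e a)) fun i => θ (MvPowerSeries.X i)).det := by
    rw [hJ]
    refine Dvd.dvd.mul_right ?_ _
    rw [MvPowerSeries.X_pow_dvd_iff]
    intro v hv
    rw [MvPowerSeries.coeff_monomial, if_neg]
    rintro rfl
    exact lt_irrefl _ hv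
  obtain ⟨r, hrP, hr⟩ := residue_instP e hδ hθ hF hH1 hH2 hM (l := l)
    (ε := fun j => (E j : ℤ) - N j) (fun j => by
      have := hE j
      push_cast
      linear_combination this) (j₀ := j₀) (m := E j₀) hm
      (by have : (0 : ℤ) < N j₀ := by exact_mod_cast hj₀
          omega) hMj hb hbs (hP H F₂ rfl hHS) 1
  refine ⟨r, hrP, ?_⟩
  rw [← hr, cz_coe (v := E) (fun j => by ring), map_one, mul_one, hJ]
  have h1 : H * (MvPowerSeries.monomial E 1 * J') = MvPowerSeries.monomial E 1 * (H * J') := by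
    ring
  rw [h1]
  have h2 := MvPowerSeries.coeff_add_monomial_mul E 0 (H * J') (1 : R)
  rw [add_zero, one_mul, MvPowerSeries.coeff_zero_eq_constantCoeff_apply] at h2
  rw [h2, map_mul, hH0, one_mul]

end ARL

end MPb07157
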