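import Mathlib

/-!
# Two special lines: the constants are equal, if the sum of the exponents is `-1`
-/

noncomputable section

namespace MPb07157

namespace TR

variable {K : Type*} [Field K] [Algebra ℂ K] {ι : Type*} [Fintype ι]

/-- The equations for the constants `z_ij`: `p`, `g` are constants and `κ` is a function. -/
structure Zq (δ : Derivation ℂ K K) (t : K) (c : ι → K) (σ : ι → ℂ) (z : ι → ι → ℂ)
    (p g : ℂ) (κ : K) : Prop where
  hc : Function.Injective c
  sum : ∑ i, σ i = -1
  coc : ∀ i j k, algebraMap ℂ K (z i j) * (c i - c j) + algebraMap ℂ K (z j k) * (c j - c k) =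
    algebraMap ℂ K (z i k) * (c i - c k)
  eq : ∀ i k, algebraMap ℂ K (z i k * (1 + p)) * (c i - c k) +
    algebraMap ℂ K (z i k) * (t * (δ (c i) - δ (c k))) +
    t * ∑ l, algebraMap ℂ K (σ l) * (algebraMap ℂ K (z i l) * (δ (c i) - δ (c l)) -
      algebraMap ℂ K (z k l) * (δ (c k) - δ (c l))) -
    algebraMap ℂ K g * (t * (δ (c i) - δ (c k))) = κ * (c i - c k)

variable {δ : Derivation ℂ K K} {t : K} {c : ι → K} {σ : ι → ℂ} {z : ι → ι → ℂ}
  {p g : ℂ} {κ : K}

theorem Zq.symm (h : Zq δ t c σ z p g κ) {i j : ι} (hij : i ≠ j) : z i j = z j i := by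
  have h1 := h.coc i j i
  have h2 : c i - c j ≠ 0 := sub_ne_zero.2 fun h5 => hij (h.hc h5)
  have h3 : (algebraMap ℂ K (z i j) - algebraMap ℂ K (z j i)) * (c i - c j) = 0 := by
    linear_combination h1
  exact (algebraMap ℂ K).injective (sub_eq_zero.1 ((mul_eq_zero.1 h3).resolve_right h2))

/-- If a triple is not constant, the triangle has a constant shape. -/
theorem Zq.shape (h : Zq δ t c σ z p g κ) {i j k : ι} (hij : i ≠ j) (_hik : i ≠ k)
    (_hjk : j ≠ k) : (∃ μ : ℂ, c k - c i = algebraMap ℂ K μ * (c j - c i)) ∨ z i j = z i k := by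
  have h0 : algebraMap ℂ K (z j k - z i j) * (c j - c i) =
      algebraMap ℂ K (z j k - z i k) * (c k - c i) := by
    have h1 := h.coc i j k
    rw [map_sub, map_sub]
    linear_combination h1
  by_cases h1 : z j k = z i k
  · right
    have h2 := h0
    rw [h1, sub_self, map_zero, zero_mul, mul_eq_zero] at h2
    rcases h2 with h2 | h2
    · rw [map_eq_zero_iff _ (algebraMap ℂ K).injective, sub_eq_zero] at h2
      exact h2.symm
    · exact absurd (h.hc (sub_eq_zero.1 h2)) hij.symm
  · left
    refine ⟨(z j k - z i j) / (z j k - z i k), ?_⟩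
    have h3 : algebraMap ℂ K (z j k - z i k) ≠ 0 := by
      rw [Ne, map_eq_zero_iff _ (algebraMap ℂ K).injective]
      exact sub_ne_zero.2 h1
    rw [map_div₀, div_mul_eq_mul_div, h0, mul_div_assoc, mul_div_cancel₀ _ h3]

/-- **All constants are equal.** -/
theorem Zq.const (h : Zq δ t c σ z p g κ) (hp : 1 + p ≠ 0) {i j k l : ι} (hij : i ≠ j)
    (hkl : k ≠ l) : z i j = z k l := by
  classical
  -- two pairs with a common index
  have key : ∀ i j k : ι, i ≠ j → i ≠ k → z i j = z i k := by
    intro i j k hij hik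
    by_contra hne
    have hjk : j ≠ k := fun h1 => hne (by rw [h1])
    -- all differences are constant multiples of `y`
    obtain ⟨y, hy⟩ : ∃ y, y = c j - c i := ⟨_, rfl⟩
    have hy0 : y ≠ 0 := by
      rw [hy]
      exact sub_ne_zero.2 fun h1 => hij (h.hc h1).symm
    have hk : ∃ μ : ℂ, c k - c i = algebraMap ℂ K μ * y := by
      rw [hy]
      exact (h.shape hij hik hjk).resolve_right hne
    obtain ⟨μk, hμk⟩ := hk
    have hall : ∀ l, ∃ μ : ℂ, c l - c i = algebraMap ℂ K μ * y := by
      intro l
      by_cases hli : l = i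
      · exact ⟨0, by rw [hli, sub_self, map_zero, zero_mul]⟩
      by_cases hlj : l = j
      · exact ⟨1, by rw [hlj, map_one, one_mul, hy]⟩
      by_cases hlk : l = k
      · exact ⟨μk, by rw [hlk]; exact hμk⟩
      rcases h.shape hij (Ne.symm hli) (Ne.symm hlj) with h1 | h1
      · rw [hy]
        exact h1
      · rcases h.shape hik (Ne.symm hli) (Ne.symm hlk) with ⟨ν, h2⟩ | h2
        · exact ⟨ν * μk, by rw [h2, hμk, map_mul]; ring⟩
        · exact absurd (h1.trans h2.symm) hne
    choose μ hμ using hall
    have hcc : ∀ l l', c l - c l' = algebraMap ℂ K (μ l - μ l') * y := by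
      intro l l'
      rw [map_sub]
      linear_combination hμ l - hμ l'
    have hdc : ∀ l l', δ (c l) - δ (c l') = algebraMap ℂ K (μ l - μ l') * δ y := by
      intro l l'
      rw [← map_sub, hcc, Derivation.leibniz, Derivation.map_algebraMap, smul_zero, add_zero,
        smul_eq_mul]
    -- the numbers `a`
    have hμi : μ i = 0 := by
      have h1 := hμ i
      rw [sub_self] at h1
      have h2 := (mul_eq_zero.1 h1.symm).resolve_right hy0
      exact (map_eq_zero_iff _ (algebraMap ℂ K).injective).1 h2
    have hβμ : ∀ l l', z l l' * (μ l - μ l') = z l i * μ l - z l' i * μ l' := by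
      intro l l'
      have h1 := h.coc l l' i
      rw [hcc, hcc, hcc, hμi, sub_zero, sub_zero] at h1
      have h2 : (algebraMap ℂ K (z l l' * (μ l - μ l')) -
          algebraMap ℂ K (z l i * μ l - z l' i * μ l')) * y = 0 := by
        simp only [map_mul, map_sub] at h1 ⊢
        linear_combination h1
      have h3 := (mul_eq_zero.1 h2).resolve_right hy0
      exact (algebraMap ℂ K).injective (sub_eq_zero.1 h3)
    -- the equation
    have hE : ∀ l, algebraMap ℂ K (μ l) * (algebraMap ℂ K (z l i * (1 + p)) * y -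
        algebraMap ℂ K g * (t * δ y)) = algebraMap ℂ K (μ l) * (κ * y) := by
      intro l
      have h1 := h.eq l i
      have h2 : ∑ l', algebraMap ℂ K (σ l') * (algebraMap ℂ K (z l l') * (δ (c l) - δ (c l')) -
          algebraMap ℂ K (z i l') * (δ (c i) - δ (c l'))) =
          -(algebraMap ℂ K (z l i * μ l) * δ y) := by
        have h3 : ∀ l', algebraMap ℂ K (σ l') * (algebraMap ℂ K (z l l') * (δ (c l) - δ (c l')) -
            algebraMap ℂ K (z i l') * (δ (c i) - δ (c l'))) =
            algebraMap ℂ K (σ l') * (algebraMap ℂ K (z l i * μ l) * δ y) := by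
          intro l'
          rw [hdc, hdc]
          have h4 := congrArg (algebraMap ℂ K) (hβμ l l')
          have h5 := congrArg (algebraMap ℂ K) (hβμ i l')
          rw [hμi, mul_zero, zero_sub] at h5
          simp only [map_mul, map_sub, map_neg] at h4 h5 ⊢
          rw [hμi]
          simp only [map_zero] at h5 ⊢
          linear_combination (algebraMap ℂ K (σ l') * δ y) * (h4 - h5)
        rw [Finset.sum_congr rfl fun l' _ => h3 l', ← Finset.sum_mul, ← map_sum, h.sum, map_neg,
          map_one]
        ring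
      rw [h2, hcc, hdc, hμi, sub_zero] at h1
      simp only [map_mul] at h1 ⊢
      linear_combination h1
    have hμj : μ j ≠ 0 := by
      intro h1
      have h2 := hμ j
      rw [h1, map_zero, zero_mul] at h2
      exact hij (h.hc (sub_eq_zero.1 h2)).symm
    have hμk0 : μ k ≠ 0 := by
      intro h1
      have h2 := hμ k
      rw [h1, map_zero, zero_mul] at h2
      exact hik (h.hc (sub_eq_zero.1 h2)).symm
    have hn : ∀ {x : ℂ}, x ≠ 0 → algebraMap ℂ K x ≠ 0 := fun hx => by
      rwa [Ne, map_eq_zero_iff _ (algebraMap ℂ K).injective]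
    have e1 := mul_left_cancel₀ (hn hμj) (hE j)
    have e2 := mul_left_cancel₀ (hn hμk0) (hE k)
    rw [h.symm hij.symm] at e1
    rw [h.symm hik.symm] at e2
    have e4 : algebraMap ℂ K ((z i j - z i k) * (1 + p)) * y = 0 := by
      simp only [map_mul, map_sub] at e1 e2 ⊢
      linear_combination e1 - e2
    have e5 := (mul_eq_zero.1 e4).resolve_right hy0
    rw [map_eq_zero_iff _ (algebraMap ℂ K).injective] at e5
    exact hne (sub_eq_zero.1 ((mul_eq_zero.1 e5).resolve_right hp))
  by_cases hik : i = k
  · subst hik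
    exact key i j l hij hkl
  · rw [key i j k hij hik, h.symm hik, key k i l (Ne.symm hik) hkl]

/-- The equation for the differences. -/
theorem Zq.ode (h : Zq δ t c σ z p g κ) (hp : 1 + p ≠ 0) {i0 j0 : ι} (h0 : i0 ≠ j0)
    (hz : z i0 j0 = 0) (i k : ι) :
    algebraMap ℂ K g * (t * (δ (c i) - δ (c k))) = -(κ * (c i - c k)) := by
  have hall : ∀ i j, algebraMap ℂ K (z i j) * (δ (c i) - δ (c j)) = 0 := by
    intro i j
    by_cases hij : i = j
    · rw [hij, sub_self, mul_zero]
    · rw [h.const hp hij h0, hz, map_zero, zero_mul]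
  have h1 := h.eq i k
  have h2 : ∑ l, algebraMap ℂ K (σ l) * (algebraMap ℂ K (z i l) * (δ (c i) - δ (c l)) -
      algebraMap ℂ K (z k l) * (δ (c k) - δ (c l))) = 0 :=
    Finset.sum_eq_zero fun l _ => by rw [hall, hall, sub_self, mul_zero]
  have h3 : algebraMap ℂ K (z i k * (1 + p)) * (c i - c k) = 0 := by
    by_cases hik : i = k
    · rw [hik, sub_self, mul_zero]
    · rw [h.const hp hik h0, hz, zero_mul, map_zero, zero_mul]
  have h4 : algebraMap ℂ K (z i k) * (t * (δ (c i) - δ (c k))) = 0 := by
    rw [mul_left_comm, hall, mul_zero]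
  rw [h2, h3, h4] at h1
  linear_combination -h1

end TR

end MPb07157
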