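import Pool.Agent.Lib.MP_b07157_agR.Glob
import Pool.Agent.Lib.MP_b07157_agR.Map1

/-!
# The expansions of the global vector field, if `3 ∑ m_i = d`
-/

noncomputable section

namespace MPb07157.TR

open MvPolynomial TL

variable {f : MvPolynomial (Fin 3) ℂ} {d : ℕ} {b : Polynomial ℂ} {K : ℕ}
  {θ : Fin 3 → MvPolynomial (Fin 3) (Polynomial ℂ)} {n : ℕ}
  {c : Fin n → KK f} {m : Fin n → ℕ} {A0 : KK f} {α : Fin n → KK f} {γ : KK f}
  {W : WF (KK f) (RatFunc (KK f))}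

/-- The difference quotients. -/
def xx (c α : Fin n → KK f) (i j : Fin n) : KK f := (α i - α j) / (c i - c j)

theorem map_xx (φ : KK f →+* L0) (i j : Fin n) :
    φ (xx c α i j) = xi (fun i => φ (c i)) (fun i => φ (α i)) i j := by
  unfold xx xi
  rw [map_div₀, map_sub, map_sub]

theorem Glob1.fac (G : Glob1 f d b K θ c m A0 α γ W) {t0 : ℂ} {φ : KK f →+* L0}
    (hφ : IsPl t0 φ) : Fac f (HahnSeries.C t0 + tau) (fun i => φ (c i)) m (φ A0) :=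
  Glob.facL G.hF hφ

theorem Glob1.cl' (G : Glob1 f d b K θ c m A0 α γ W) {t0 : ℂ} {φ : KK f →+* L0}
    (hφ : IsPl t0 φ) (W0 : WF L0 F0) :
    Cl1 f d K θ W0 (HahnSeries.C t0 + tau) (fun i => φ (c i)) m (fun i => φ (α i)) (φ γ) := by
  have h1 := G.cl.map W0 φ hφ.alg
  unfold tK at h1
  rwa [hφ.2] at h1

/-- The expansions at the finite places. -/
theorem Glob1.regular (G : Glob1 f d b K θ c m A0 α γ W) {t0 : ℂ} {φ : KK f →+* L0}
    (hφ : IsPl t0 φ) {i j : Fin n} (hij : i ≠ j) :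
    0 ≤ (φ γ).orderTop ∧ ∀ k l, k ≠ l → 0 ≤ (φ (xx c α i j - xx c α k l)).orderTop := by
  obtain ⟨W0⟩ := exists_WF0
  have h1 := regular1 G.hf G.h W0 (G.fac hφ) G.hd G.h1 (G.cl' hφ W0) hij
  refine ⟨h1.1.1, fun k l hkl => ?_⟩
  rw [map_sub, map_xx, map_xx]
  exact (h1.2 k l hkl).1

/-- The expansions at the special lines. -/
theorem Glob1.regularL (G : Glob1 f d b K θ c m A0 α γ W) (hC : Ch f K (θ 1))
    {t0 : ℂ} {φ : KK f →+* L0} (hφ : IsPl t0 φ) (hs : SpecL f 1 t0) {i j : Fin n}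
    (hij : i ≠ j) : ((1 : ℚ) : WithTop ℚ) ≤ (φ γ).orderTop ∧
      ∀ k l, k ≠ l → ((1 : ℚ) : WithTop ℚ) ≤ (φ (xx c α i j - xx c α k l)).orderTop := by
  obtain ⟨W0⟩ := exists_WF0
  rcases hs with hs | ⟨hs, hs'⟩
  · have h1 := regular1 G.hf G.h W0 (G.fac hφ) G.hd G.h1 (G.cl' hφ W0) hij
    refine ⟨h1.1.2 hs, fun k l hkl => ?_⟩
    rw [map_sub, map_xx, map_xx]
    exact (h1.2 k l hkl).2 hs
  · have h1 := regularB1 G.hf G.h hC W0 (G.fac hφ) G.hd G.h1 (G.cl' hφ W0)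
      (by rw [hs, G.sum]) hs' hij
    refine ⟨h1.1, fun k l hkl => ?_⟩
    rw [map_sub, map_xx, map_xx]
    exact h1.2 k l hkl

/-- The expansions at infinity. -/
theorem Glob1.inf0 (G : Glob1 f d b K θ c m A0 α γ W) {φ : KK f →+* L0}
    (hφ : IsPlInf φ) {i j : Fin n} (hij : i ≠ j) :
    ((-2 : ℚ) : WithTop ℚ) ≤ (φ γ).orderTop := by
  obtain ⟨W0⟩ := exists_WF0
  have h1 := G.hF.map φ hφ.alg
  have h2 := G.cl.map W0 φ hφ.alg
  unfold tK at h1 h2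
  rw [hφ.2] at h1 h2
  exact regular_inf01 G.hf G.h W0 h1 G.hd G.h1 h2 hij

/-- The expansions at infinity, if the line at infinity is special. -/
theorem Glob1.infL (G : Glob1 f d b K θ c m A0 α γ W) (hC : Ch (TL.sw f) K (TL.sw (θ 2)))
    {φ : KK f →+* L0} (hφ : IsPlInf φ) (hs : SpecL f 0 1) {i j : Fin n} (hij : i ≠ j) :
    ((-1 : ℚ) : WithTop ℚ) ≤ (φ γ).orderTop ∧
      ∀ k l, k ≠ l → ((-1 : ℚ) : WithTop ℚ) ≤ (φ (xx c α i j - xx c α k l)).orderTop := by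
  obtain ⟨W0⟩ := exists_WF0
  have h1 := G.hF.map φ hφ.alg
  have h2 := G.cl.map W0 φ hφ.alg
  unfold tK at h1 h2
  rw [hφ.2] at h1 h2
  rcases hs with hs | ⟨hs, hs'⟩
  · have h3 := regular_inf1 G.hf G.h W0 h1 G.hd G.h1 h2 hs hij
    refine ⟨h3.1, fun k l hkl => ?_⟩
    rw [map_sub, map_xx, map_xx]
    exact h3.2 k l hkl
  · have h3 := regular_infB1 G.hf G.h hC W0 h1 G.hd G.h1 h2 (by rw [hs, G.sum]) hs' hij
    refine ⟨h3.1, fun k l hkl => ?_⟩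
    rw [map_sub, map_xx, map_xx]
    exact h3.2 k l hkl

/-- The differential equations. -/
theorem Glob1.eq (G : Glob1 f d b K θ c m A0 α γ W) {t0 : ℂ} {φ : KK f →+* L0}
    (hφ : IsPl t0 φ) :
    dtau (φ γ) + HahnSeries.C (s0 d) * (dtau (φ A0) / φ A0) * φ γ =
      HahnSeries.C (b.eval (s0 d)) ∧
    ∃ κ κ' : L0, ∀ i, eps dtau (fun i => φ (c i)) (s0m d m) (fun i => φ (α i))
      (HahnSeries.C (s0 d) * (dtau (φ A0) / φ A0)) i - φ γ * dtau (φ (c i)) =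
      κ + κ' * φ (c i) := by
  obtain ⟨W0⟩ := exists_WF0
  exact eq1 G.hf G.h W0 (G.fac hφ) G.hd G.h1 (G.cl' hφ W0)

/-- A function which is regular and vanishes at the lines `t = 0` and `t = ∞` is a multiple
of `t`. -/
theorem const_mul (hf : f.IsHomogeneous d) (y : KK f)
    (h0 : ∀ (t0 : ℂ) (φ : KK f →+* L0), IsPl t0 φ → 0 ≤ (φ y).orderTop)
    (h1 : ∀ φ : KK f →+* L0, IsPl 0 φ → ((1 : ℚ) : WithTop ℚ) ≤ (φ y).orderTop)
    (h2 : ∀ φ : KK f →+* L0, IsPlInf φ → ((-1 : ℚ) : WithTop ℚ) ≤ (φ y).orderTop) :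
    ∃ z : ℂ, y = algebraMap ℂ (KK f) z * tK f := by
  obtain ⟨z, hz⟩ := const_of_regular (y * (tK f)⁻¹) (by
    intro t0 φ hφ
    rw [map_mul, map_inv₀]
    have h3 : φ (tK f) = HahnSeries.C t0 + tau := hφ.2
    rw [h3]
    exact mul_inv_orderTop (h0 t0 φ hφ) (fun h => by
      subst h
      exact h1 φ hφ)) (by
    intro φ hφ
    rw [map_mul, map_inv₀]
    have h3 : φ (tK f) = tau⁻¹ := hφ.2
    rw [h3, inv_inv, HahnSeries.orderTop_mul, orderTop_tau]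
    refine le_trans ?_ (add_le_add_left (h2 φ hφ) _)
    rw [← WithTop.coe_add]
    norm_num) (exists_pl f) (exists_plInf hf)
  refine ⟨z, ?_⟩
  rw [algC, ← hz]
  have := tK_ne (f := f)
  field_simp

/-- Two special lines: `γ = g t`. -/
theorem Glob1.constG (G : Glob1 f d b K θ c m A0 α γ W) (hC1 : Ch f K (θ 1))
    (hC2 : Ch (TL.sw f) K (TL.sw (θ 2))) (hs1 : SpecL f 0 1) (hs2 : SpecL f 1 0) {i j : Fin n}
    (hij : i ≠ j) : ∃ g : ℂ, γ = algebraMap ℂ (KK f) g * tK f :=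
  const_mul G.hf γ (fun _ _ hφ => (G.regular hφ hij).1)
    (fun _ hφ => (G.regularL hC1 hφ hs2 hij).1) (fun _ hφ => (G.infL hC2 hφ hs1 hij).1)

/-- Two special lines: the differences of the difference quotients are `z t`. -/
theorem Glob1.constX (G : Glob1 f d b K θ c m A0 α γ W) (hC1 : Ch f K (θ 1))
    (hC2 : Ch (TL.sw f) K (TL.sw (θ 2))) (hs1 : SpecL f 0 1) (hs2 : SpecL f 1 0) {i j k l : Fin n}
    (hij : i ≠ j) (hkl : k ≠ l) :
    ∃ z : ℂ, xx c α i j - xx c α k l = algebraMap ℂ (KK f) z * tK f :=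
  const_mul G.hf _ (fun _ _ hφ => (G.regular hφ hij).2 k l hkl)
    (fun _ hφ => (G.regularL hC1 hφ hs2 hij).2 k l hkl)
    (fun _ hφ => (G.infL hC2 hφ hs1 hij).2 k l hkl)

end MPb07157.TR
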