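import Pool.Agent.Lib.MP_b07157_agR.E1
import Pool.Agent.Lib.MP_b07157_agL3.LTB

/-!
# The vector field vanishes at the lines which meet the curve outside `p` in one point, if
`3 ∑ m_i = d`
-/

noncomputable section

namespace MPb07157.TR

open MvPolynomial TL

variable {F : Type} [Field F] [Algebra L0 F] [Algebra ℂ F] [IsScalarTower ℂ L0 F]
  {ι : Type} [Fintype ι] [DecidableEq ι]
  {f : MvPolynomial (Fin 3) ℂ} {d : ℕ} {b : Polynomial ℂ} {K : ℕ}
  {θ : Fin 3 → MvPolynomial (Fin 3) (Polynomial ℂ)}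
  {t0 : ℂ} {c : ι → L0} {m : ι → ℕ} {A0 : L0} {α : ι → L0} {γ : L0}

namespace LB1aux

open LTaux LTBaux Haux

omit [Algebra ℂ F] [IsScalarTower ℂ L0 F] [DecidableEq ι] in
/-- `∇ w = (1 + ∑ σ) + ∑ σ_i c_i / (w - c_i)`. -/
theorem nb_w (W : WF L0 F) (c σ : ι → L0) :
    nb W.dw (lg W c σ) W.w =
      algebraMap L0 F (1 + ∑ i, σ i) + lg W c (fun i => σ i * c i) := by
  unfold nb lg
  rw [W.dw_w, map_add, map_one, map_sum, Finset.sum_mul, add_assoc, ← Finset.sum_add_distrib]
  congr 1
  refine Finset.sum_congr rfl fun i _ => ?_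
  have h := w_mul_u W c i
  unfold u at h
  rw [map_mul]
  linear_combination (algebraMap L0 F (σ i)) * h

end LB1aux

open LTaux LTBaux LB1aux

/-- The vector field vanishes at the lines which are not tangent at `p` and meet the curve
outside `p` in one point only. -/
theorem regularB1 (hf : f.IsHomogeneous d) (h : Thet f d b K θ) (hC : Ch f K (θ 1)) (W : WF L0 F)
    (hF : Fac f (HahnSeries.C t0 + tau) c m A0) (hd : 0 < d) (h1 : 3 * ∑ i, m i = d)
    (hα : Cl1 f d K θ W (HahnSeries.C t0 + tau) c m α γ)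
    (hU : (Uf f 1 t0).natDegree = ∑ i, m i)
    (hr : (Uf f 1 t0).roots.toFinset.card = 1) {i j : ι} (hij : i ≠ j) :
    ((1 : ℚ) : WithTop ℚ) ≤ γ.orderTop ∧
    ∀ k l, k ≠ l → ((1 : ℚ) : WithTop ℚ) ≤ (xi c α i j - xi c α k l).orderTop := by
  have hs0 := s0_ne hd
  have hm : 0 < ∑ i, m i := by omega
  have hds0 := d_mul_s0 hd
  obtain ⟨T, hT⟩ := exists_TF W dtau
  set t : F := algebraMap L0 F (HahnSeries.C t0 + tau) with ht
  set w : F := W.w with hw
  have hg : aeval (pt w t) f ≠ 0 := g_ne W hF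
  obtain ⟨j', p, u, hch⟩ := chart_part1 hC (dt := T.dt) (dw := W.dw.restrictScalars ℂ)
    (w := w) (t := t) W.dw_w (W.dw.map_algebraMap _) T.dt_w
    (by rw [ht, T.dt_alg, hT, dtau_T, map_one]) hg
  have htS : t ∈ TL.SS W c := Subalgebra.algebraMap_mem _ _
  have hwS : w ∈ TL.SS W c := Algebra.subset_adjoin (Set.mem_insert _ _)
  have hwt : ∀ q : MvPolynomial (Fin 2) (Polynomial ℂ), ∀ k,
      (EV ![w, t] q).coeff k ∈ TL.SS W c := by
    intro q
    induction q using MvPolynomial.induction_on with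
    | C z =>
      intro k
      unfold EV
      rw [coe_eval₂Hom, eval₂_C, Polynomial.coe_mapRingHom, Polynomial.coeff_map, algF]
      exact Subalgebra.algebraMap_mem _ _
    | add p q hp hq =>
      intro k
      rw [map_add, Polynomial.coeff_add]
      exact add_mem (hp k) (hq k)
    | mul_X p i hp =>
      intro k
      rw [map_mul]
      have h5 : EV ![w, t] (X i) = Polynomial.C (![w, t] i) := by
        unfold EV
        rw [coe_eval₂Hom, eval₂_X]
      rw [h5, Polynomial.coeff_mul_C]
      refine mul_mem (hp k) ?_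
      fin_cases i
      · exact hwS
      · exact htS
  -- Hermite reduction
  set A : Polynomial F := B1 f K θ w t +
    (Polynomial.C (d : F) * Polynomial.X + Polynomial.C 3) * UB f (K + j') u w t with hA
  have hAS : ∀ k, A.coeff k ∈ TL.SS W c := by
    intro k
    rw [hA, Polynomial.coeff_add]
    refine add_mem (B1_mem W hF K θ k) (coeff_lin_mul (fun k => ?_) (natCast_mem _ d) ?_ k)
    · unfold UB
      rw [Polynomial.coeff_C_mul]
      exact mul_mem (pow_mem (g_inv_mem W hF) _) (hwt _ _)
    · exact_mod_cast natCast_mem (TL.SS W c) 3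
  have hAev : ∀ s : ℂ, A.eval (algebraMap ℂ F s) = (B1 f K θ w t).eval (algebraMap ℂ F s) +
      algebraMap ℂ F (d * s + 3) * (UB f (K + j') u w t).eval (algebraMap ℂ F s) := by
    intro s
    rw [hA, Polynomial.eval_add, Polynomial.eval_mul, Polynomial.eval_add, Polynomial.eval_mul,
      Polynomial.eval_C, Polynomial.eval_C, Polynomial.eval_X, map_add, map_mul, map_natCast,
      map_ofNat]
  obtain ⟨D, g, a, hD, hred⟩ := hermite1 W hF.inj
    (fun i => Polynomial.C (m i : ℂ) * Polynomial.X) A hAS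
  have hsmP : ∀ s : ℂ, (fun i => algebraMap ℂ L0
      ((Polynomial.C (m i : ℂ) * Polynomial.X).eval s)) = sm m s := by
    intro s
    funext i
    unfold sm
    rw [Polynomial.eval_mul, Polynomial.eval_C, Polynomial.eval_X, mul_comm]
  have hsm0 : (sm m (s0 d) : ι → L0) = s0m d m := rfl
  -- the value at `s0`
  obtain ⟨hNR0, hsum0, hs0m⟩ := wRes_s0 (ι := ι) (L := L0) (m := m) hd hF.pos h1
  have hDs0 : D.eval (s0 d) ≠ 0 := hD _ (by rw [hsmP, hsm0]; exact hNR0)
  obtain ⟨r, hr', hB⟩ := hα
  obtain ⟨r0, hr0, hr0'⟩ := hred (s0 d)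
  rw [hsmP, ← IsScalarTower.algebraMap_apply ℂ L0 F (s0 d), hAev, hds0, map_zero, zero_mul,
    add_zero, hsm0] at hr0'
  have : CharZero L0 := charZero_of_injective_algebraMap (algebraMap ℂ L0).injective
  have hu := uniq1 W hF.inj hNR0 hsum0
    (a := fun i => (a i).eval (algebraMap ℂ L0 (s0 d)) +
      (-HahnSeries.C (D.eval (s0 d))) * (s0m d m i * α i))
    (γ := g.eval (algebraMap ℂ L0 (s0 d)) - HahnSeries.C (D.eval (s0 d)) * γ)
    (R := algebraMap L0 F (HahnSeries.C (D.eval (s0 d))) * r + algebraMap L0 F (-1) * r0)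
    (add_mem (mul_mem (Subalgebra.algebraMap_mem _ _) hr')
      (mul_mem (Subalgebra.algebraMap_mem _ _) hr0)) (by
      rw [LTaux.lg_add, LTaux.lg_smul, LTaux.nb_add, LTaux.nb_smul, LTaux.nb_smul, map_neg,
        map_neg, map_one, map_sub, map_mul]
      rw [hB, algebraMap_L0] at hr0'
      rw [algebraMap_L0]
      linear_combination -hr0')
  obtain ⟨hγ, κ, κ', hκ⟩ := hu
  have hmC : ∀ i, (m i : ℂ) ≠ 0 := fun i => by exact_mod_cast (hF.pos i).ne'
  set e : ℂ := ((∑ i, m i : ℕ) : ℂ) with he
  have heC : e ≠ 0 := by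
    rw [he]
    exact_mod_cast hm.ne'
  set Y : ι → ι → Polynomial L0 := fun i j => Polynomial.C (c i - c j)⁻¹ *
    (Polynomial.C (HahnSeries.C ((m i : ℂ)⁻¹)) * a i -
      Polynomial.C (HahnSeries.C ((m j : ℂ)⁻¹)) * a j) with hY
  have hYev : ∀ (s : ℂ) i j, (Y i j).eval (HahnSeries.C s) = (c i - c j)⁻¹ *
      (HahnSeries.C ((m i : ℂ)⁻¹) * (a i).eval (HahnSeries.C s) -
        HahnSeries.C ((m j : ℂ)⁻¹) * (a j).eval (HahnSeries.C s)) := by
    intro s i j
    rw [hY]
    simp only [Polynomial.eval_mul, Polynomial.eval_C, Polynomial.eval_sub]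
  have hbound : ∀ s : ℂ, (∀ q : ℚ, s ≠ (q : ℂ)) → ∀ i j : ι, i ≠ j →
      ((1 : ℚ) : WithTop ℚ) ≤ (HahnSeries.C (1 + s * e) * (Y i j).eval (HahnSeries.C s) -
        HahnSeries.C s * g.eval (HahnSeries.C s)).orderTop := by
    intro s hs i j hij
    have hsne : s ≠ 0 := by
      intro h0
      exact hs 0 (by rw [h0]; norm_num)
    have htau : 1 + s * e ≠ 0 := by
      intro h0
      apply hs (-(1 : ℚ) / ((∑ i, m i : ℕ) : ℚ))
      push_cast
      rw [he] at heC h0
      push_cast at heC h0
      rw [eq_div_iff heC]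
      linear_combination h0
    have hNR := nonRes_sm (m := m) hF.pos hs
    have hDs : D.eval s ≠ 0 := hD s (by
      rw [hsmP]
      exact ⟨hNR.1.1, fun k hk => hNR.1.2 k (by omega)⟩)
    obtain ⟨rs, hrs, hrs'⟩ := hred s
    rw [hsmP, ← IsScalarTower.algebraMap_apply ℂ L0 F s, hAev] at hrs'
    set Gs : L0 := g.eval (algebraMap ℂ L0 s) with hGs
    set as : ι → L0 := fun i => HahnSeries.C ((m i : ℂ)⁻¹ * s⁻¹ * (D.eval s)⁻¹) *
        (a i).eval (algebraMap ℂ L0 s) -
        HahnSeries.C ((D.eval s)⁻¹ * (1 + s * e)⁻¹) * Gs * c i with has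
    have h7 : ∀ i, sm m s i * as i =
        HahnSeries.C ((D.eval s)⁻¹) * (a i).eval (algebraMap ℂ L0 s) +
          (-(HahnSeries.C ((D.eval s)⁻¹ * (1 + s * e)⁻¹) * Gs)) * (sm m s i * c i) := by
      intro i
      have e1 : (HahnSeries.C (s * (m i : ℂ)) : L0) *
          HahnSeries.C ((m i : ℂ)⁻¹ * s⁻¹ * (D.eval s)⁻¹) = HahnSeries.C ((D.eval s)⁻¹) := by
        rw [← map_mul]
        congr 1
        have := hmC i
        field_simp
      rw [has]
      unfold sm
      simp only []
      rw [algebraMap_L0]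
      rw [← e1]
      ring
    have h8 : (B1 f K θ w t).eval (algebraMap ℂ F s) + algebraMap ℂ F (d * s + 3) *
        (UB f (K + j') u w t).eval (algebraMap ℂ F s) =
        lg W c (fun i => sm m s i * as i) +
          nb W.dw (lg W c (sm m s)) (algebraMap L0 F (HahnSeries.C ((D.eval s)⁻¹)) * rs +
            algebraMap L0 F (HahnSeries.C ((D.eval s)⁻¹ * (1 + s * e)⁻¹) * Gs) * W.w) := by
      have h9 : (fun i => sm m s i * as i) =
          fun i => HahnSeries.C ((D.eval s)⁻¹) * (a i).eval (algebraMap ℂ L0 s) +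
          (-(HahnSeries.C ((D.eval s)⁻¹ * (1 + s * e)⁻¹) * Gs)) * (sm m s i * c i) := funext h7
      have hsum : (1 : L0) + ∑ i, sm m s i = HahnSeries.C (1 + s * e) := by
        unfold sm
        rw [← map_sum, ← Finset.mul_sum, algebraMap_L0, map_add, map_one, he]
        push_cast
        rfl
      rw [LTaux.nb_add, LTaux.nb_smul, LTaux.nb_smul, h9, LTaux.lg_add, LTaux.lg_smul,
        LTaux.lg_smul, nb_w, hsum]
      have e2 : algebraMap L0 F (HahnSeries.C ((D.eval s)⁻¹)) *
          algebraMap L0 F (HahnSeries.C (D.eval s)) = 1 := by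
        rw [← map_mul, ← map_mul, inv_mul_cancel₀ hDs, map_one, map_one]
      have e3 : algebraMap L0 F (HahnSeries.C ((D.eval s)⁻¹ * (1 + s * e)⁻¹)) *
          algebraMap L0 F (HahnSeries.C (1 + s * e)) =
            algebraMap L0 F (HahnSeries.C ((D.eval s)⁻¹)) := by
        rw [← map_mul, ← map_mul, mul_assoc, inv_mul_cancel₀ htau, mul_one]
      rw [algebraMap_L0] at hrs'
      rw [map_neg, map_mul]
      linear_combination (algebraMap L0 F (HahnSeries.C ((D.eval s)⁻¹))) * hrs' -
        ((B1 f K θ w t).eval (algebraMap ℂ F s) + algebraMap ℂ F (d * s + 3) *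
          (UB f (K + j') u w t).eval (algebraMap ℂ F s)) * e2 - (algebraMap L0 F Gs) * e3
    have h9 := irr_boundB h hf W T hT hF hm hU hr hw ht (hch s) hs (add_mem (mul_mem
      (Subalgebra.algebraMap_mem _ _) hrs) (mul_mem (Subalgebra.algebraMap_mem _ _) hwS)) h8 hij
    have h10 : HahnSeries.C (1 + s * e) * (Y i j).eval (HahnSeries.C s) -
        HahnSeries.C s * g.eval (HahnSeries.C s) =
        HahnSeries.C (s * D.eval s * (1 + s * e)) * xi c as i j := by
      have hcij : c i - c j ≠ 0 := sub_ne_zero.2 fun h0 => hij (hF.inj h0)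
      rw [hYev, has]
      unfold xi
      have e1 : ∀ i, (HahnSeries.C (s * D.eval s * (1 + s * e)) : L0) *
          HahnSeries.C ((m i : ℂ)⁻¹ * s⁻¹ * (D.eval s)⁻¹) =
            HahnSeries.C (1 + s * e) * HahnSeries.C ((m i : ℂ)⁻¹) := by
        intro i
        have := hmC i
        rw [← map_mul, ← map_mul]
        congr 1
        field_simp
      have e2 : (HahnSeries.C (s * D.eval s * (1 + s * e)) : L0) *
          HahnSeries.C ((D.eval s)⁻¹ * (1 + s * e)⁻¹) = HahnSeries.C s := by
        rw [← map_mul]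
        congr 1
        field_simp
      rw [hGs, algebraMap_L0, eq_comm, ← mul_div_assoc, div_eq_iff hcij]
      have e3 : (c i - c j)⁻¹ * (c i - c j) = 1 := inv_mul_cancel₀ hcij
      linear_combination (a i).eval (HahnSeries.C s) * e1 i - (a j).eval (HahnSeries.C s) * e1 j -
        (g.eval (HahnSeries.C s) * (c i - c j)) * e2 -
        (HahnSeries.C (1 + s * e) * (HahnSeries.C ((m i : ℂ)⁻¹) * (a i).eval (HahnSeries.C s) -
        HahnSeries.C ((m j : ℂ)⁻¹) * (a j).eval (HahnSeries.C s))) * e3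
    rw [h10, C_mul_orderTop (mul_ne_zero (mul_ne_zero hsne hDs) htau)]
    exact h9
  have htau0 : 1 + s0 d * e = 0 := by
    have h5 : (d : ℂ) = 3 * e := by
      rw [he]
      exact_mod_cast h1.symm
    have h6 : 3 * (1 + s0 d * e) = 0 := by
      linear_combination hds0 - s0 d * h5
    exact (mul_eq_zero.1 h6).resolve_left (by norm_num)
  have hgs0 : g.eval (HahnSeries.C (s0 d)) = HahnSeries.C (D.eval (s0 d)) * γ := by
    rw [← algebraMap_L0]
    exact sub_eq_zero.1 hγ
  constructor
  · have h5 := poly_bound (Polynomial.C (HahnSeries.C (1 : ℂ)) * Y i j +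
      Polynomial.C (HahnSeries.C e) * Polynomial.X * Y i j - Polynomial.X * g)
      ((1 : ℚ) : WithTop ℚ) (fun s hs => ?_) (s0 d)
    · have h6 : (Polynomial.C (HahnSeries.C (1 : ℂ)) * Y i j +
          Polynomial.C (HahnSeries.C e) * Polynomial.X * Y i j - Polynomial.X * g).eval
            (HahnSeries.C (s0 d)) = HahnSeries.C (-(s0 d * D.eval (s0 d))) * γ := by
        simp only [Polynomial.eval_sub, Polynomial.eval_add, Polynomial.eval_mul,
          Polynomial.eval_C, Polynomial.eval_X]
        rw [hgs0]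
        have h7 : (HahnSeries.C (1 : ℂ) + HahnSeries.C e * HahnSeries.C (s0 d) : L0) = 0 := by
          rw [← map_mul, ← map_add, mul_comm e, htau0, map_zero]
        rw [map_neg, map_mul]
        linear_combination ((Y i j).eval (HahnSeries.C (s0 d))) * h7
      rw [h6, C_mul_orderTop (neg_ne_zero.2 (mul_ne_zero hs0 hDs0))] at h5
      exact h5
    · have h6 : (Polynomial.C (HahnSeries.C (1 : ℂ)) * Y i j +
          Polynomial.C (HahnSeries.C e) * Polynomial.X * Y i j - Polynomial.X * g).eval
            (HahnSeries.C s) = HahnSeries.C (1 + s * e) * (Y i j).eval (HahnSeries.C s) -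
              HahnSeries.C s * g.eval (HahnSeries.C s) := by
        simp only [Polynomial.eval_sub, Polynomial.eval_add, Polynomial.eval_mul,
          Polynomial.eval_C, Polynomial.eval_X]
        rw [map_add, map_mul]
        ring
      rw [h6]
      exact hbound s hs i j hij
  · intro k l hkl
    have h5 := poly_bound (Y i j - Y k l) ((1 : ℚ) : WithTop ℚ) (fun s hs => ?_) (s0 d)
    · have h8 : ∀ i, HahnSeries.C ((m i : ℂ)⁻¹) * (a i).eval (HahnSeries.C (s0 d)) =
          HahnSeries.C (s0 d * D.eval (s0 d)) * α i + HahnSeries.C (s0 d) * (κ + κ' * c i) := by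
        intro i
        have h6 := hκ i
        have h7 : (a i).eval (HahnSeries.C (s0 d)) =
            HahnSeries.C (D.eval (s0 d)) * (s0m d m i * α i) + s0m d m i * (κ + κ' * c i) := by
          rw [← h6, algebraMap_L0]
          ring
        rw [h7]
        unfold s0m
        rw [algebraMap_L0]
        have := hmC i
        have e0 : (HahnSeries.C ((m i : ℂ)⁻¹) : L0) * HahnSeries.C (s0 d * (m i : ℂ)) =
            HahnSeries.C (s0 d) := by
          rw [← map_mul]
          congr 1
          field_simp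
        rw [map_mul HahnSeries.C (s0 d) (D.eval (s0 d))]
        linear_combination (HahnSeries.C (D.eval (s0 d)) * α i + (κ + κ' * c i)) * e0
      have h9 : ∀ i j, i ≠ j → (Y i j).eval (HahnSeries.C (s0 d)) =
          HahnSeries.C (s0 d * D.eval (s0 d)) * xi c α i j + HahnSeries.C (s0 d) * κ' := by
        intro i j hij
        have hcij : c i - c j ≠ 0 := sub_ne_zero.2 fun h0 => hij (hF.inj h0)
        rw [hYev, h8, h8]
        unfold xi
        field_simp
        ring
      have h10 : (Y i j - Y k l).eval (HahnSeries.C (s0 d)) =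
          HahnSeries.C (s0 d * D.eval (s0 d)) * (xi c α i j - xi c α k l) := by
        rw [Polynomial.eval_sub, h9 i j hij, h9 k l hkl]
        ring
      rw [h10, C_mul_orderTop (mul_ne_zero hs0 hDs0)] at h5
      exact h5
    · have htau : 1 + s * e ≠ 0 := by
        intro h0
        apply hs (-(1 : ℚ) / ((∑ i, m i : ℕ) : ℚ))
        push_cast
        rw [he] at heC h0
        push_cast at heC h0
        rw [eq_div_iff heC]
        linear_combination h0
      have h6 : HahnSeries.C (1 + s * e) * (Y i j - Y k l).eval (HahnSeries.C s) =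
          (HahnSeries.C (1 + s * e) * (Y i j).eval (HahnSeries.C s) -
            HahnSeries.C s * g.eval (HahnSeries.C s)) -
          (HahnSeries.C (1 + s * e) * (Y k l).eval (HahnSeries.C s) -
            HahnSeries.C s * g.eval (HahnSeries.C s)) := by
        rw [Polynomial.eval_sub]
        ring
      rw [← C_mul_orderTop htau, h6]
      exact le_trans (le_min (hbound s hs i j hij) (hbound s hs k l hkl))
        HahnSeries.min_orderTop_le_orderTop_sub

end MPb07157.TR
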