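import Pool.Agent.Lib.MP_b07157_agR.LT1
import Pool.Agent.Lib.MP_b07157_agR.LB1
import Pool.Agent.Lib.MP_b07157_agL3.InfB

/-!
# The vector field at the infinite places, if `3 ∑ m_i = d`
-/

noncomputable section

namespace MPb07157.TR

open MvPolynomial TL

variable {F : Type} [Field F] [Algebra L0 F] [Algebra ℂ F] [IsScalarTower ℂ L0 F]
  {ι : Type} [Fintype ι] [DecidableEq ι]
  {f : MvPolynomial (Fin 3) ℂ} {d : ℕ} {b : Polynomial ℂ} {K : ℕ}
  {θ : Fin 3 → MvPolynomial (Fin 3) (Polynomial ℂ)}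
  {c : ι → L0} {m : ι → ℕ} {A0 : L0} {α : ι → L0} {γ : L0}

namespace Inf1aux

open InfAux InfBaux

omit [DecidableEq ι] in
/-- The class after the exchange of `x_1` and `x_2`. -/
theorem Cl1.swap (hf : f.IsHomogeneous d) (h : Thet f d b K θ) (W : WF L0 F)
    (hα : Cl1 f d K θ W tau⁻¹ c m α γ) (ht : (tau : L0) ≠ 0) :
    Cl1 (TL.sw f) d K (fun i => TL.sw (θ (Equiv.swap 1 2 i))) (W.scale tau ht)
      (HahnSeries.C 0 + tau) (fun i => tau * c i) m (fun i => -(tau ^ 3 * α i))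
      (-(tau ^ 2 * γ)) := by
  obtain ⟨r, hr, hr2⟩ := hα
  have hT := T_ne (F := F)
  refine ⟨algebraMap L0 F (-tau ^ 3) * r, ?_, ?_⟩
  · exact Subalgebra.mul_mem _ (Subalgebra.algebraMap_mem _ _) (SS_scale W ht c hr)
  · rw [C_zero_add]
    change (B1 (TL.sw f) K (fun i => TL.sw (θ (Equiv.swap 1 2 i))) (algebraMap L0 F tau * W.w)
      (algebraMap L0 F tau)).eval _ = _
    rw [map_inv₀] at hr2
    rw [B1_sw hf h.hom _ _ hT, Polynomial.eval_mul, Polynomial.eval_C, hr2, lg_scale, lg_scale]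
    have e1 : lg W c (fun i => s0m d m i * -(tau ^ 3 * α i)) =
        -(algebraMap L0 F tau ^ 3 * lg W c (fun i => s0m d m i * α i)) := by
      unfold lg
      rw [Finset.mul_sum, ← Finset.sum_neg_distrib]
      refine Finset.sum_congr rfl fun i _ => ?_
      simp only [map_mul, map_neg, map_pow]
      ring
    have e2 : (W.scale tau ht).dw (algebraMap L0 F (-tau ^ 3) * r) =
        algebraMap L0 F tau⁻¹ * (algebraMap L0 F (-tau ^ 3) * W.dw r) := by
      change (algebraMap L0 F tau⁻¹ • W.dw) (algebraMap L0 F (-tau ^ 3) * r) = _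
      rw [Derivation.smul_apply, smul_eq_mul, ← Algebra.smul_def (-tau ^ 3 : L0) r,
        Derivation.map_smul, Algebra.smul_def]
    unfold nb
    rw [e1, e2]
    have e3 : algebraMap L0 F tau⁻¹ * algebraMap L0 F tau = 1 := by
      rw [← map_mul, inv_mul_cancel₀ ht, map_one]
    simp only [map_neg, map_pow, map_mul]
    set T := algebraMap L0 F tau
    set V := algebraMap L0 F tau⁻¹
    set A := lg W c (fun i => s0m d m i * α i)
    set B := lg W c (s0m d m)
    linear_combination (T ^ 2 * (A + W.dw r + B * r)) * e3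

theorem single_tau : (HahnSeries.single (-2 : ℚ) (-1 : ℂ) : L0) * tau ^ 2 = -1 := by
  have h6 : (tau : L0) ^ 2 = HahnSeries.single (2 : ℚ) (1 : ℂ) := by
    unfold tau
    rw [HahnSeries.single_pow]
    norm_num
  rw [h6, HahnSeries.single_mul_single]
  norm_num

theorem order_two {x y : L0} (e : x = HahnSeries.single (-2 : ℚ) (-1 : ℂ) * y) {a : ℚ}
    (h : ((a : ℚ) : WithTop ℚ) ≤ y.orderTop) :
    ((a - 2 : ℚ) : WithTop ℚ) ≤ x.orderTop := by
  rw [e]
  refine le_trans ?_ HahnSeries.orderTop_add_le_mul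
  rw [HahnSeries.orderTop_single (by norm_num : (-1 : ℂ) ≠ 0)]
  have h10 : ((a - 2 : ℚ) : WithTop ℚ) = ((-2 : ℚ) : WithTop ℚ) + ((a : ℚ) : WithTop ℚ) := by
    rw [← WithTop.coe_add]
    congr 1
    ring
  rw [h10]
  exact add_le_add le_rfl h

theorem order_gamma {a : ℚ} (h : ((a : ℚ) : WithTop ℚ) ≤ (-(tau ^ 2 * γ) : L0).orderTop) :
    ((a - 2 : ℚ) : WithTop ℚ) ≤ γ.orderTop := by
  refine order_two ?_ h
  linear_combination γ * single_tau

omit [Fintype ι] [DecidableEq ι] in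
theorem order_xi (hc : Function.Injective c) {i j : ι} (hij : i ≠ j) {k l : ι} (hkl : k ≠ l)
    {a : ℚ}
    (h : ((a : ℚ) : WithTop ℚ) ≤
      (xi (fun i => tau * c i) (fun i => -(tau ^ 3 * α i)) i j -
        xi (fun i => tau * c i) (fun i => -(tau ^ 3 * α i)) k l).orderTop) :
    ((a - 2 : ℚ) : WithTop ℚ) ≤ (xi c α i j - xi c α k l).orderTop := by
  refine order_two ?_ h
  rw [xi_swap hc hij, xi_swap hc hkl]
  ring

theorem spec_sw (hs : Spec f 0 1) : Spec (TL.sw f) 1 0 := by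
  intro z
  have e : ∀ z : ℂ, eval ![z, 1, 0] (TL.sw f) = eval ![z, 0, 1] f := by
    intro z
    unfold TL.sw
    rw [eval_rename]
    congr 2
    exact swap_eq z 1 0
  rw [e, e]
  exact hs z

end Inf1aux

open Inf1aux

/-- The vector field at infinity. -/
theorem regular_inf01 (hf : f.IsHomogeneous d) (h : Thet f d b K θ) (W : WF L0 F)
    (hF : Fac f tau⁻¹ c m A0) (hd : 0 < d) (h1 : 3 * ∑ i, m i = d)
    (hα : Cl1 f d K θ W tau⁻¹ c m α γ) {i j : ι} (hij : i ≠ j) :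
    ((-2 : ℚ) : WithTop ℚ) ≤ γ.orderTop := by
  obtain ⟨A0', hF'⟩ := Fac.swap hf hF
  have hf' : (TL.sw f).IsHomogeneous d := hf.rename_isHomogeneous
  have hα' := Cl1.swap hf h W hα InfAux.tau_ne
  have h3 := (regular1 hf' h.swap (W.scale tau InfAux.tau_ne) hF' hd h1 hα' hij).1.1
  have h4 := order_gamma (a := 0) h3
  rwa [zero_sub] at h4

/-- The vector field at infinity, if the line at infinity is contained in the curve or meets it
only in `p`. -/
theorem regular_inf1 (hf : f.IsHomogeneous d) (h : Thet f d b K θ) (W : WF L0 F)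
    (hF : Fac f tau⁻¹ c m A0) (hd : 0 < d) (h1 : 3 * ∑ i, m i = d)
    (hα : Cl1 f d K θ W tau⁻¹ c m α γ) (hs : Spec f 0 1) {i j : ι} (hij : i ≠ j) :
    ((-1 : ℚ) : WithTop ℚ) ≤ γ.orderTop ∧
    ∀ k l, k ≠ l → ((-1 : ℚ) : WithTop ℚ) ≤ (xi c α i j - xi c α k l).orderTop := by
  obtain ⟨A0', hF'⟩ := Fac.swap hf hF
  have hf' : (TL.sw f).IsHomogeneous d := hf.rename_isHomogeneous
  have hα' := Cl1.swap hf h W hα InfAux.tau_ne
  have h3 := regular1 hf' h.swap (W.scale tau InfAux.tau_ne) hF' hd h1 hα' hij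
  have hS := spec_sw hs
  have e : (1 - 2 : ℚ) = -1 := by norm_num
  refine ⟨?_, fun k l hkl => ?_⟩
  · have h4 := order_gamma (a := 1) (h3.1.2 hS)
    rwa [e] at h4
  · have h4 := order_xi (a := 1) hF.inj hij hkl ((h3.2 k l hkl).2 hS)
    rwa [e] at h4

/-- The vector field at infinity, if the line at infinity is not tangent at `p` and meets the
curve outside `p` in one point. -/
theorem regular_infB1 (hf : f.IsHomogeneous d) (h : Thet f d b K θ) (hC : Ch (TL.sw f) K (TL.sw (θ 2)))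
    (W : WF L0 F) (hF : Fac f tau⁻¹ c m A0) (hd : 0 < d) (h1 : 3 * ∑ i, m i = d)
    (hα : Cl1 f d K θ W tau⁻¹ c m α γ) (hU : (Uf f 0 1).natDegree = ∑ i, m i)
    (hr : (Uf f 0 1).roots.toFinset.card = 1) {i j : ι} (hij : i ≠ j) :
    ((-1 : ℚ) : WithTop ℚ) ≤ γ.orderTop ∧
    ∀ k l, k ≠ l → ((-1 : ℚ) : WithTop ℚ) ≤ (xi c α i j - xi c α k l).orderTop := by
  obtain ⟨A0', hF'⟩ := Fac.swap hf hF
  have hf' : (TL.sw f).IsHomogeneous d := hf.rename_isHomogeneous
  have hα' := Cl1.swap hf h W hα InfAux.tau_ne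
  have hC' : Ch (TL.sw f) K ((fun i => TL.sw (θ (Equiv.swap 1 2 i))) 1) := by
    have e : (Equiv.swap (1 : Fin 3) 2) 1 = 2 := by decide
    simp only [e]
    exact hC
  have h3 := regularB1 hf' h.swap hC' (W.scale tau InfAux.tau_ne) hF' hd h1 hα'
    (by rw [InfBaux.Uf_sw]; exact hU) (by rw [InfBaux.Uf_sw]; exact hr) hij
  have e : (1 - 2 : ℚ) = -1 := by norm_num
  refine ⟨?_, fun k l hkl => ?_⟩
  · have h4 := order_gamma (a := 1) h3.1
    rwa [e] at h4
  · have h4 := order_xi (a := 1) hF.inj hij hkl (h3.2 k l hkl)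
    rwa [e] at h4

end MPb07157.TR
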