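import Pool.Agent.Lib.MP_b07157_agR.EQ1
import Pool.Agent.Lib.MP_b07157_agR.Inf1
import Pool.Agent.Lib.MP_b07157_agL3.Two

/-!
# The global vector field, if `3 ∑ m_i = d`
-/

noncomputable section

namespace MPb07157.TR

open MvPolynomial TL

variable {f : MvPolynomial (Fin 3) ℂ} {d : ℕ}

/-- The global data. -/
structure Glob1 (f : MvPolynomial (Fin 3) ℂ) (d : ℕ) (b : Polynomial ℂ) (K : ℕ)
    (θ : Fin 3 → MvPolynomial (Fin 3) (Polynomial ℂ)) {n : ℕ} (c : Fin n → KK f) (m : Fin n → ℕ)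
    (A0 : KK f) (α : Fin n → KK f) (γ : KK f) (W : WF (KK f) (RatFunc (KK f))) : Prop where
  hf : f.IsHomogeneous d
  h : Thet f d b K θ
  hF : Fac f (tK f) c m A0
  sum : ∑ i, m i = f.degreeOf 0
  hd : 0 < d
  h1 : 3 * ∑ i, m i = d
  cl : Cl1 f d K θ W (tK f) c m α γ

theorem exists_glob1 (hf : f.IsHomogeneous d) (h0 : f ≠ 0) (hd : 0 < d)
    (h1 : 3 * f.degreeOf 0 = d) {B : Polynomial ℂ} (hB : IsBernsteinSato f B) :
    ∃ (K : ℕ) (θ : Fin 3 → MvPolynomial (Fin 3) (Polynomial ℂ)) (n : ℕ) (c : Fin n → KK f)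
      (m : Fin n → ℕ) (A0 : KK f) (α : Fin n → KK f) (γ : KK f)
      (W : WF (KK f) (RatFunc (KK f))),
      Glob1 f d B K θ c m A0 α γ W ∧ Ch f K (θ 1) ∧ Ch (TL.sw f) K (TL.sw (θ 2)) := by
  obtain ⟨K, θ, h, hC1, hC2⟩ := exists_thet2 hf hB
  obtain ⟨n, c, m, A0, hF, hm⟩ := exists_fac hf h0
  obtain ⟨W⟩ := exists_WF (KK f)
  obtain ⟨α, γ, hα⟩ := exists_cl1 (K := K) (θ := θ) W hF hd (by rw [hm]; exact h1)
  exact ⟨K, θ, n, c, m, A0, α, γ, W, ⟨hf, h, hF, hm, hd, by rw [hm]; exact h1, hα⟩, hC1, hC2⟩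

end MPb07157.TR
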