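import Pool.Agent.Lib.MP_b07157_agR.Der

/-!
# The residue lemma for rings of power series
-/

noncomputable section

namespace MPb07157

namespace ARL

variable {R τ : Type} [CommRing R]

/-! ### Coefficients with integral exponents -/

open Classical in
/-- The coefficient at an integral exponent (zero if the exponent is not natural). -/
def cz (ε : τ → ℤ) : MvPowerSeries τ R →+ R :=
  if h : ∃ v : τ →₀ ℕ, ∀ j, (v j : ℤ) = ε j then
    (MvPowerSeries.coeff h.choose : MvPowerSeries τ R →ₗ[R] R).toAddMonoidHom else 0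

theorem cz_coe {ε : τ → ℤ} {v : τ →₀ ℕ} (hv : ∀ j, (v j : ℤ) = ε j) (h : MvPowerSeries τ R) :
    cz ε h = MvPowerSeries.coeff v h := by
  have hex : ∃ v : τ →₀ ℕ, ∀ j, (v j : ℤ) = ε j := ⟨v, hv⟩
  unfold cz
  rw [dif_pos hex]
  have h1 : hex.choose = v := by
    ext j
    have h2 := hex.choose_spec j
    have h3 := hv j
    omega
  rw [h1]
  rfl

theorem cz_neg {ε : τ → ℤ} {j : τ} (hj : ε j < 0) (h : MvPowerSeries τ R) : cz ε h = 0 := by
  have hex : ¬ ∃ v : τ →₀ ℕ, ∀ j, (v j : ℤ) = ε j := by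
    rintro ⟨v, hv⟩
    have := hv j
    omega
  unfold cz
  rw [dif_neg hex]
  rfl

theorem cz_cases [Finite τ] (ε : τ → ℤ) :
    (∃ v : τ →₀ ℕ, ∀ j, (v j : ℤ) = ε j) ∨ ∃ j, ε j < 0 := by
  by_cases h : ∃ j, ε j < 0
  · exact Or.inr h
  · left
    push Not at h
    refine ⟨Finsupp.equivFunOnFinite.symm fun j => (ε j).toNat, fun j => ?_⟩
    rw [Finsupp.equivFunOnFinite_symm_apply_apply]
    exact Int.toNat_of_nonneg (h j)

theorem cz_monomial_mul [Finite τ] (N : τ →₀ ℕ) (ε : τ → ℤ) (h : MvPowerSeries τ R) :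
    cz (fun j => ε j + N j) (MvPowerSeries.monomial N (1 : R) * h) = cz ε h := by
  classical
  rcases cz_cases ε with ⟨v, hv⟩ | ⟨j, hj⟩
  · rw [cz_coe hv, cz_coe (v := N + v) (fun j => by
      rw [Finsupp.add_apply, ← hv j]; push_cast; ring), MvPowerSeries.coeff_add_monomial_mul,
      one_mul]
  · rw [cz_neg hj]
    rcases cz_cases (fun j => ε j + N j) with ⟨u, hu⟩ | ⟨i, hi⟩
    · rw [cz_coe hu, MvPowerSeries.coeff_monomial_mul, if_neg]
      intro hle
      have h1 := hle j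
      have h2 := hu j
      omega
    · exact cz_neg (j := i) hi _

theorem cz_C_mul [Finite τ] (ε : τ → ℤ) (a : R) (h : MvPowerSeries τ R) :
    cz ε (MvPowerSeries.C a * h) = a * cz ε h := by
  rcases cz_cases ε with ⟨v, hv⟩ | ⟨j, hj⟩
  · rw [cz_coe hv, cz_coe hv, MvPowerSeries.coeff_C_mul]
  · rw [cz_neg hj, cz_neg hj, mul_zero]

theorem cz_of_dvd [Finite τ] {ε : τ → ℤ} {j : τ} {m : ℕ} {h : MvPowerSeries τ R}
    (hd : MvPowerSeries.X j ^ m ∣ h) (hj : ε j < m) : cz ε h = 0 := by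
  rcases cz_cases ε with ⟨v, hv⟩ | ⟨i, hi⟩
  · rw [cz_coe hv]
    rw [MvPowerSeries.X_pow_dvd_iff] at hd
    refine hd v ?_
    have := hv j
    omega
  · rw [cz_neg hi]

variable [Algebra ℂ R]

theorem cz_lg [Finite τ] (ε : τ → ℤ) (j : τ) (h : MvPowerSeries τ R) :
    cz ε (lg j h) = (ε j : R) * cz ε h := by
  rcases cz_cases ε with ⟨v, hv⟩ | ⟨i, hi⟩
  · rw [cz_coe hv, cz_coe hv, coeff_lg, ← hv j, Int.cast_natCast]
  · rw [cz_neg hi, cz_neg hi, mul_zero]

theorem cz_cw [Finite τ] (ε : τ → ℤ) (δ : Derivation ℂ R R) (h : MvPowerSeries τ R) :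
    cz ε (cw δ h) = δ (cz ε h) := by
  rcases cz_cases ε with ⟨v, hv⟩ | ⟨i, hi⟩
  · rw [cz_coe hv, cz_coe hv, coeff_cw]
  · rw [cz_neg hi, cz_neg hi, map_zero]

theorem cz_algebraMap_mul [Finite τ] (ε : τ → ℤ) (a : ℂ) (h : MvPowerSeries τ R) :
    cz ε (algebraMap ℂ (MvPowerSeries τ R) a * h) = algebraMap ℂ R a * cz ε h := by
  have h1 : algebraMap ℂ (MvPowerSeries τ R) a = MvPowerSeries.C (algebraMap ℂ R a) := by
    rw [MvPowerSeries.algebraMap_apply]
  rw [h1, cz_C_mul]

/-! ### Rows -/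

variable {β : Type}

/-- The derivations of the rows. -/
def rowD (δ : β → Derivation ℂ R R) :
    τ ⊕ β → Derivation ℂ (MvPowerSeries τ R) (MvPowerSeries τ R)
  | Sum.inl j => lg j
  | Sum.inr b => cw (δ b)

theorem rowD_comm {δ : β → Derivation ℂ R R} (hδ : ∀ b b' a, δ b (δ b' a) = δ b' (δ b a))
    (x y : τ ⊕ β) (h : MvPowerSeries τ R) : rowD δ x (rowD δ y h) = rowD δ y (rowD δ x h) := by
  rcases x with i | b <;> rcases y with j | b'
  · exact lg_lg i j h
  · exact lg_cw i (δ b') h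
  · exact (lg_cw j (δ b) h).symm
  · exact cw_cw (hδ b b') h

variable [Fintype β]

/-- The exact elements. -/
def exSub (δ : β → Derivation ℂ R R) (s : ℂ) (ψ : β → R) : AddSubgroup R where
  carrier := {x | ∃ r : β → R, x = ∑ b, (δ b (r b) + algebraMap ℂ R s * ψ b * r b)}
  zero_mem' := ⟨fun _ => 0, by simp⟩
  add_mem' := by
    rintro x y ⟨r, rfl⟩ ⟨t, rfl⟩
    refine ⟨fun b => r b + t b, ?_⟩
    rw [← Finset.sum_add_distrib]
    exact Finset.sum_congr rfl fun b _ => by rw [map_add]; ring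
  neg_mem' := by
    rintro x ⟨r, rfl⟩
    refine ⟨fun b => -r b, ?_⟩
    rw [← Finset.sum_neg_distrib]
    exact Finset.sum_congr rfl fun b _ => by rw [map_neg]; ring

theorem mem_exSub {δ : β → Derivation ℂ R R} {s : ℂ} {ψ : β → R} {x : R} :
    x ∈ exSub δ s ψ ↔ ∃ r : β → R, x = ∑ b, (δ b (r b) + algebraMap ℂ R s * ψ b * r b) := Iff.rfl

theorem single_mem_exSub [DecidableEq β] (δ : β → Derivation ℂ R R) (s : ℂ) (ψ : β → R) (b : β)
    (c : R) : δ b c + algebraMap ℂ R s * ψ b * c ∈ exSub δ s ψ := by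
  refine ⟨fun b' => if b' = b then c else 0, ?_⟩
  rw [Finset.sum_eq_single b]
  · dsimp only
    rw [if_pos rfl]
  · intro b' _ hb
    dsimp only
    rw [if_neg hb, map_zero, mul_zero, add_zero]
  · intro hb
    exact absurd (Finset.mem_univ b) hb

/-! ### Weights -/

/-- The derivative of the powers of the inverse of a unit. -/
theorem deriv_inv_pow {A : Type} [CommRing A] [Algebra ℂ A] (D : Derivation ℂ A A) (U : Aˣ)
    (k : ℕ) : D (((U⁻¹ : Aˣ) : A) ^ k) * (U : A) =
      -(k : A) * D (U : A) * ((U⁻¹ : Aˣ) : A) ^ k := by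
  have h1 : D ((U⁻¹ : Aˣ) : A) = -(((U⁻¹ : Aˣ) : A) ^ 2 * D (U : A)) := by
    have h2 : ((U⁻¹ : Aˣ) : A) * (U : A) = 1 := Units.inv_mul U
    have h3 := Derivation.leibniz_of_mul_eq_one D h2
    rw [h3, neg_smul, smul_eq_mul]
  have h2 : ((U⁻¹ : Aˣ) : A) * (U : A) = 1 := Units.inv_mul U
  rw [Derivation.leibniz_pow, smul_eq_mul, nsmul_eq_mul, h1]
  rcases k with _ | k
  · simp
  · rw [Nat.add_sub_cancel]
    push_cast
    linear_combination (-((k : A) + 1) * ((U⁻¹ : Aˣ) : A) ^ k * ((U⁻¹ : Aˣ) : A) * D (U : A)) * h2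

/-- The weight `F₁^(1-k) H`. -/
def wG {A : Type} [CommRing A] (U : Aˣ) (H : A) (k : ℕ) : A := ((U⁻¹ : Aˣ) : A) ^ k * (U * H)

theorem wG_succ {A : Type} [CommRing A] (U : Aˣ) (H : A) (k : ℕ) :
    (U : A) * wG U H (k + 1) = wG U H k := by
  have h2 : ((U⁻¹ : Aˣ) : A) * (U : A) = 1 := Units.inv_mul U
  unfold wG
  rw [pow_succ]
  linear_combination (((U⁻¹ : Aˣ) : A) ^ k * (U * H)) * h2

theorem wG_one {A : Type} [CommRing A] (U : Aˣ) (H : A) : wG U H 1 = H := by
  have h2 : ((U⁻¹ : Aˣ) : A) * (U : A) = 1 := Units.inv_mul U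
  unfold wG
  rw [pow_one]
  linear_combination H * h2

/-- The derivative of the weight. -/
theorem deriv_wG {A : Type} [CommRing A] [Algebra ℂ A] (D : Derivation ℂ A A) (U : Aˣ) {H : A}
    {S Ψ : A} (hH : (U : A) * D H = S * (D (U : A) - Ψ * U) * H) (k : ℕ) :
    D (wG U H k) = (S + 1 - (k : A)) * D (U : A) * wG U H (k + 1) - S * Ψ * wG U H k := by
  have h2 : ((U⁻¹ : Aˣ) : A) * (U : A) = 1 := Units.inv_mul U
  have h3 := deriv_inv_pow D U k
  have h4 : ((U⁻¹ : Aˣ) : A) * ((U : A) * D (wG U H k)) = D (wG U H k) := by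
    rw [← mul_assoc, h2, one_mul]
  have h5 : (U : A) * D (wG U H k) = (S + 1 - (k : A)) * D (U : A) * wG U H k -
      S * Ψ * ((U : A) * wG U H k) := by
    unfold wG
    rw [Derivation.leibniz, Derivation.leibniz, smul_eq_mul, smul_eq_mul, smul_eq_mul,
      smul_eq_mul]
    linear_combination ((U : A) * H) * h3 + (((U⁻¹ : Aˣ) : A) ^ k * (U : A)) * hH
  rw [← h4, h5]
  have h6 : ((U⁻¹ : Aˣ) : A) * wG U H k = wG U H (k + 1) := by
    unfold wG; rw [pow_succ]; ring
  linear_combination ((S + 1 - (k : A)) * D (U : A)) * h6 - (S * Ψ * wG U H k) * h2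

/-! ### Twists -/

omit [Algebra ℂ R] in
theorem monomial_mul_cancel {v : τ →₀ ℕ} {g h : MvPowerSeries τ R}
    (hgh : MvPowerSeries.monomial v (1 : R) * g = MvPowerSeries.monomial v 1 * h) : g = h := by
  ext u
  have h1 := congrArg (MvPowerSeries.coeff (v + u)) hgh
  rwa [MvPowerSeries.coeff_add_monomial_mul, MvPowerSeries.coeff_add_monomial_mul, one_mul,
    one_mul] at h1

omit [Algebra ℂ R] in
theorem prod_monomial {ι : Type} (s : Finset ι) (M : ι → τ →₀ ℕ) :
    ∏ i ∈ s, MvPowerSeries.monomial (M i) (1 : R) = MvPowerSeries.monomial (∑ i ∈ s, M i) 1 := by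
  classical
  induction s using Finset.induction_on with
  | empty => rfl
  | insert a s ha ih =>
    rw [Finset.prod_insert ha, Finset.sum_insert ha, ih, MvPowerSeries.monomial_mul_monomial,
      one_mul]

/-- The twist `x^(ℓ - L)`: its logarithmic derivatives. -/
def tw {n : ℕ} (Mon : Finset (Fin n)) (M : Fin n → τ →₀ ℕ) (l : Fin n → ℂ) (L : Fin n → ℕ)
    (j : τ) : ℂ := ∑ i ∈ Mon, (l i - L i) * M i j

/-- The logarithmic derivatives of the twist for all rows. -/
def lamR {n : ℕ} (e : Fin n → τ ⊕ β) (Mon : Finset (Fin n)) (M : Fin n → τ →₀ ℕ)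
    (l : Fin n → ℂ) (L : Fin n → ℕ) (a : Fin n) : MvPowerSeries τ R :=
  match e a with
  | Sum.inl j => algebraMap ℂ (MvPowerSeries τ R) (tw Mon M l L j)
  | Sum.inr _ => 0

omit [Fintype β] in
theorem rowD_mon {n : ℕ} (e : Fin n → τ ⊕ β) (δ : β → Derivation ℂ R R)
    {θ : MvPowerSeries (Fin n) ℂ →ₐ[ℂ] MvPowerSeries τ R} {M : Fin n → τ →₀ ℕ} {i : Fin n}
    (hM : θ (MvPowerSeries.X i) = MvPowerSeries.monomial (M i) 1) (a : Fin n) :
    rowD δ (e a) (θ (MvPowerSeries.X i)) =
      (match e a with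
        | Sum.inl j => (M i j : MvPowerSeries τ R)
        | Sum.inr _ => 0) * θ (MvPowerSeries.X i) := by
  rw [hM]
  rcases e a with j | b
  · exact lg_monomial j (M i)
  · rw [zero_mul]
    exact cw_monomial (δ b) (M i)

omit [Fintype β] in
theorem twist_identity {n : ℕ} (e : Fin n → τ ⊕ β) (δ : β → Derivation ℂ R R)
    {θ : MvPowerSeries (Fin n) ℂ →ₐ[ℂ] MvPowerSeries τ R} {Mon : Finset (Fin n)}
    {M : Fin n → τ →₀ ℕ}
    (hM : ∀ i ∈ Mon, θ (MvPowerSeries.X i) = MvPowerSeries.monomial (M i) 1)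
    (l : Fin n → ℂ) (L : Fin n → ℕ) (i : Fin n) :
    (∏ i' ∈ Mon, θ (MvPowerSeries.X i')) * ∑ a, lamR e Mon M l L a *
      (jm (fun a => rowD δ (e a)) fun i => θ (MvPowerSeries.X i)).adjugate i a =
    ∑ i' ∈ Mon, algebraMap ℂ (MvPowerSeries τ R) (l i' - L i') *
      (∏ i'' ∈ Mon.erase i', θ (MvPowerSeries.X i'')) *
        ((jm (fun a => rowD δ (e a)) fun i => θ (MvPowerSeries.X i)).det *
          (if i' = i then 1 else 0)) := by
  classical
  have hrow : ∀ a, (∏ i' ∈ Mon, θ (MvPowerSeries.X i')) * lamR e Mon M l L a =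
      ∑ i' ∈ Mon, algebraMap ℂ (MvPowerSeries τ R) (l i' - L i') *
      (∏ i'' ∈ Mon.erase i', θ (MvPowerSeries.X i'')) *
        rowD δ (e a) (θ (MvPowerSeries.X i')) := by
    intro a
    have e1 : ∀ i' ∈ Mon, algebraMap ℂ (MvPowerSeries τ R) (l i' - L i') *
        (∏ i'' ∈ Mon.erase i', θ (MvPowerSeries.X i'')) *
          rowD δ (e a) (θ (MvPowerSeries.X i')) =
        (∏ i' ∈ Mon, θ (MvPowerSeries.X i')) *
          (algebraMap ℂ (MvPowerSeries τ R) (l i' - L i') * (match e a with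
          | Sum.inl j => (M i' j : MvPowerSeries τ R)
          | Sum.inr _ => 0)) := by
      intro i' hi'
      rw [rowD_mon e δ (hM i' hi') a, ← Finset.mul_prod_erase _ _ hi']
      ring
    rw [Finset.sum_congr rfl e1, ← Finset.mul_sum]
    congr 1
    unfold lamR
    rcases e a with j | b
    · simp only [tw]
      rw [map_sum]
      exact Finset.sum_congr rfl fun i' _ => by rw [map_mul, map_natCast]
    · simp
  have hcr : ∀ i', ∑ a, (jm (fun a => rowD δ (e a)) fun i => θ (MvPowerSeries.X i)).adjugate i a *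
      rowD δ (e a) (θ (MvPowerSeries.X i')) =
      (jm (fun a => rowD δ (e a)) fun i => θ (MvPowerSeries.X i)).det *
        (if i' = i then 1 else 0) := by
    intro i'
    refine sum_adjugate_mul (fun a => rowD δ (e a)) (fun i => θ (MvPowerSeries.X i))
      (g := fun j => if i' = j then 1 else 0) (fun a => ?_) i
    rw [Finset.sum_eq_single i']
    · rw [if_pos rfl, one_mul]
    · intro j _ hj
      rw [if_neg hj.symm, zero_mul]
    · intro h
      exact absurd (Finset.mem_univ i') h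
  rw [Finset.mul_sum]
  calc ∑ a, (∏ i' ∈ Mon, θ (MvPowerSeries.X i')) * (lamR e Mon M l L a *
      (jm (fun a => rowD δ (e a)) fun i => θ (MvPowerSeries.X i)).adjugate i a)
      = ∑ a, ∑ i' ∈ Mon, algebraMap ℂ (MvPowerSeries τ R) (l i' - L i') *
      (∏ i'' ∈ Mon.erase i', θ (MvPowerSeries.X i'')) *
        ((jm (fun a => rowD δ (e a)) fun i => θ (MvPowerSeries.X i)).adjugate i a *
          rowD δ (e a) (θ (MvPowerSeries.X i'))) := by
        refine Finset.sum_congr rfl fun a _ => ?_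
        rw [← mul_assoc, hrow, Finset.sum_mul]
        exact Finset.sum_congr rfl fun i' _ => by ring
    _ = ∑ i' ∈ Mon, algebraMap ℂ (MvPowerSeries τ R) (l i' - L i') *
      (∏ i'' ∈ Mon.erase i', θ (MvPowerSeries.X i'')) *
        ∑ a, ((jm (fun a => rowD δ (e a)) fun i => θ (MvPowerSeries.X i)).adjugate i a *
          rowD δ (e a) (θ (MvPowerSeries.X i'))) := by
        rw [Finset.sum_comm]
        exact Finset.sum_congr rfl fun i' _ => by rw [Finset.mul_sum]
    _ = _ := Finset.sum_congr rfl fun i' _ => by rw [hcr]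

omit [Fintype β] in
theorem twist_notMem {n : ℕ} (e : Fin n → τ ⊕ β) (δ : β → Derivation ℂ R R)
    {θ : MvPowerSeries (Fin n) ℂ →ₐ[ℂ] MvPowerSeries τ R} {Mon : Finset (Fin n)}
    {M : Fin n → τ →₀ ℕ}
    (hM : ∀ i ∈ Mon, θ (MvPowerSeries.X i) = MvPowerSeries.monomial (M i) 1)
    (l : Fin n → ℂ) (L : Fin n → ℕ) {i : Fin n} (hi : i ∉ Mon) :
    ∑ a, lamR e Mon M l L a *
      (jm (fun a => rowD δ (e a)) fun i => θ (MvPowerSeries.X i)).adjugate i a = 0 := by
  have h1 := twist_identity e δ hM l L i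
  rw [Finset.prod_congr rfl hM, prod_monomial] at h1
  refine monomial_mul_cancel (v := ∑ i ∈ Mon, M i) ?_
  rw [h1, mul_zero]
  refine Finset.sum_eq_zero fun i' hi' => ?_
  have hne : i' ≠ i := by
    rintro rfl
    exact hi hi'
  rw [if_neg hne, mul_zero, mul_zero]

omit [Fintype β] in
theorem twist_mem {n : ℕ} (e : Fin n → τ ⊕ β) (δ : β → Derivation ℂ R R)
    {θ : MvPowerSeries (Fin n) ℂ →ₐ[ℂ] MvPowerSeries τ R} {Mon : Finset (Fin n)}
    {M : Fin n → τ →₀ ℕ}
    (hM : ∀ i ∈ Mon, θ (MvPowerSeries.X i) = MvPowerSeries.monomial (M i) 1)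
    (l : Fin n → ℂ) (L : Fin n → ℕ) {i : Fin n} (hi : i ∈ Mon) :
    θ (MvPowerSeries.X i) * ∑ a, lamR e Mon M l L a *
      (jm (fun a => rowD δ (e a)) fun i => θ (MvPowerSeries.X i)).adjugate i a =
      algebraMap ℂ (MvPowerSeries τ R) (l i - L i) *
        (jm (fun a => rowD δ (e a)) fun i => θ (MvPowerSeries.X i)).det := by
  classical
  have h1 := twist_identity e δ hM l L i
  set J := (jm (fun a => rowD δ (e a)) fun i => θ (MvPowerSeries.X i)).det with hJ
  have h0 : ∑ i' ∈ Mon, algebraMap ℂ (MvPowerSeries τ R) (l i' - L i') *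
      (∏ i'' ∈ Mon.erase i', θ (MvPowerSeries.X i'')) * (J * (if i' = i then 1 else 0)) =
      algebraMap ℂ (MvPowerSeries τ R) (l i - L i) *
        (∏ i'' ∈ Mon.erase i, θ (MvPowerSeries.X i'')) * J := by
    rw [Finset.sum_eq_single i]
    · rw [if_pos rfl, mul_one]
    · intro i' _ hne
      rw [if_neg hne, mul_zero, mul_zero]
    · intro h
      exact absurd hi h
  rw [h0, ← Finset.mul_prod_erase _ _ hi] at h1
  have h2 : ∏ i'' ∈ Mon.erase i, θ (MvPowerSeries.X i'') =
      MvPowerSeries.monomial (∑ i'' ∈ Mon.erase i, M i'') (1 : R) := by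
    rw [← prod_monomial]
    exact Finset.prod_congr rfl fun i' hi' => hM i' (Finset.mem_of_mem_erase hi')
  rw [h2] at h1
  refine monomial_mul_cancel (v := ∑ i'' ∈ Mon.erase i, M i'') ?_
  linear_combination h1

/-! ### The residue lemma -/

/-- The exponents. -/
def epsR {n : ℕ} (N : τ →₀ ℕ) (Mon : Finset (Fin n)) (M : Fin n → τ →₀ ℕ) (ε : τ → ℤ) (k : ℕ)
    (L : Fin n → ℕ) (j : τ) : ℤ := ε j + k * N j + ∑ i ∈ Mon, L i * M i j

/-- **The residue lemma.** The rows are logarithmic derivations `y_j d/dy_j` of `R[[y]]` and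
derivations of `R`; `F₁` is a unit, `H` is the power `F₁^s` up to a factor in `R` with logarithmic
derivatives `-s ψ`, and `x^ℓ` is a monomial twist. -/
theorem residue_inst [Finite τ] {n : ℕ} (e : Fin n → τ ⊕ β) {δ : β → Derivation ℂ R R}
    (hδ : ∀ b b' a, δ b (δ b' a) = δ b' (δ b a))
    {θ : MvPowerSeries (Fin n) ℂ →ₐ[ℂ] MvPowerSeries τ R}
    (hθ : ∀ i, MvPowerSeries.constantCoeff (θ (MvPowerSeries.X i)) = 0)
    {f : MvPowerSeries (Fin n) ℂ} {N : τ →₀ ℕ} {F₁ : (MvPowerSeries τ R)ˣ}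
    (hF : θ f = MvPowerSeries.monomial N 1 * (F₁ : MvPowerSeries τ R)) {s : ℂ} {ψ : β → R}
    {H : MvPowerSeries τ R}
    (hH1 : ∀ j, (F₁ : MvPowerSeries τ R) * lg j H =
      algebraMap ℂ (MvPowerSeries τ R) s * lg j (F₁ : MvPowerSeries τ R) * H)
    (hH2 : ∀ b, (F₁ : MvPowerSeries τ R) * cw (δ b) H = algebraMap ℂ (MvPowerSeries τ R) s *
      (cw (δ b) (F₁ : MvPowerSeries τ R) - MvPowerSeries.C (ψ b) * (F₁ : MvPowerSeries τ R)) * H)
    {Mon : Finset (Fin n)} {M : Fin n → τ →₀ ℕ}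
    (hM : ∀ i ∈ Mon, θ (MvPowerSeries.X i) = MvPowerSeries.monomial (M i) 1)
    {l : Fin n → ℂ} {ε : τ → ℤ}
    (hε : ∀ j, (ε j : ℂ) + (s + 1) * N j + ∑ i ∈ Mon, l i * M i j = 0)
    {j₀ : τ} {m : ℕ}
    (hm : MvPowerSeries.X j₀ ^ m ∣
      (jm (fun a => rowD δ (e a)) fun i => θ (MvPowerSeries.X i)).det)
    (hj₀ : ε j₀ < m) (hMj : ∀ i ∈ Mon, M i j₀ = 0)
    {b : Polynomial ℂ} (hb : InPs f 1 (b.map (MvPowerSeries.C (σ := Fin n) (R := ℂ))))
    (hs : b.eval s ≠ 0) (c : MvPowerSeries (Fin n) ℂ) :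
    ∃ r : β → R, cz (fun j => ε j + N j)
      (H * ((jm (fun a => rowD δ (e a)) fun i => θ (MvPowerSeries.X i)).det * θ c)) =
      ∑ b, (δ b (r b) + algebraMap ℂ R s * ψ b * r b) := by
  classical
  set J := (jm (fun a => rowD δ (e a)) fun i => θ (MvPowerSeries.X i)).det with hJ
  set G := wG F₁ H with hG
  set ρ : ℕ → (Fin n → ℕ) → MvPowerSeries τ R →+ R ⧸ exSub δ s ψ := fun k L =>
    (QuotientAddGroup.mk' (exSub δ s ψ)).comp ((cz (epsR N Mon M ε k L)).comp
      (AddMonoidHom.mulLeft (G k))) with hρ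
  have hρa : ∀ k L h, ρ k L h = QuotientAddGroup.mk' (exSub δ s ψ)
      (cz (epsR N Mon M ε k L) (G k * h)) := fun k L h => rfl
  have hsucc : ∀ k L, epsR N Mon M ε (k + 1) L = fun j => epsR N Mon M ε k L j + N j := by
    intro k L
    funext j
    unfold epsR
    push_cast
    ring
  have hGs : ∀ k, (F₁ : MvPowerSeries τ R) * G (k + 1) = G k := fun k => wG_succ F₁ H k
  -- the exponents
  have hexp : ∀ k L j, (epsR N Mon M ε k L j : ℂ) + (s + 1 - k) * N j = -tw Mon M l L j := by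
    intro k L j
    have h1 := hε j
    have h2 : ∑ i ∈ Mon, (l i - L i) * (M i j : ℂ) =
        ∑ i ∈ Mon, l i * (M i j : ℂ) - ∑ i ∈ Mon, (L i : ℂ) * M i j := by
      rw [← Finset.sum_sub_distrib]
      exact Finset.sum_congr rfl fun i _ => by ring
    unfold epsR tw
    rw [h2]
    push_cast
    linear_combination h1
  have hcast : ∀ (k : ℕ) (L : Fin n → ℕ) (j : τ),
      ((epsR N Mon M ε k L j : ℤ) : R) + (algebraMap ℂ R s + 1 - (k : R)) * (N j : R) =
        -algebraMap ℂ R (tw Mon M l L j) := by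
    intro k L j
    rw [← map_neg, ← hexp k L j, map_add, map_mul, map_sub, map_add, map_one, map_natCast,
      map_natCast, map_intCast]
  have A1 : ∀ k L h, ρ (k + 1) L (θ f * h) = ρ k L h := by
    intro k L h
    rw [hρa, hρa, hF, hsucc]
    congr 1
    have h1 : G (k + 1) * (MvPowerSeries.monomial N 1 * (F₁ : MvPowerSeries τ R) * h) =
        MvPowerSeries.monomial N 1 * (G k * h) := by
      rw [← hGs k]; ring
    rw [h1, cz_monomial_mul]
  have A2 : ∀ k L a h, ρ (k + 1) L (θ f * rowD δ (e a) h +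
      (algebraMap ℂ (MvPowerSeries τ R) s + 1 - (k : MvPowerSeries τ R)) *
        rowD δ (e a) (θ f) * h) = -ρ k L (lamR e Mon M l L a * h) := by
    intro k L a h
    rw [hρa, hρa, hsucc]
    rcases hea : e a with j | b'
    · -- logarithmic row
      have h1 : lamR e Mon M l L a = algebraMap ℂ (MvPowerSeries τ R) (tw Mon M l L j) := by
        unfold lamR
        rw [hea]
      have hd : lg j (G k) = (algebraMap ℂ (MvPowerSeries τ R) s + 1 - (k : MvPowerSeries τ R)) *
          lg j (F₁ : MvPowerSeries τ R) * G (k + 1) := by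
        have h2 := deriv_wG (lg j) F₁ (H := H) (S := algebraMap ℂ (MvPowerSeries τ R) s) (Ψ := 0)
          (by rw [hH1 j]; ring) k
        rw [h2]
        ring
      have h3 : G (k + 1) * (θ f * rowD δ (Sum.inl j) h +
          (algebraMap ℂ (MvPowerSeries τ R) s + 1 - (k : MvPowerSeries τ R)) *
            rowD δ (Sum.inl j) (θ f) * h) =
          MvPowerSeries.monomial N 1 * (lg j (G k * h) +
            MvPowerSeries.C ((algebraMap ℂ R s + 1 - (k : R)) * (N j : R)) * (G k * h)) := by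
        have h4 : (MvPowerSeries.C ((algebraMap ℂ R s + 1 - (k : R)) * (N j : R)) :
            MvPowerSeries τ R) = (algebraMap ℂ (MvPowerSeries τ R) s + 1 -
              (k : MvPowerSeries τ R)) * (N j : MvPowerSeries τ R) := by
          rw [map_mul, map_sub, map_add, map_one, map_natCast, map_natCast,
            MvPowerSeries.algebraMap_apply]
        rw [h4, hF]
        simp only [rowD]
        rw [Derivation.leibniz, Derivation.leibniz, lg_monomial, hd, smul_eq_mul, smul_eq_mul,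
          smul_eq_mul, smul_eq_mul, ← hGs k]
        ring
      rw [h3, cz_monomial_mul, map_add, cz_lg, cz_C_mul, ← add_mul, hcast, h1]
      have h5 : G k * (algebraMap ℂ (MvPowerSeries τ R) (tw Mon M l L j) * h) =
          algebraMap ℂ (MvPowerSeries τ R) (tw Mon M l L j) * (G k * h) := by ring
      rw [h5, cz_algebraMap_mul, neg_mul, map_neg]
    · -- row of a derivation of the coefficients
      have h1 : (lamR e Mon M l L a : MvPowerSeries τ R) = 0 := by
        unfold lamR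
        rw [hea]
      have hd : cw (δ b') (G k) =
          (algebraMap ℂ (MvPowerSeries τ R) s + 1 - (k : MvPowerSeries τ R)) *
          cw (δ b') (F₁ : MvPowerSeries τ R) * G (k + 1) -
          algebraMap ℂ (MvPowerSeries τ R) s * MvPowerSeries.C (ψ b') * G k :=
        deriv_wG (cw (δ b')) F₁ (hH2 b') k
      have h3 : G (k + 1) * (θ f * rowD δ (Sum.inr b') h +
          (algebraMap ℂ (MvPowerSeries τ R) s + 1 - (k : MvPowerSeries τ R)) *
            rowD δ (Sum.inr b') (θ f) * h) =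
          MvPowerSeries.monomial N 1 * (cw (δ b') (G k * h) +
            MvPowerSeries.C (algebraMap ℂ R s * ψ b') * (G k * h)) := by
        have h4 : (MvPowerSeries.C (algebraMap ℂ R s * ψ b') : MvPowerSeries τ R) =
            algebraMap ℂ (MvPowerSeries τ R) s * MvPowerSeries.C (ψ b') := by
          rw [map_mul, MvPowerSeries.algebraMap_apply]
        rw [h4, hF]
        simp only [rowD]
        rw [Derivation.leibniz, Derivation.leibniz, cw_monomial, hd, smul_eq_mul, smul_eq_mul,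
          smul_eq_mul, smul_eq_mul, ← hGs k]
        ring
      rw [h3, cz_monomial_mul, map_add, cz_cw, cz_C_mul, h1, zero_mul, mul_zero, map_zero,
        map_zero, neg_zero]
      exact (QuotientAddGroup.eq_zero_iff _).2 (single_mem_exSub δ s ψ b' _)
  have A3 : ∀ L c, ρ 0 L (J * θ c) = 0 := by
    intro L c
    rw [hρa]
    have h1 : cz (epsR N Mon M ε 0 L) (G 0 * (J * θ c)) = 0 := by
      refine cz_of_dvd (j := j₀) (m := m) (Dvd.dvd.mul_left (Dvd.dvd.mul_right hm _) _) ?_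
      unfold epsR
      rw [Finset.sum_eq_zero fun i hi => by rw [hMj i hi]; simp]
      push_cast
      linarith
    rw [h1, map_zero]
  have A4 : ∀ L i, ∃ (L' : Fin n → ℕ) (l' : ℂ), ∀ k h,
      ρ k L ((∑ a, lamR e Mon M l L a *
        (jm (fun a => rowD δ (e a)) fun i => θ (MvPowerSeries.X i)).adjugate i a) * h) =
        ρ k L' (algebraMap ℂ (MvPowerSeries τ R) l' * J * h) := by
    intro L i
    by_cases hi : i ∈ Mon
    · refine ⟨fun i' => if i' = i then L i' + 1 else L i', l i - L i, fun k h => ?_⟩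
      rw [hρa, hρa]
      congr 1
      have h1 := twist_mem e δ hM l L hi
      have h0 : ∀ j, ∑ i' ∈ Mon, (if i' = i then L i' + 1 else L i') * M i' j =
          ∑ i' ∈ Mon, L i' * M i' j + M i j := by
        intro j
        rw [← Finset.add_sum_erase _ _ hi, ← Finset.add_sum_erase _ (fun i => L i * M i j) hi,
          if_pos rfl, Finset.sum_congr rfl fun i' hi' => by
            rw [if_neg (Finset.ne_of_mem_erase hi')]]
        ring
      have h2 : epsR N Mon M ε k (fun i' => if i' = i then L i' + 1 else L i') =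
          fun j => epsR N Mon M ε k L j + M i j := by
        funext j
        have h3 := congrArg (Nat.cast (R := ℤ)) (h0 j)
        unfold epsR
        push_cast at h3 ⊢
        rw [h3]
        ring
      rw [h2, ← cz_monomial_mul (M i), ← hM i hi]
      congr 1
      linear_combination (G k * h) * h1
    · refine ⟨L, 0, fun k h => ?_⟩
      rw [twist_notMem e δ hM l L hi, map_zero, zero_mul, zero_mul, zero_mul]
  have hfin := residue_b (fun a b h => rowD_comm hδ (e a) (e b) h)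
    (fun a h => chain hθ (rowD δ (e a)) h) A1 A2 A3 A4 hb hs (fun _ => 0) c
  rw [hρa] at hfin
  have h1 : epsR N Mon M ε 1 (fun _ => 0) = fun j => ε j + N j := by
    funext j
    unfold epsR
    simp
  rw [h1, hG, wG_one] at hfin
  exact (QuotientAddGroup.eq_zero_iff _).1 hfin

end ARL

end MPb07157
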