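import Pool.Agent.Lib.MP_b07157_agR.Defs
import Pool.Agent.Lib.MP_b07157_agL3.U

/-!
# Uniqueness of the Hermite reduction, if the sum of the exponents is `-1`
-/

noncomputable section

namespace MPb07157.TR

open MvPolynomial TL

variable {L F : Type} [Field L] [Field F] [Algebra L F] {ι : Type} [Fintype ι] [DecidableEq ι]

open UU in
/-- A solution is a polynomial. -/
theorem uniq_poly1 (W : WF L F) {c : ι → L} (hc : Function.Injective c) {σ : ι → L}
    (hσ : ∀ i, ∀ k : ℕ, 0 < k → σ i ≠ k) {a : ι → L} {γ : L} {R : F}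
    (hR : R ∈ SS W c) (h : algebraMap L F γ + lg W c a = nb W.dw (lg W c σ) R) :
    ∃ P : Polynomial L, R = Polynomial.aeval W.w P := by
  classical
  have hex : ∃ n : ℕ, ∃ k : ι → ℕ, ∑ i, k i = n ∧ ∃ P : Polynomial L,
      R * Polynomial.aeval W.w (∏ i, (Polynomial.X - Polynomial.C (c i)) ^ k i) =
        Polynomial.aeval W.w P := by
    obtain ⟨N, P, h1⟩ := exists_frac W c hR
    refine ⟨_, fun _ => N, rfl, P, ?_⟩
    rw [Finset.prod_pow, map_pow]
    exact h1
  obtain ⟨k, hk, P, hP⟩ := Nat.find_spec hex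
  by_cases h0 : ∀ i, k i = 0
  · refine ⟨P, ?_⟩
    rw [← hP]
    have h1 : ∏ i, (Polynomial.X - Polynomial.C (c i)) ^ k i = 1 :=
      Finset.prod_eq_one fun i _ => by rw [h0 i, pow_zero]
    rw [h1, map_one, mul_one]
  exfalso
  push Not at h0
  obtain ⟨i, hi⟩ := h0
  obtain ⟨m, hm⟩ : ∃ m, k i = m + 1 := ⟨k i - 1, by omega⟩
  -- the other factors
  set Q : Polynomial L := ∏ j ∈ Finset.univ.erase i, (Polynomial.X - Polynomial.C (c j)) ^ k j
    with hQ
  have hprod : ∏ j, (Polynomial.X - Polynomial.C (c j)) ^ k j =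
      (Polynomial.X - Polynomial.C (c i)) ^ (m + 1) * Q := by
    rw [← hm]
    exact (Finset.mul_prod_erase Finset.univ _ (Finset.mem_univ i)).symm
  have hQi : Q.eval (c i) ≠ 0 := by
    rw [hQ, Polynomial.eval_prod, Finset.prod_ne_zero_iff]
    intro j hj
    rw [Polynomial.eval_pow, Polynomial.eval_sub, Polynomial.eval_X, Polynomial.eval_C]
    exact pow_ne_zero _ (sub_ne_zero.2 fun h => (Finset.ne_of_mem_erase hj) (hc h).symm)
  have hu := ne_c W (c i)
  obtain ⟨u, hu'⟩ : ∃ u, u = W.w - algebraMap L F (c i) := ⟨_, rfl⟩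
  have hXu : Polynomial.aeval W.w (Polynomial.X - Polynomial.C (c i)) = u := by
    rw [map_sub, Polynomial.aeval_X, Polynomial.aeval_C, hu']
  rw [← hu'] at hu
  rw [hprod, map_mul, map_pow, hXu] at hP
  obtain ⟨q, hq⟩ : ∃ q, q = Polynomial.aeval W.w Q := ⟨_, rfl⟩
  rw [← hq] at hP
  -- `P` does not vanish at `c_i`
  have hPi : P.eval (c i) ≠ 0 := by
    intro h1
    obtain ⟨P1, hP1⟩ := Polynomial.dvd_iff_isRoot.2 h1
    have h2 : R * (u ^ m * q) = Polynomial.aeval W.w P1 := by
      rw [hP1, map_mul, hXu] at hP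
      apply mul_left_cancel₀ hu
      rw [← hP]
      ring
    refine Nat.find_min hex (m := ∑ j, Function.update k i m j) ?_
      ⟨Function.update k i m, rfl, P1, ?_⟩
    · rw [← hk, ← Finset.add_sum_erase _ _ (Finset.mem_univ i),
        ← Finset.add_sum_erase _ _ (Finset.mem_univ i), Function.update_self, hm]
      have h3 : ∑ j ∈ Finset.univ.erase i, Function.update k i m j =
          ∑ j ∈ Finset.univ.erase i, k j :=
        Finset.sum_congr rfl fun j hj => by
          rw [Function.update_of_ne (Finset.ne_of_mem_erase hj)]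
      rw [h3]
      omega
    · have h3 : ∏ j, (Polynomial.X - Polynomial.C (c j)) ^ Function.update k i m j =
          (Polynomial.X - Polynomial.C (c i)) ^ m * Q := by
        rw [← Finset.mul_prod_erase _ _ (Finset.mem_univ i), Function.update_self]
        congr 1
        refine Finset.prod_congr rfl fun j hj => ?_
        rw [Function.update_of_ne (Finset.ne_of_mem_erase hj)]
      rw [h3, map_mul, map_pow, hXu, ← hq]
      exact h2
  -- the differential equation
  have hdu : W.dw u = 1 := by rw [hu', map_sub, W.dw_w, dw_alg W, sub_zero]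
  have hdP : W.dw R * (u ^ (m + 1) * q) + R * ((m + 1 : ℕ) * u ^ m * q +
      u ^ (m + 1) * Polynomial.aeval W.w (Polynomial.derivative Q)) =
      Polynomial.aeval W.w (Polynomial.derivative P) := by
    rw [← dw_aeval W P, ← hP, Derivation.leibniz, Derivation.leibniz, Derivation.leibniz_pow, hdu,
      Nat.add_sub_cancel, hq, dw_aeval W Q, smul_eq_mul, smul_eq_mul, smul_eq_mul, smul_eq_mul,
      nsmul_eq_mul, smul_eq_mul, mul_one]
    ring
  have hGG : Polynomial.aeval W.w (GG c) = u * Polynomial.aeval W.w (Gi c i) := by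
    rw [GG_eq c i, map_mul, hXu]
  have ha := lg_GG W c a
  have hs := lg_GG W c σ
  rw [hGG] at ha hs
  have key : (Polynomial.C γ * GG c + AA c a) * (Polynomial.X - Polynomial.C (c i)) ^ (m + 1) * Q ^ 2 =
      (Polynomial.X - Polynomial.C (c i)) * Gi c i * (Q * Polynomial.derivative P -
        P * Polynomial.derivative Q) - ((m + 1 : ℕ) : Polynomial L) * Gi c i * P * Q +
      AA c σ * P * Q := by
    apply W.inj
    simp only [map_mul, map_add, map_sub, map_pow, map_natCast, Polynomial.aeval_C]
    have hXu' : Polynomial.aeval W.w (Polynomial.X : Polynomial L) -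
        algebraMap L F (c i) = u := by
      rw [← hXu, map_sub, Polynomial.aeval_C]
    rw [hGG, ← ha, ← hs, ← hdP, ← hP, ← hq, hXu']
    unfold nb at h
    linear_combination (u * Polynomial.aeval W.w (Gi c i) * u ^ (m + 1) * q ^ 2) * h
  have key2 := congrArg (Polynomial.eval (c i)) key
  simp only [Polynomial.eval_mul, Polynomial.eval_add, Polynomial.eval_sub, Polynomial.eval_pow,
    Polynomial.eval_X, Polynomial.eval_C, Polynomial.eval_natCast, sub_self, AA_eval] at key2
  rw [zero_pow (Nat.succ_ne_zero m)] at key2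
  have key3 : (σ i - ((m + 1 : ℕ) : L)) *
      ((Gi c i).eval (c i) * P.eval (c i) * Q.eval (c i)) = 0 := by
    linear_combination -key2
  rcases mul_eq_zero.1 key3 with h1 | h1
  · exact hσ i (m + 1) (Nat.succ_pos m) (sub_eq_zero.1 h1)
  · exact mul_ne_zero (mul_ne_zero (Gi_eval_self hc i) hPi) hQi h1

open UU in
/-- If `γ + ∑ a_i / (w - c_i) = ∇ R` and `∑ σ_i = -1`, then `R` is a polynomial of degree `≤ 1`. -/
theorem uniq1 [CharZero L] (W : WF L F) {c : ι → L} (hc : Function.Injective c) {σ : ι → L}
    (hσ : WRes σ) (h1 : (∑ i, σ i) + 1 = 0) {a : ι → L} {γ : L} {R : F} (hR : R ∈ SS W c)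
    (h : algebraMap L F γ + lg W c a = nb W.dw (lg W c σ) R) :
    γ = 0 ∧ ∃ κ κ' : L, ∀ i, a i = σ i * (κ + κ' * c i) := by
  obtain ⟨P, hP⟩ := uniq_poly1 W hc hσ.1 hR h
  have key : Polynomial.C γ * GG c + AA c a = Polynomial.derivative P * GG c + AA c σ * P := by
    apply W.inj
    rw [map_add, map_add, map_mul, map_mul, map_mul, Polynomial.aeval_C, ← lg_GG W c a,
      ← lg_GG W c σ, ← hP, ← dw_aeval W, ← hP]
    unfold nb at h
    linear_combination (Polynomial.aeval W.w (GG c)) * h
  have hGm : (GG c).Monic := Polynomial.monic_prod_of_monic _ _ fun i _ =>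
    Polynomial.monic_X_sub_C (c i)
  have hGd : (GG c).natDegree = Fintype.card ι := by
    unfold GG
    rw [Polynomial.natDegree_prod_of_monic _ _ fun i _ => Polynomial.monic_X_sub_C (c i)]
    simp
  have hGim : ∀ i, (Gi c i).Monic := fun i => Polynomial.monic_prod_of_monic _ _ fun j _ =>
    Polynomial.monic_X_sub_C (c j)
  have hGid : ∀ i, (Gi c i).natDegree = Fintype.card ι - 1 := by
    intro i
    unfold Gi
    rw [Polynomial.natDegree_prod_of_monic _ _ fun j _ => Polynomial.monic_X_sub_C (c j)]
    simp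
  have hAc : ∀ b : ι → L, (AA c b).coeff (Fintype.card ι - 1) = ∑ i, b i := by
    intro b
    unfold AA
    rw [Polynomial.finsetSum_coeff]
    refine Finset.sum_congr rfl fun i _ => ?_
    rw [Polynomial.coeff_C_mul, ← hGid i, (hGim i).coeff_natDegree, mul_one]
  have hAd : ∀ b : ι → L, (AA c b).natDegree ≤ Fintype.card ι - 1 := by
    intro b
    unfold AA
    refine Polynomial.natDegree_sum_le_of_forall_le _ _ fun i _ => ?_
    rw [← hGid i]
    exact Polynomial.natDegree_C_mul_le _ _
  have hn : 0 < Fintype.card ι := by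
    rcases Nat.eq_zero_or_pos (Fintype.card ι) with hn | hn
    · exfalso
      have hι : IsEmpty ι := Fintype.card_eq_zero_iff.1 hn
      rw [Finset.univ_eq_empty, Finset.sum_empty, zero_add] at h1
      exact one_ne_zero h1
    · exact hn
  -- the degree of `P`
  have hdeg : P.natDegree ≤ 1 := by
    by_contra hne
    obtain ⟨k, hk⟩ : ∃ k, P.natDegree = k + 1 := ⟨P.natDegree - 1, by omega⟩
    have hP0 : P.leadingCoeff ≠ 0 := by
      rw [Ne, Polynomial.leadingCoeff_eq_zero]
      intro h1
      rw [h1, Polynomial.natDegree_zero] at hk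
      omega
    have h2 := congrArg (fun Q => Polynomial.coeff Q (Fintype.card ι - 1 + (k + 1))) key
    beta_reduce at h2
    rw [Polynomial.coeff_add, Polynomial.coeff_C_mul,
      Polynomial.coeff_eq_zero_of_natDegree_lt (p := GG c) (by omega), mul_zero, zero_add,
      Polynomial.coeff_eq_zero_of_natDegree_lt (p := AA c a) (by have := hAd a; omega),
      Polynomial.coeff_add, ← hk, Polynomial.coeff_mul_add_eq_of_natDegree_le (hAd σ) le_rfl, hAc,
      Polynomial.coeff_natDegree] at h2
    have h3 : (Polynomial.derivative P * GG c).coeff (Fintype.card ι - 1 + P.natDegree) =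
        P.leadingCoeff * ((k + 1 : ℕ) : L) := by
      have e1 : Fintype.card ι - 1 + P.natDegree = k + Fintype.card ι := by omega
      rw [e1, Polynomial.coeff_mul_add_eq_of_natDegree_le
        (by have := Polynomial.natDegree_derivative_le P; omega) hGd.le, ← hGd,
        hGm.coeff_natDegree, mul_one, Polynomial.coeff_derivative, ← hk,
        Polynomial.coeff_natDegree, hk]
      push_cast
      ring
    rw [h3] at h2
    have h4 : P.leadingCoeff * ((∑ i, σ i) + ((k + 1 : ℕ) : L)) = 0 := by
      linear_combination -h2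
    exact hσ.2 (k + 1) (by omega) ((mul_eq_zero.1 h4).resolve_left hP0)
  obtain ⟨κ, κ', hκ⟩ : ∃ κ κ', P = Polynomial.C κ + Polynomial.C κ' * Polynomial.X :=
    ⟨P.coeff 0, P.coeff 1, by
      rw [add_comm]; exact Polynomial.eq_X_add_C_of_natDegree_le_one hdeg⟩
  have hdP : Polynomial.derivative P = Polynomial.C κ' := by
    rw [hκ, Polynomial.derivative_add, Polynomial.derivative_C, zero_add,
      Polynomial.derivative_C_mul, Polynomial.derivative_X, mul_one]
  rw [hdP] at key
  refine ⟨?_, κ, κ', fun i => ?_⟩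
  · have h2 := congrArg (fun Q => Polynomial.coeff Q (Fintype.card ι - 1 + 1)) key
    beta_reduce at h2
    have e1 : Fintype.card ι - 1 + 1 = (GG c).natDegree := by omega
    have h3 : (AA c σ * P).coeff (Fintype.card ι - 1 + 1) = (∑ i, σ i) * κ' := by
      rw [Polynomial.coeff_mul_add_eq_of_natDegree_le (hAd σ) hdeg, hAc, hκ]
      simp
    rw [Polynomial.coeff_add, Polynomial.coeff_add, h3, Polynomial.coeff_C_mul,
      Polynomial.coeff_C_mul,
      Polynomial.coeff_eq_zero_of_natDegree_lt (p := AA c a) (by have := hAd a; omega), e1,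
      hGm.coeff_natDegree] at h2
    linear_combination h2 + κ' * h1
  · have h2 := congrArg (Polynomial.eval (c i)) key
    have h3 : (GG c).eval (c i) = 0 := by
      rw [GG_eq c i, Polynomial.eval_mul, Polynomial.eval_sub, Polynomial.eval_X,
        Polynomial.eval_C, sub_self, zero_mul]
    rw [Polynomial.eval_add, Polynomial.eval_add, Polynomial.eval_mul, Polynomial.eval_mul,
      Polynomial.eval_mul, h3, mul_zero, mul_zero, zero_add, zero_add, AA_eval, AA_eval, hκ,
      Polynomial.eval_add, Polynomial.eval_mul, Polynomial.eval_C, Polynomial.eval_C,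
      Polynomial.eval_X] at h2
    apply mul_right_cancel₀ (Gi_eval_self hc i)
    linear_combination h2

end MPb07157.TR
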