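import Pool.Agent.Lib.MP_b07157_agR.E1
import Pool.Agent.Lib.MP_b07157_agR.U1
import Pool.Agent.Lib.MP_b07157_agR.H1
import Pool.Agent.Lib.MP_b07157_agL3.LT

/-!
# The vector field is regular at the finite places, if `3 ∑ m_i = d`
-/

noncomputable section

namespace MPb07157.TR

open MvPolynomial TL

variable {F : Type} [Field F] [Algebra L0 F] [Algebra ℂ F] [IsScalarTower ℂ L0 F]
  {ι : Type} [Fintype ι] [DecidableEq ι]
  {f : MvPolynomial (Fin 3) ℂ} {d : ℕ} {b : Polynomial ℂ} {K : ℕ}
  {θ : Fin 3 → MvPolynomial (Fin 3) (Polynomial ℂ)}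
  {t0 : ℂ} {c : ι → L0} {m : ι → ℕ} {A0 : L0} {α : ι → L0} {γ : L0}

namespace LT1aux

open TL.LTaux

theorem sg_none_s0 (hd : 0 < d) : sg d m (s0 d) none = 0 := by
  unfold sg aO bO
  push_cast
  have h3 := d_mul_s0 hd
  have h4 : -(d : ℂ) * s0 d + -3 = 0 := by linear_combination -h3
  rw [h4, map_zero]

/-- The sum of the exponents. -/
theorem sum_sg (s : ℂ) : ∑ i, sg d m s i =
    HahnSeries.C (s * ((∑ i, m i : ℕ) : ℂ) - d * s - 3) := by
  rw [Fintype.sum_option]
  have h3 : ∑ i, sg d m s (some i) = HahnSeries.C (s * ((∑ i, m i : ℕ) : ℂ)) := by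
    rw [Nat.cast_sum, Finset.mul_sum, map_sum]
    refine Finset.sum_congr rfl fun i _ => ?_
    unfold sg aO bO
    push_cast
    rw [add_zero, mul_comm]
  rw [h3]
  unfold sg aO bO
  rw [← map_add]
  congr 1
  push_cast
  ring

theorem sum_sg_s0 (hd : 0 < d) (h1 : 3 * ∑ i, m i = d) : (∑ i, sg d m (s0 d) i) + 1 = 0 := by
  have hdC : (d : ℂ) ≠ 0 := by exact_mod_cast hd.ne'
  have h2 : (3 : ℂ) * ((∑ i, m i : ℕ) : ℂ) = d := by exact_mod_cast h1
  rw [sum_sg, ← map_one (HahnSeries.C : ℂ →+* L0), ← map_add,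
    ← map_zero (HahnSeries.C : ℂ →+* L0)]
  congr 1
  unfold s0
  field_simp
  linear_combination -h2

theorem wRes_sg_s0 (hm : ∀ i, 0 < m i) (hd : 0 < d) (h1 : 3 * ∑ i, m i = d) :
    WRes (sg d m (s0 d)) := by
  have : CharZero L0 := charZero_of_injective_algebraMap (algebraMap ℂ L0).injective
  have hdC : (d : ℂ) ≠ 0 := by exact_mod_cast hd.ne'
  have hn : sg d m (s0 d) none = 0 := sg_none_s0 hd
  constructor
  · intro i k hk h
    cases i with
    | none =>
      rw [hn] at h
      exact (Nat.cast_ne_zero.2 hk.ne') h.symm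
    | some i =>
      unfold sg aO bO s0 at h
      have h3 : ((k : ℕ) : L0) = HahnSeries.C (k : ℂ) := by rw [map_natCast]
      rw [h3] at h
      have h4 := HahnSeries.C_injective h
      push_cast at h4
      have h5 : -(3 * (m i : ℂ)) = k * d := by
        field_simp at h4
        linear_combination h4
      have h6 : -(3 * (m i : ℤ)) = k * d := by exact_mod_cast h5
      have h7 : (0 : ℤ) ≤ k * d := by positivity
      have h8 : (0 : ℤ) ≤ m i := by positivity
      have h9 := hm i
      omega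
  · intro k hk h
    have h2 := sum_sg_s0 (m := m) hd h1
    have h3 : (k : L0) = 1 := by linear_combination h - h2
    have h4 : k = 1 := by exact_mod_cast h3
    omega

/-- The constants are exact up to logarithmic terms. -/
theorem nb_w {L : Type} [Field L] [Algebra L F] {ι : Type} [Fintype ι] (W : WF L F) (c σ : ι → L) :
    nb W.dw (lg W c σ) W.w =
      algebraMap L F (1 + ∑ i, σ i) + lg W c (fun i => σ i * c i) := by
  unfold nb lg
  rw [W.dw_w, map_add, map_one, map_sum, add_assoc, ← Finset.sum_add_distrib, Finset.sum_mul]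
  congr 1
  refine Finset.sum_congr rfl fun i _ => ?_
  have hne := UU.ne_c W (c i)
  rw [map_mul]
  field_simp
  ring

theorem le_sub {ν : WithTop ℚ} {x y : L0} (hx : ν ≤ x.orderTop) (hy : ν ≤ y.orderTop) :
    ν ≤ (x - y).orderTop := by
  rw [sub_eq_add_neg]
  refine le_trans (le_min hx ?_) HahnSeries.min_orderTop_le_orderTop_add
  rw [HahnSeries.orderTop_neg]
  exact hy

end LT1aux

open TL.LTaux LT1aux

/-- The vector field is regular, and it vanishes at the special lines. -/
theorem regular1 (hf : f.IsHomogeneous d) (h : Thet f d b K θ) (W : WF L0 F)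
    (hF : Fac f (HahnSeries.C t0 + tau) c m A0) (hd : 0 < d) (h1 : 3 * ∑ i, m i = d)
    (hα : Cl1 f d K θ W (HahnSeries.C t0 + tau) c m α γ) {i j : ι} (hij : i ≠ j) :
    (0 ≤ γ.orderTop ∧ (Spec f 1 t0 → ((1 : ℚ) : WithTop ℚ) ≤ γ.orderTop)) ∧
    ∀ k l, k ≠ l → 0 ≤ (xi c α i j - xi c α k l).orderTop ∧
      (Spec f 1 t0 → ((1 : ℚ) : WithTop ℚ) ≤ (xi c α i j - xi c α k l).orderTop) := by
  have hd0 : 0 < d := hd
  have hlt : ∑ i, m i < d := by omega
  have hs0 := s0_ne hd0
  obtain ⟨lam, -, hlam⟩ := exists_lam c ∅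
  have hinj := cO_inj hF.inj (fun i => (hlam i).1)
  obtain ⟨T, hT⟩ := exists_TF W dtau
  set t : F := algebraMap L0 F (HahnSeries.C t0 + tau) with ht
  set w : F := W.w with hw
  have hg : aeval (pt w t) f ≠ 0 := g_ne W hF
  have hl : w ≠ algebraMap ℂ F lam := by
    rw [algF]
    exact w_ne W _
  obtain ⟨j', p, u, hch⟩ := chart_part hf h (dt := T.dt) (dw := W.dw.restrictScalars ℂ)
    (w := w) (t := t) W.dw_w (W.dw.map_algebraMap _) T.dt_w
    (by rw [ht, T.dt_alg, hT, dtau_T, map_one]) hg hl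
  have hch' : ∀ s, ChartEq f d K θ lam j' p u T.dt W.dw w t s := hch
  -- Hermite reduction
  set A : Polynomial F := B1 f K θ w t +
    (Polynomial.C (d : F) * Polynomial.X + Polynomial.C 3) * U1 f lam (K + j') u w t with hA
  have hAS : ∀ k, A.coeff k ∈ SS W (cO c lam) := by
    intro k
    rw [hA, Polynomial.coeff_add]
    refine add_mem (SS_le W c lam (B1_mem W hF K θ k)) (coeff_lin_mul
      (fun k => U1_mem W hf hF lam _ u k) (natCast_mem _ d) ?_ k)
    exact_mod_cast natCast_mem (SS W (cO c lam)) 3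
  have hAev : ∀ s : ℂ, A.eval (algebraMap ℂ F s) = (B1 f K θ w t).eval (algebraMap ℂ F s) +
      algebraMap ℂ F (d * s + 3) * (U1 f lam (K + j') u w t).eval (algebraMap ℂ F s) := by
    intro s
    rw [hA, Polynomial.eval_add, Polynomial.eval_mul, Polynomial.eval_add, Polynomial.eval_mul,
      Polynomial.eval_C, Polynomial.eval_C, Polynomial.eval_X, map_add, map_mul, map_natCast,
      map_ofNat]
  obtain ⟨D, g, a, hD, hred⟩ := hermite1 W hinj (sgP d m) A hAS
  have hsgP : ∀ s : ℂ, (fun i => algebraMap ℂ L0 ((sgP d m i).eval s)) = sg d m s := by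
    intro s
    funext i
    unfold sgP sg
    rw [Polynomial.eval_add, Polynomial.eval_mul, Polynomial.eval_C, Polynomial.eval_C,
      Polynomial.eval_X, algebraMap_L0]
  -- the value at `s0`
  have hds0 := d_mul_s0 hd0
  have hNR0 := wRes_sg_s0 (m := m) hF.pos hd0 h1
  have hDs0 : D.eval (s0 d) ≠ 0 := hD _ (by rw [hsgP]; exact hNR0)
  obtain ⟨r, hr, hB⟩ := hα
  obtain ⟨r0, hr0, hr0'⟩ := hred (s0 d)
  rw [hsgP, ← IsScalarTower.algebraMap_apply ℂ L0 F (s0 d), hAev, hds0, map_zero, zero_mul,
    add_zero] at hr0'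
  set ext : Option ι → L0 := fun i => Option.elim i 0 (fun i => s0m d m i * α i) with hext
  have hlgσ : lg W (cO c lam) (sg d m (s0 d)) = lg W c (s0m d m) := by
    rw [lg_option, sg_none_s0 hd0, map_zero, zero_mul, add_zero]
    congr 1
    funext i
    unfold sg aO bO s0m
    rw [algebraMap_L0]
    push_cast
    rw [add_zero, mul_comm]
  have hlge : lg W (cO c lam) ext = lg W c (fun i => s0m d m i * α i) := by
    rw [lg_option, hext]
    simp only [Option.elim_none, Option.elim_some, map_zero, zero_mul, add_zero]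
  have : CharZero L0 := charZero_of_injective_algebraMap (algebraMap ℂ L0).injective
  have hu := uniq1 W hinj hNR0 (sum_sg_s0 hd0 h1)
    (a := fun i => (a i).eval (algebraMap ℂ L0 (s0 d)) + (-HahnSeries.C (D.eval (s0 d))) * ext i)
    (γ := g.eval (algebraMap ℂ L0 (s0 d)) + (-HahnSeries.C (D.eval (s0 d))) * γ)
    (R := algebraMap L0 F (HahnSeries.C (D.eval (s0 d))) * r + algebraMap L0 F (-1) * r0)
    (add_mem (mul_mem (Subalgebra.algebraMap_mem _ _) (SS_le W c lam hr))
      (mul_mem (Subalgebra.algebraMap_mem _ _) hr0)) (by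
      rw [LTaux.lg_add, LTaux.lg_smul, hlge, LTaux.nb_add, LTaux.nb_smul, LTaux.nb_smul]
      simp only [map_add, map_mul, map_neg, map_one]
      rw [hB, algebraMap_L0] at hr0'
      rw [← hlgσ] at hr0'
      linear_combination -hr0')
  obtain ⟨hγ, κ, κ', hκ⟩ := hu
  have hγ' : g.eval (HahnSeries.C (s0 d)) = HahnSeries.C (D.eval (s0 d)) * γ := by
    rw [algebraMap_L0] at hγ
    linear_combination hγ
  have ha0 : (a none).eval (algebraMap ℂ L0 (s0 d)) = 0 := by
    have h5 := hκ none
    rw [sg_none_s0 hd0, zero_mul, hext] at h5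
    simpa using h5
  obtain ⟨Q, hQ⟩ := poly_dvd (a none) (s0 d) ha0
  have hdC : (d : ℂ) ≠ 0 := by exact_mod_cast hd0.ne'
  have hmC : ∀ i, (m i : ℂ) ≠ 0 := fun i => by exact_mod_cast (hF.pos i).ne'
  -- the polynomials
  set te : ℂ → ℂ := fun s => 1 + (s * ((∑ i, m i : ℕ) : ℂ) - d * s - 3) with hte
  set TP : Polynomial L0 := Polynomial.C (HahnSeries.C (((∑ i, m i : ℕ) : ℂ) - d)) *
    Polynomial.X + Polynomial.C (HahnSeries.C (-2)) with hTP
  have hTPe : ∀ s : ℂ, TP.eval (HahnSeries.C s) = HahnSeries.C (te s) := by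
    intro s
    rw [hTP, hte]
    simp only [Polynomial.eval_add, Polynomial.eval_mul, Polynomial.eval_C, Polynomial.eval_X]
    rw [← map_mul, ← map_add]
    congr 1
    ring
  set Y : ι → ι → Polynomial L0 := fun i j => Polynomial.C (c i - c j)⁻¹ *
    (Polynomial.C (HahnSeries.C ((m i : ℂ)⁻¹)) * a (some i) -
      Polynomial.C (HahnSeries.C ((m j : ℂ)⁻¹)) * a (some j)) with hY
  set R : ι → ι → Polynomial L0 := fun i j => TP * Y i j - Polynomial.X * g with hR
  have hRe : ∀ i j (s : ℂ), (R i j).eval (HahnSeries.C s) =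
      HahnSeries.C (te s) * (Y i j).eval (HahnSeries.C s) -
        HahnSeries.C s * g.eval (HahnSeries.C s) := by
    intro i j s
    rw [hR]
    simp only [Polynomial.eval_sub, Polynomial.eval_mul, Polynomial.eval_X]
    rw [hTPe]
  have hte0 : te (s0 d) = 0 := by
    have h2 : (3 : ℂ) * ((∑ i, m i : ℕ) : ℂ) = d := by exact_mod_cast h1
    rw [hte]
    show 1 + (s0 d * ((∑ i, m i : ℕ) : ℂ) - d * s0 d - 3) = 0
    unfold s0
    field_simp
    linear_combination -h2
  have hteirr : ∀ s : ℂ, (∀ q : ℚ, s ≠ (q : ℂ)) → te s ≠ 0 := by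
    intro s hs h0
    have h2 : (3 : ℂ) * ((∑ i, m i : ℕ) : ℂ) = d := by exact_mod_cast h1
    refine hs (-3 / d) ?_
    push_cast
    rw [eq_div_iff hdC]
    have h3 : 1 + (s * ((∑ i, m i : ℕ) : ℂ) - d * s - 3) = 0 := h0
    linear_combination (-3 / 2 : ℂ) * h3 + (s / 2) * h2
  -- the bound for irrational `s`
  have hbound : ∀ i j, i ≠ j → ∀ s : ℂ, (∀ q : ℚ, s ≠ (q : ℂ)) →
      0 ≤ ((R i j).eval (HahnSeries.C s)).orderTop ∧
        (Spec f 1 t0 → ((1 : ℚ) : WithTop ℚ) ≤ ((R i j).eval (HahnSeries.C s)).orderTop) := by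
    intro i j hij s hs
    have hsne : s ≠ 0 := by
      intro h0
      exact hs 0 (by rw [h0]; norm_num)
    have hNR := nonRes_sg (m := m) hF.pos hlt hs
    have hsum : (∑ i, sg d m s i) = HahnSeries.C (te s - 1) := by
      rw [sum_sg, hte]
      congr 1
      ring
    have hts := hteirr s hs
    have hDs : D.eval s ≠ 0 := by
      refine hD s ?_
      rw [hsgP]
      exact ⟨hNR.1.1, fun k hk => hNR.1.2 k (by omega)⟩
    obtain ⟨rs, hrs, hrs'⟩ := hred s
    rw [hsgP, ← IsScalarTower.algebraMap_apply ℂ L0 F s, hAev] at hrs'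
    set Z : L0 := HahnSeries.C ((D.eval s)⁻¹ * (te s)⁻¹) * g.eval (algebraMap ℂ L0 s) with hZ
    set as1 : Option ι → L0 := fun i => Option.elim i
      (HahnSeries.C (-(d : ℂ)⁻¹ * (D.eval s)⁻¹) * Q.eval (algebraMap ℂ L0 s))
      (fun i => HahnSeries.C ((m i : ℂ)⁻¹ * s⁻¹ * (D.eval s)⁻¹) *
        (a (some i)).eval (algebraMap ℂ L0 s)) with has1
    set as : Option ι → L0 := fun i => as1 i - Z * cO c lam i with has
    have h7 : ∀ i, sg d m s i * as1 i =
        HahnSeries.C ((D.eval s)⁻¹) * (a i).eval (algebraMap ℂ L0 s) := by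
      intro i
      cases i with
      | none =>
        rw [hQ s, algebraMap_L0, has1]
        unfold sg aO bO
        simp only [Option.elim_none]
        rw [← mul_assoc, ← mul_assoc, ← map_mul, ← map_mul]
        congr 2
        push_cast
        field_simp
        linear_combination hds0
      | some i =>
        rw [has1]
        unfold sg aO bO
        simp only [Option.elim_some]
        rw [← mul_assoc, ← map_mul]
        congr 2
        have := hmC i
        push_cast
        field_simp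
        ring
    have h8 : (B1 f K θ w t).eval (algebraMap ℂ F s) + algebraMap ℂ F (d * s + 3) *
        (U1 f lam (K + j') u w t).eval (algebraMap ℂ F s) =
        lg W (cO c lam) (fun i => sg d m s i * as i) +
          nb W.dw (lg W (cO c lam) (sg d m s))
            (algebraMap L0 F (HahnSeries.C ((D.eval s)⁻¹)) * rs + algebraMap L0 F Z * w) := by
      have h9 : (fun i => sg d m s i * as i) =
          fun i => HahnSeries.C ((D.eval s)⁻¹) * (a i).eval (algebraMap ℂ L0 s) +
            -Z * (sg d m s i * cO c lam i) := by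
        funext i
        rw [← h7 i, has]
        ring
      have hw1 : nb W.dw (lg W (cO c lam) (sg d m s)) w =
          algebraMap L0 F (HahnSeries.C (te s)) +
            lg W (cO c lam) (fun i => sg d m s i * cO c lam i) := by
        rw [hw, nb_w, hsum]
        congr 2
        rw [← map_one (HahnSeries.C : ℂ →+* L0), ← map_add]
        congr 1
        ring
      have e1 : algebraMap L0 F (HahnSeries.C ((D.eval s)⁻¹)) *
          algebraMap L0 F (HahnSeries.C (D.eval s)) = 1 := by
        rw [← map_mul, ← map_mul, inv_mul_cancel₀ hDs, map_one, map_one]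
      have e2 : algebraMap L0 F Z * algebraMap L0 F (HahnSeries.C (te s)) =
          algebraMap L0 F (HahnSeries.C ((D.eval s)⁻¹)) *
            algebraMap L0 F (g.eval (algebraMap ℂ L0 s)) := by
        rw [← map_mul, ← map_mul, hZ]
        congr 1
        have e3 : (HahnSeries.C ((D.eval s)⁻¹ * (te s)⁻¹) : L0) * HahnSeries.C (te s) =
            HahnSeries.C ((D.eval s)⁻¹) := by
          rw [← map_mul, mul_assoc, inv_mul_cancel₀ hts, mul_one]
        linear_combination (g.eval (algebraMap ℂ L0 s)) * e3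
      rw [h9, LTaux.lg_add, LTaux.lg_smul, LTaux.lg_smul, LTaux.nb_add, LTaux.nb_smul,
        LTaux.nb_smul, hw1, map_neg]
      rw [algebraMap_L0 (D.eval s)] at hrs'
      linear_combination (-((B1 f K θ w t).eval (algebraMap ℂ F s) +
        algebraMap ℂ F (d * s + 3) * (U1 f lam (K + j') u w t).eval (algebraMap ℂ F s))) * e1 +
        algebraMap L0 F (HahnSeries.C ((D.eval s)⁻¹)) * hrs' - e2
    have hwS : W.w ∈ SS W (cO c lam) := Algebra.subset_adjoin (Set.mem_insert _ _)
    have h9 := irr_bound hf h W T hT hF hlt hlam (hch' s) hs (add_mem (mul_mem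
      (Subalgebra.algebraMap_mem _ _) hrs) (mul_mem (Subalgebra.algebraMap_mem _ _) hwS)) h8 hij
    have hcne : c i - c j ≠ 0 := sub_ne_zero.2 fun h => hij (hF.inj h)
    have h10 : (R i j).eval (HahnSeries.C s) =
        HahnSeries.C (s * te s * D.eval s) * xi c (fun i => as (some i)) i j := by
      rw [hRe, hY, has, has1, hZ]
      unfold xi cO
      simp only [Option.elim_some, Polynomial.eval_mul, Polynomial.eval_C, Polynomial.eval_sub]
      have e1 : ∀ i, HahnSeries.C (s * te s * D.eval s) *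
          HahnSeries.C ((m i : ℂ)⁻¹ * s⁻¹ * (D.eval s)⁻¹) =
          (HahnSeries.C (te s) * HahnSeries.C ((m i : ℂ)⁻¹) : L0) := by
        intro i
        have := hmC i
        rw [← map_mul, ← map_mul]
        congr 1
        field_simp
      have e2 : HahnSeries.C (s * te s * D.eval s) *
          HahnSeries.C ((D.eval s)⁻¹ * (te s)⁻¹) = (HahnSeries.C s : L0) := by
        rw [← map_mul]
        congr 1
        field_simp
      rw [algebraMap_L0, div_eq_mul_inv]
      have e3 : (c i - c j) * (c i - c j)⁻¹ = 1 := mul_inv_cancel₀ hcne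
      linear_combination (-((a (some i)).eval (HahnSeries.C s)) * (c i - c j)⁻¹) * e1 i +
        ((a (some j)).eval (HahnSeries.C s)) * (c i - c j)⁻¹ * e1 j +
        g.eval (HahnSeries.C s) * (c i - c j) * (c i - c j)⁻¹ * e2 +
        HahnSeries.C s * g.eval (HahnSeries.C s) * e3
    rw [h10, C_mul_orderTop (mul_ne_zero (mul_ne_zero hsne hts) hDs)]
    exact h9
  -- the values at `s0`
  have hcne : ∀ i j, i ≠ j → c i - c j ≠ 0 := fun i j hij =>
    sub_ne_zero.2 fun h => hij (hF.inj h)
  have hvalR : ∀ i j, (R i j).eval (HahnSeries.C (s0 d)) =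
      HahnSeries.C (-(s0 d * D.eval (s0 d))) * γ := by
    intro i j
    rw [hRe, hte0, map_zero, zero_mul, zero_sub, hγ']
    simp only [map_mul, map_neg]
    ring
  have hvalY : ∀ i j, i ≠ j → (Y i j).eval (HahnSeries.C (s0 d)) =
      HahnSeries.C (s0 d * D.eval (s0 d)) * xi c α i j + HahnSeries.C (s0 d) * κ' := by
    intro i j hij
    have h5 : ∀ i, HahnSeries.C ((m i : ℂ)⁻¹) * (a (some i)).eval (HahnSeries.C (s0 d)) =
        HahnSeries.C (s0 d * D.eval (s0 d)) * α i +
          HahnSeries.C (s0 d) * (κ + κ' * c i) := by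
      intro i
      have h6 := hκ (some i)
      have h7 : (a (some i)).eval (HahnSeries.C (s0 d)) =
          HahnSeries.C (D.eval (s0 d)) * (s0m d m i * α i) +
            sg d m (s0 d) (some i) * (κ + κ' * c i) := by
        have h8 : κ + κ' * c i = κ + κ' * cO c lam (some i) := rfl
        rw [h8, ← h6, hext, algebraMap_L0]
        simp only [Option.elim_some]
        ring
      rw [h7]
      unfold sg aO bO s0m
      rw [algebraMap_L0]
      have := hmC i
      have e1 : ∀ x y : L0, HahnSeries.C ((m i : ℂ)⁻¹) * (HahnSeries.C (D.eval (s0 d)) *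
          (HahnSeries.C (s0 d * (m i : ℂ)) * x) +
          HahnSeries.C ((((m i : ℕ) : ℤ) : ℂ) * s0 d + ((0 : ℤ) : ℂ)) * y) =
          HahnSeries.C ((m i : ℂ)⁻¹ * (D.eval (s0 d) * (s0 d * (m i : ℂ)))) * x +
          HahnSeries.C ((m i : ℂ)⁻¹ * ((((m i : ℕ) : ℤ) : ℂ) * s0 d + ((0 : ℤ) : ℂ))) * y := by
        intro x y
        simp only [map_mul, map_add]
        ring
      refine (e1 _ _).trans ?_
      congr 3
      · field_simp
      · push_cast
        field_simp
        ring
    rw [hY]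
    unfold xi
    simp only [Polynomial.eval_mul, Polynomial.eval_C, Polynomial.eval_sub]
    rw [h5, h5, div_eq_mul_inv]
    have e3 : (c i - c j) * (c i - c j)⁻¹ = 1 := mul_inv_cancel₀ (hcne i j hij)
    linear_combination HahnSeries.C (s0 d) * κ' * e3
  have main : ∀ ν : WithTop ℚ, (∀ i j, i ≠ j → ∀ s : ℂ, (∀ q : ℚ, s ≠ (q : ℂ)) →
      ν ≤ ((R i j).eval (HahnSeries.C s)).orderTop) →
      ν ≤ γ.orderTop ∧ ∀ k l, k ≠ l → ν ≤ (xi c α i j - xi c α k l).orderTop := by
    intro ν hν
    constructor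
    · have h5 := poly_bound (R i j) ν (hν i j hij) (s0 d)
      rwa [hvalR, C_mul_orderTop (neg_ne_zero.2 (mul_ne_zero hs0 hDs0))] at h5
    · intro k l hkl
      have h5 := poly_bound (Y i j - Y k l) ν (fun s hs => by
        have hts := hteirr s hs
        have h6 : (R i j).eval (HahnSeries.C s) - (R k l).eval (HahnSeries.C s) =
            HahnSeries.C (te s) * (Y i j - Y k l).eval (HahnSeries.C s) := by
          rw [hRe, hRe, Polynomial.eval_sub]
          ring
        rw [← C_mul_orderTop hts, ← h6]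
        exact le_sub (hν i j hij s hs) (hν k l hkl s hs)) (s0 d)
      have h6 : (Y i j - Y k l).eval (HahnSeries.C (s0 d)) =
          HahnSeries.C (s0 d * D.eval (s0 d)) * (xi c α i j - xi c α k l) := by
        rw [Polynomial.eval_sub, hvalY i j hij, hvalY k l hkl]
        ring
      rwa [h6, C_mul_orderTop (mul_ne_zero hs0 hDs0)] at h5
  have m0 := main 0 fun i j hij s hs => (hbound i j hij s hs).1
  refine ⟨⟨m0.1, fun hsp => (main _ fun i j hij s hs => (hbound i j hij s hs).2 hsp).1⟩,
    fun k l hkl => ⟨m0.2 k l hkl, fun hsp =>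
      (main _ fun i j hij s hs => (hbound i j hij s hs).2 hsp).2 k l hkl⟩⟩

end MPb07157.TR
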